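import Pool.Agent.Work.MP_72ad00_an.H.Glue

/-!
The basic step: light plane points give light pairs.
-/

set_option autoImplicit false

open Finset Real

namespace Pool.Agent.Work.MP_72ad00_an.H

open Pool.Agent.Lib.PFR

theorem abs_sub_le_of_lt {K i j : ℕ} (hi : i < K) (hj : j < K) : |(i : ℝ) - j| ≤ K := by
  have h1 : (i : ℝ) ≤ K := by exact_mod_cast hi.le
  have h2 : (j : ℝ) ≤ K := by exact_mod_cast hj.le
  rw [abs_le]
  constructor <;> linarith [Nat.cast_nonneg (α := ℝ) i, Nat.cast_nonneg (α := ℝ) j]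

theorem sep_div {K : ℕ} (hK : (0 : ℝ) < K) {x u : ℝ} (h : K * exp (- x) ≤ |u|) :
    exp (- x) ≤ |u / K| := by
  rw [abs_div, abs_of_pos hK, le_div_iff₀ hK, mul_comm]
  exact h

theorem div_le_exp {K : ℕ} (hK : (0 : ℝ) < K) {x u : ℝ} (h : |u| ≤ K * exp x) :
    |u / K| ≤ exp x := by
  rw [abs_div, abs_of_pos hK, div_le_iff₀ hK, mul_comm]
  exact h

theorem phi_rg {K x u a s : ℝ} (hK : 0 < K) (hx : 0 ≤ x) (h1 : K * exp (- x) ≤ |u|)
    (h2 : K * exp (- x) ≤ |a|) (h3 : K * exp (- x) ≤ |a - s|) (k1 : |u| ≤ K) (k2 : |a| ≤ K)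
    (k3 : |a - s| ≤ K) :
    |u * (1 - s / a)| ≤ K * exp (2 * x) ∧ K * exp (- (2 * x)) ≤ |u * (1 - s / a)| := by
  have h0 : 0 < K * exp (- x) := by positivity
  have ha : 0 < |a| := h0.trans_le h2
  have e : |u * (1 - s / a)| = |u| * |a - s| / |a| := by
    rw [← abs_mul, ← abs_div]
    congr 1
    have := abs_pos.1 ha
    field_simp
  have e1 : exp (2 * x) * exp (- x) = exp x := by rw [← exp_add]; congr 1; ring
  have e2 : exp (- (2 * x)) = exp (- x) * exp (- x) := by rw [← exp_add]; congr 1; ring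
  rw [e, div_le_iff₀ ha, le_div_iff₀ ha]
  constructor
  · have f1 := mul_le_mul k1 k3 (abs_nonneg _) hK.le
    have f2 := mul_le_mul_of_nonneg_left h2 (mul_pos hK (exp_pos (2 * x))).le
    have f3 : K * exp (2 * x) * (K * exp (- x)) = K * K * exp x := by rw [← e1]; ring
    nlinarith [one_le_exp hx, mul_pos hK hK]
  · have f1 := mul_le_mul h1 h3 h0.le (abs_nonneg _)
    have f2 := mul_le_mul_of_nonneg_left k2 (mul_pos hK (exp_pos (- (2 * x)))).le
    rw [e2] at f2 ⊢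
    linarith

theorem phi_win {K x u s a b : ℝ} (hK : 0 < K) (h1 : K * exp (- x) ≤ |u|)
    (h2 : K * exp (- x) ≤ |s|) (h3 : K * exp (- x) ≤ |a|) (h4 : K * exp (- x) ≤ |b|)
    (k1 : |a| ≤ K) (k2 : |b| ≤ K) (h : ⌊u * (1 - s / a)⌋ = ⌊u * (1 - s / b)⌋) :
    |a - b| ≤ exp (2 * x) := by
  have h0 : 0 < K * exp (- x) := by positivity
  have ha : 0 < |a| := h0.trans_le h3
  have hb : 0 < |b| := h0.trans_le h4
  have h5 := Int.abs_sub_lt_one_of_floor_eq_floor h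
  have e : |u * (1 - s / a) - u * (1 - s / b)| = |u| * |s| * |a - b| / (|a| * |b|) := by
    rw [← abs_mul, ← abs_mul, ← abs_mul, ← abs_div]
    congr 1
    have := abs_pos.1 ha
    have := abs_pos.1 hb
    field_simp
    ring
  rw [e, div_lt_one (mul_pos ha hb)] at h5
  have f1 := mul_le_mul_of_nonneg_right (mul_le_mul h1 h2 h0.le (abs_nonneg _)) (abs_nonneg (a - b))
  have f2 := mul_le_mul k1 k2 (abs_nonneg _) hK.le
  have e2 : exp (2 * x) * (exp (- x) * exp (- x)) = 1 := by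
    rw [← exp_add, ← exp_add, ← exp_zero]; congr 1; ring
  refine le_of_mul_le_mul_left ?_ (mul_pos h0 h0)
  have f3 : K * exp (- x) * (K * exp (- x)) * exp (2 * x) = K * K := by
    linear_combination (K * K) * e2
  linarith

theorem card_strip {K : ℕ} (B : Finset (ℕ × ℕ)) (hB : B ⊆ range K ×ˢ range K) (a b c ρ : ℝ)
    (hρ : 1 ≤ ρ) : (B.card : ℝ) ≤ (fl B fun z : ℕ × ℕ =>
      ρ ≤ |(z.1 : ℝ) - a| ∧ ρ ≤ |(z.2 : ℝ) - b| ∧ ρ ≤ |(z.2 : ℝ) - c|).card + 9 * ρ * K := by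
  rw [card_fl_add B fun z : ℕ × ℕ =>
      ρ ≤ |(z.1 : ℝ) - a| ∧ ρ ≤ |(z.2 : ℝ) - b| ∧ ρ ≤ |(z.2 : ℝ) - c|]
  refine add_le_add_right ?_ _
  have h1 : (fl B fun z : ℕ × ℕ =>
      ¬ (ρ ≤ |(z.1 : ℝ) - a| ∧ ρ ≤ |(z.2 : ℝ) - b| ∧ ρ ≤ |(z.2 : ℝ) - c|)) ⊆
      ((fl (range K) fun j : ℕ => ¬ ρ ≤ |(j : ℝ) - a|) ×ˢ range K) ∪
      ((range K ×ˢ fl (range K) fun j : ℕ => ¬ ρ ≤ |(j : ℝ) - b|) ∪
        (range K ×ˢ fl (range K) fun j : ℕ => ¬ ρ ≤ |(j : ℝ) - c|)) := by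
    intro z hz
    obtain ⟨h2, h3⟩ := mem_fl.1 hz
    obtain ⟨h4, h5⟩ := mem_product.1 (hB h2)
    simp only [mem_union, mem_product, mem_fl, h4, h5, true_and, and_true]
    tauto
  have h2 := (card_le_card h1).trans ((card_union_le _ _).trans
    (Nat.add_le_add_left (card_union_le _ _) _))
  simp only [card_product, card_range] at h2
  refine (Nat.cast_le.2 h2).trans ?_
  push_cast
  have k := Nat.cast_nonneg (α := ℝ) K
  linarith [mul_le_mul_of_nonneg_right (card_close K a ρ hρ) k,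
    mul_le_mul_of_nonneg_right (card_close K b ρ hρ) k,
    mul_le_mul_of_nonneg_right (card_close K c ρ hρ) k]

variable {m : ℕ} {Ω : Type} [Fintype Ω] {ℓ : ℝ} {K : ℕ} {μ : Ω → ℝ} {y d : Ω → Fin m → ℝ}
  {S : Ω → Finset ℕ} {w1 w2 : ℝ} {Z : ℕ → Finset (Fin m → ℝ)} {c : ℕ → Ω → Fin m → ℝ} {n t : ℝ}

/-- Separation conditions. -/
def Sp (K : ℕ) (x : ℝ) (r i : ℕ) (z : ℕ × ℕ) : Prop :=
  K * exp (- x) ≤ |(z.1 : ℝ) - r| ∧ K * exp (- x) ≤ |(z.2 : ℝ) - r| ∧
    K * exp (- x) ≤ |(z.2 : ℝ) - i|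

/-- The discretised parameter. -/
noncomputable def ph (r i : ℕ) (z : ℕ × ℕ) : ℤ :=
  ⌊((z.1 : ℝ) - r) * (1 - ((i : ℝ) - r) / ((z.2 : ℝ) - r))⌋

theorem card_wn {x : ℝ} (hK : (0 : ℝ) < K) (hx : 0 ≤ x) {r i : ℕ} (hr : r < K)
    (hi : K * exp (- x) ≤ |(i : ℝ) - r|) (j : ℕ) (k : ℤ) :
    ((fl (range K) fun j' => Sp K x r i (j, j') ∧ ph r i (j, j') = k).card : ℝ) ≤
      exp (2 * x + 2) := by
  rw [← card_image_of_injective _ (Nat.cast_injective (R := ℤ))]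
  refine (card_window _ (exp_pos (2 * x)).le fun a ha b hb => ?_).trans ?_
  · obtain ⟨a', ha', rfl⟩ := mem_image.1 ha
    obtain ⟨b', hb', rfl⟩ := mem_image.1 hb
    obtain ⟨a1, a2, a3⟩ := mem_fl.1 ha'
    obtain ⟨b1, b2, b3⟩ := mem_fl.1 hb'
    have := phi_win hK a2.1 hi a2.2.1 b2.2.1 (abs_sub_le_of_lt (mem_range.1 a1) hr)
      (abs_sub_le_of_lt (mem_range.1 b1) hr) (a3.trans b3.symm)
    rw [sub_sub_sub_cancel_right] at this
    exact_mod_cast this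
  · linarith [c2_le_exp (le_refl (2 * x + 2)), one_le_exp (by linarith : 0 ≤ 2 * x)]

theorem basic_one {β p : ℝ} (h : RKp m β p) (h0 : 1 / 2 ≤ β) (h1 : β ≤ 1)
    (hU : US ℓ K μ y d S w1 w2 Z c n t) {x : ℝ} (hx : ℓ ≤ x) (hK : exp (p * (24 * x)) ≤ K)
    {g g' : ℝ} (hg : (24 * p + 35 + 392 * m) * x + (1 - β) * g + (2 * β - 1) * (w1 + w2) +
      2 * (1 - β) * w1 - β * (t - n) ≤ g') {r i : ℕ} (hr : r < K) {k : ℤ} (hk : k ∈ rg K (9 * x)) :
    ∑ v, ind (K * exp (- (4 * x)) ≤ |(i : ℝ) - r| ∧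
        ¬ Hv (vr μ S c (exp (t - n - 24 * x)) r) (fun v => cell (nu K y d r i k v)) g v) *
        vr μ S c (exp (t - n - x)) r v * ((fl (range K) fun j => ∃ j',
          (j, j') ∈ fl (fl (range K ×ˢ range K) fun z =>
            Hv (vr μ S c (exp (t - n - x)) r) (pl K y d z.1 z.2) g' v) (Sp K (4 * x) r i) ∧
          ph r i (j, j') = k).card : ℝ) ≤ K * (2 * exp (t - 24 * x)) := by
  classical
  have hl := hU.ls.l1
  have hμ := hU.ls.pos
  have hK0 : (0 : ℝ) < K := (exp_pos _).trans_le hK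
  by_cases hi : K * exp (- (4 * x)) ≤ |(i : ℝ) - r|
  swap
  · rw [sum_eq_zero fun v _ => by rw [ind_neg fun h => hi h.1, zero_mul, zero_mul]]
    positivity
  set V1 := vr μ S c (exp (t - n - x)) r with hV1
  set V2 := vr μ S c (exp (t - n - 24 * x)) r with hV2
  have hV10 : ∀ v, 0 ≤ V1 v := gv_nonneg hμ (exp_pos _)
  have hV20 : ∀ v, 0 ≤ V2 v := gv_nonneg hμ (exp_pos _)
  have hV12 : ∀ v, V1 v ≤ V2 v := gv_anti hμ (exp_pos _) (exp_le_exp.2 (by linarith))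
  have hVt : ∑ v, V1 v ≤ exp t := (gv_sum_le hμ (exp_pos _)).trans hU.tot.le
  obtain ⟨ν, hν⟩ : ∃ ν : Ω × Ω → ℝ, ∀ v, ν v = ind (K * exp (- (4 * x)) ≤ |(i : ℝ) - r| ∧
    ¬ Hv V2 (fun v => cell (nu K y d r i k v)) g v) * V1 v := ⟨_, fun _ => rfl⟩
  simp only [← hν]
  have hν0 : ∀ v, 0 ≤ ν v := fun v => hν v ▸ mul_nonneg (ind_nonneg _) (hV10 v)
  have hν1 : ∀ v, ν v ≤ V1 v := fun v => hν v ▸ mul_le_of_le_one_left (hV10 v) (ind_le_one _)
  have hν2 : ∀ v, ν v ≠ 0 → V1 v ≠ 0 ∧ ¬ Hv V2 (fun v => cell (nu K y d r i k v)) g v :=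
    fun v hv => ⟨right_ne_zero_of_mul (hν v ▸ hv),
      fun h2 => hv (by rw [hν, ind_neg fun h3 => h3.2 h2, zero_mul])⟩
  have hν3 : ∀ a b, ν (a, b) ≤ exp (x + n - t) * μ a * μ b := fun a b => by
    refine (hν1 _).trans ((gv_le hμ (exp_pos _) a b).trans (le_of_eq ?_))
    rw [← exp_neg]
    congr 3
    ring
  have hcl : ∀ v, ν v ≠ 0 → ‖pt K y d r v.2 - pt K y d r v.1‖ ≤ 2 * exp ℓ := fun v hv => by
    obtain ⟨a1, a2, a3⟩ := gv_ne (hν2 v hv).1
    exact hU.close a1 a2 a3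
  choose A hA1 hA2 using fun j j' => exists_heavy hV10 (pl K y d j j') (g := g') hVt
  have hdn : ∀ ω, ‖d ω‖ ≤ exp (24 * x) * K := fun ω => (hU.ls.dn ω).trans
    (mul_le_mul_of_nonneg_right (exp_le_exp.2 (by linarith)) hK0.le)
  have key := h.two h1 (ℓ := 24 * x) (ν := ν) (y := fun v => y v.1) (d := fun v => d v.1)
    (e := fun v => d v.2) (r0 := r) (σ := ((i : ℝ) - r) / K) (τ := (k : ℝ) / K)
    (S := fun v => fl (range K) fun j => ∃ j',
      (j, j') ∈ fl (fl (range K ×ˢ range K) fun z => Hv V1 (pl K y d z.1 z.2) g' v)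
        (Sp K (4 * x) r i) ∧ ph r i (j, j') = k)
    (fun j => (fl (range K) fun j' => Sp K (4 * x) r i (j, j') ∧ ph r i (j, j') = k).biUnion
      (A j)) (n := 10 * x + (t - g')) (w0 := g)
    (w2 := x + n - t + w2 + (2 * (m * (48 * x + 2)) + w1))
    (w1 := x + n - t + w1 + (2 * (m * (72 * x + 2)) + w1)) (by linarith) hK hν0
    (fun v => hdn _) (fun v => hdn _) (fun v => fl_subset _ _) hr.le
    (div_le_exp hK0 ((mem_rg.1 hk).1.trans
      (mul_le_mul_of_nonneg_left (exp_le_exp.2 (by linarith)) hK0.le)))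
    ((exp_le_exp.2 (by linarith)).trans (sep_div hK0 hi)) ?_ ?_ ?_ ?_ ?_
  · refine key.trans (mul_le_mul_of_nonneg_left ?_ hK0.le)
    rw [two_mul (exp _)]
    refine add_le_add ?_ (exp_le_exp.2 ?_)
    · refine (mul_le_mul_of_nonneg_left ((sum_le_sum fun v _ => hν1 v).trans hVt)
        (exp_pos _).le).trans (exp_mul_le (by linarith))
    · have m0 := Nat.cast_nonneg (α := ℝ) m
      have f1 : (m : ℝ) * (48 * x + 2) ≤ 50 * (m * x) := by nlinarith
      have f2 : (m : ℝ) * (72 * x + 2) ≤ 74 * (m * x) := by linarith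
      have f3 : 0 ≤ (m : ℝ) * (48 * x + 2) := mul_nonneg m0 (by linarith)
      have f4 : 0 ≤ (m : ℝ) * (72 * x + 2) := mul_nonneg m0 (by linarith)
      have f5 := mul_le_mul_of_nonneg_right (by linarith : 2 * β - 1 ≤ 1) f3
      have f6 := mul_le_mul_of_nonneg_right (by linarith : 1 - β ≤ 1) f4
      have f7 := mul_le_mul_of_nonneg_right h1 (by linarith : 0 ≤ x)
      linarith
  · intro v hv j hj
    obtain ⟨hj1, j', hj2, hj3⟩ := mem_fl.1 hj
    obtain ⟨hj4, hj5⟩ := mem_fl.1 hj2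
    obtain ⟨hj6, hj7⟩ := mem_fl.1 hj4
    have hj8 := (mem_product.1 hj6).2
    have s1 := sep_div hK0 hj5.1
    refine ⟨(exp_le_exp.2 (by linarith)).trans s1, ((j' : ℝ) - r) / K, ?_, pl K y d j j' v,
      mem_biUnion.2 ⟨j', mem_fl.2 ⟨hj8, hj5, hj3⟩, hA2 j j' v hj7⟩,
      (norm_sub_cell _).trans (one_le_exp (by linarith)), ?_⟩
    · have h0' : 0 < K * exp (- (4 * x)) := by positivity
      have u0 : (j : ℝ) - r ≠ 0 := abs_pos.1 (h0'.trans_le hj5.1)
      have u1 : (j' : ℝ) - r ≠ 0 := abs_pos.1 (h0'.trans_le hj5.2.1)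
      have u2 := abs_sub_le_of_lt (mem_range.1 hj8) hr
      have u3 := hj5.1
      simp only [ph] at hj3 u3
      generalize (j : ℝ) - r = u at *
      generalize (j' : ℝ) - r = a at *
      generalize (i : ℝ) - r = s at *
      have e0 : |s / K - (1 - k / K / (u / K)) * (a / K)| * K =
          |(k : ℝ) - u * (1 - s / a)| * |a| / |u| := by
        rw [← abs_of_pos hK0, ← abs_mul, ← abs_mul, ← abs_div, abs_of_pos hK0]
        congr 1
        field_simp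
        ring
      have f1 : |(k : ℝ) - u * (1 - s / a)| ≤ 1 := by
        rw [← hj3, abs_le]
        constructor <;> linarith [Int.floor_le (u * (1 - s / a)),
          Int.lt_floor_add_one (u * (1 - s / a))]
      rw [e0, div_le_iff₀ (abs_pos.2 u0)]
      have f2 := mul_le_mul f1 u2 (abs_nonneg _) zero_le_one
      have f3 := mul_le_mul_of_nonneg_left u3 (exp_pos (24 * x)).le
      have f4 : exp 0 ≤ exp (24 * x) * exp (- (4 * x)) := by
        rw [← exp_add]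
        exact exp_le_exp.2 (by linarith)
      rw [exp_zero] at f4
      nlinarith
    · have e0 : pt K (fun v : Ω × Ω => y v.1) (fun v => d v.1) r v + (((j' : ℝ) - r) / K) • d v.2 -
          (pl K y d j j' v).2 = (pt K y d j' v.2 - cell (pt K y d j' v.2)) -
            (pt K y d r v.2 - pt K y d r v.1) := by
        rw [pl, pt_sub K y d r j' v.2]
        simp only [pt]
        module
      rw [e0]
      refine (norm_sub_le _ _).trans ((add_le_add (norm_sub_cell _) (hcl v hv)).trans ?_)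
      linarith [c2_le_exp (by linarith : ℓ + 2 ≤ 24 * x), one_le_exp (by linarith : 0 ≤ ℓ)]
  · refine (sum_le_sum fun j _ => (?_ : _ ≤ exp (10 * x + (t - g')))).trans ?_
    · refine (Nat.cast_le.2 card_biUnion_le).trans ?_
      push_cast
      refine (sum_le_sum fun j' _ => hA1 j j').trans ?_
      rw [sum_const, nsmul_eq_mul]
      exact (mul_le_mul_of_nonneg_right (card_wn hK0 (by linarith) hr hi j k)
        (exp_pos _).le).trans (exp_mul_le (by linarith))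
    · rw [sum_const, card_range, nsmul_eq_mul]
  · intro u
    exact light_le hV20 (fun v => cell (nu K y d r i k v)) (exp_pos g).le u fun v hv h2 =>
      ⟨h2, (hν1 v).trans (hV12 v), not_lt.1 (hν2 v hv).2⟩
  · intro a b
    rw [exp_add, exp_add]
    refine ms2_le hμ hμ (exp_pos _).le (F := fun ω => ‖d ω - b‖ ≤ 1)
      (G := fun ω ω' => ‖pt K y d r ω' - pt K y d r ω‖ ≤ exp (48 * x) ∧
        ‖d ω' - (((i : ℝ) - r) / K)⁻¹ • (a - pt K y d r ω)‖ ≤ exp (48 * x))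
      (fun ω ω' hv h2 => ⟨⟨h2.2, (hcl _ hv).trans (two_le_exp (by linarith)), ?_⟩, hν3 _ _⟩)
      (hU.ls.c2 b) (fun ω => ptd_le hμ hU.ls.c1 hr (by linarith) _ _) (exp_pos _).le
    have s1 := sep_div hK0 hi
    have s0 : ((i : ℝ) - r) / K ≠ 0 := abs_pos.1 ((exp_pos _).trans_le s1)
    have e0 : d ω' - (((i : ℝ) - r) / K)⁻¹ • (a - pt K y d r ω) =
        (((i : ℝ) - r) / K)⁻¹ • (pt K y d r ω + (((i : ℝ) - r) / K) • d ω' - a) := by
      generalize ((i : ℝ) - r) / K = s at s0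
      match_scalars <;> field_simp
    rw [e0]
    refine (norm_inv_smul_le s1 h2.1).trans ?_
    rw [mul_left_comm, ← exp_add]
    exact two_le_exp (by linarith)
  · intro a b e
    rw [exp_add, exp_add]
    exact ms2_le hμ hμ (exp_pos _).le (F := fun ω => ‖y ω - a‖ ≤ 1 ∧ ‖d ω - b‖ ≤ 1)
      (G := fun ω ω' => ‖pt K y d r ω' - pt K y d r ω‖ ≤ exp (72 * x) ∧ ‖d ω' - e‖ ≤ exp (72 * x))
      (fun ω ω' hv h2 => ⟨⟨h2.1, (hcl _ hv).trans (two_le_exp (by linarith)),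
        h2.2.trans (exp_le_exp.2 (by linarith))⟩, hν3 _ _⟩)
      (hU.ls.c1 a b) (fun ω => ptd_le hμ hU.ls.c1 hr (by linarith) _ _) (exp_pos _).le

theorem card_good (hL : LS ℓ K μ y d S w1 w2) {x x' : ℝ} (hx : ℓ ≤ x) (hx' : x + 2 ≤ x')
    (hK : exp x' ≤ K) {ω : Ω} (hω : μ ω ≠ 0) (z : ℝ) :
    K * exp (- (x + 1)) ≤ (fl (S ω) fun j : ℕ => K * exp (- x') ≤ |(j : ℝ) - z|).card := by
  have hK0 : (0 : ℝ) < K := (exp_pos _).trans_le hK
  have h1 : 1 ≤ K * exp (- x') := by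
    rw [exp_neg, ← div_eq_mul_inv, one_le_div (exp_pos _)]
    exact hK
  have h2 := card_far (hL.sub ω) z _ h1
  have h3 : K * exp (- x) ≤ (S ω).card := by
    rw [exp_neg, ← div_eq_mul_inv, div_le_iff₀ (exp_pos _), mul_comm]
    exact (hL.den ω hω).trans
      (mul_le_mul_of_nonneg_right (exp_le_exp.2 hx) (Nat.cast_nonneg _))
  have h4 := mul_le_mul_of_nonneg_left (c2_le_exp (by linarith : - x' + 2 ≤ - x)) hK0.le
  have h5 := mul_le_mul_of_nonneg_left (two_le_exp (by linarith : - (x + 1) + 1 ≤ - x)) hK0.le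
  linarith [mul_pos hK0 (exp_pos (- x'))]

/-- Summing a bound that holds for every good parameter. -/
theorem sum_good {α γ : Type} {A R : Finset α} {F : α → Prop} (hA : A ⊆ R) (I : Finset γ)
    (s : α × γ → ℝ) (hs : ∀ q, 0 ≤ s q) {c b M : ℝ} (hc0 : 0 ≤ c) (hM : 0 ≤ M)
    (hc : c ≤ (fl A F).card) (h : ∀ i ∈ A, F i → b ≤ M * ∑ k ∈ I, s (i, k)) :
    c * b ≤ M * ∑ q ∈ R ×ˢ I, ind (q.1 ∈ A ∧ F q.1) * s q := by
  have h0 : ∀ i, 0 ≤ M * ∑ k ∈ I, ind (i ∈ A ∧ F i) * s (i, k) := fun i =>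
    mul_nonneg hM (sum_nonneg fun _ _ => mul_nonneg (ind_nonneg _) (hs _))
  rw [sum_product, mul_sum]
  rcases le_total b 0 with h2 | h2
  · exact (mul_nonpos_of_nonneg_of_nonpos hc0 h2).trans (sum_nonneg fun i _ => h0 i)
  refine (mul_le_mul_of_nonneg_right hc h2).trans ?_
  rw [← nsmul_eq_mul, ← sum_const]
  refine le_trans (sum_le_sum fun i hi => ?_) (sum_le_sum_of_subset_of_nonneg
    ((fl_subset _ _).trans hA) fun i _ _ => h0 i)
  simp only [ind_pos (mem_fl.1 hi), one_mul]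
  exact h i (mem_fl.1 hi).1 (mem_fl.1 hi).2

theorem basic_count (hL : LS ℓ K μ y d S w1 w2) {x : ℝ} (hx : ℓ ≤ x) (hK : exp (24 * x) ≤ K)
    {ω : Ω} (hω : μ ω ≠ 0) {r : ℕ} (hr : r < K) (B : Finset (ℕ × ℕ))
    (hB : B ⊆ range K ×ˢ range K) :
    K * exp (- (x + 1)) * (B.card - 9 * (K * exp (- (4 * x))) * K) ≤ exp (8 * x + 2) *
      ∑ q ∈ range K ×ˢ rg K (9 * x), ind (q.1 ∈ S ω ∧ K * exp (- (4 * x)) ≤ |(q.1 : ℝ) - r|) *
        ((fl (range K) fun j => ∃ j', (j, j') ∈ fl B (Sp K (4 * x) r q.1) ∧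
          ph r q.1 (j, j') = q.2).card : ℝ) := by
  have hl := hL.l1
  have hK0 : (0 : ℝ) < K := (exp_pos _).trans_le hK
  have h1 : 1 ≤ K * exp (- (4 * x)) := by
    rw [exp_neg, ← div_eq_mul_inv, one_le_div (exp_pos _)]
    exact (exp_le_exp.2 (by linarith)).trans hK
  refine sum_good (F := fun i : ℕ => K * exp (- (4 * x)) ≤ |(i : ℝ) - r|) (hL.sub ω) _ _
    (fun _ => Nat.cast_nonneg _) (by positivity) (exp_pos _).le
    (card_good hL hx (x' := 4 * x) (by linarith) ((exp_le_exp.2 (by linarith)).trans hK) hω r)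
    fun i i1 i2 => ?_
  have i3 := mem_range.1 (hL.sub ω i1)
  refine le_trans (sub_le_iff_le_add.2 (card_strip B hB r r i _ h1)) (count_le
    (fl B (Sp K (4 * x) r i)) (ph r i) (rg K (9 * x)) (range K) (fun b hb => ?_) fun j k => ?_)
  · obtain ⟨b1, b2⟩ := mem_fl.1 hb
    obtain ⟨b3, b4⟩ := mem_product.1 (hB b1)
    have := phi_rg (s := (i : ℝ) - r) hK0 (by linarith : 0 ≤ 4 * x) b2.1 b2.2.1
      (by rw [sub_sub_sub_cancel_right]; exact b2.2.2) (abs_sub_le_of_lt (mem_range.1 b3) hr)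
      (abs_sub_le_of_lt (mem_range.1 b4) hr)
      (by rw [sub_sub_sub_cancel_right]; exact abs_sub_le_of_lt (mem_range.1 b4) i3)
    exact ⟨rg_mono (by linarith) (floor_mem_rg (by linarith)
      ((two_le_exp (by linarith)).trans hK) this.1 this.2), b3⟩
  · refine le_trans (Nat.cast_le.2 (card_le_card_of_injOn Prod.snd (fun b hb => ?_)
      fun a ha b hb h => ?_)) ((card_wn hK0 (by linarith : 0 ≤ 4 * x) hr i2 j k).trans
        (exp_le_exp.2 (by linarith)))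
    · obtain ⟨b1, rfl, b3⟩ := mem_fl.1 (mem_coe.1 hb)
      obtain ⟨b4, b5⟩ := mem_fl.1 b1
      exact mem_coe.2 (mem_fl.2 ⟨(mem_product.1 (hB b4)).2, b5, b3⟩)
    · exact Prod.ext ((mem_fl.1 (mem_coe.1 ha)).2.1.trans
        (mem_fl.1 (mem_coe.1 hb)).2.1.symm) h

theorem basic {β p : ℝ} (h : RKp m β p) (h0 : 1 / 2 ≤ β) (h1 : β ≤ 1) (hp : 1 ≤ p)
    (hU : US ℓ K μ y d S w1 w2 Z c n t) {x : ℝ} (hx : ℓ ≤ x) (hK : exp (p * (24 * x)) ≤ K)
    {g g' : ℝ} (hg : (24 * p + 35 + 392 * m) * x + (1 - β) * g + (2 * β - 1) * (w1 + w2) +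
      2 * (1 - β) * w1 - β * (t - n) ≤ g')
    (hN : ∑ r ∈ range K, ∑ q ∈ range K ×ˢ rg K (24 * x),
      ms (vr μ S c (exp (t - n - 24 * x)) r) (fun v => q.1 ∈ S v.2 ∧
        Hv (vr μ S c (exp (t - n - 24 * x)) r) (fun v => cell (nu K y d r q.1 q.2 v)) g v) ≤
      K ^ 3 * exp (t - 24 * x)) :
    ∑ r ∈ range K, ∑ z ∈ range K ×ˢ range K, ms (vr μ S c (exp (t - n - x)) r)
      (Hv (vr μ S c (exp (t - n - x)) r) (pl K y d z.1 z.2) g') ≤ K ^ 3 * exp (t - x) := by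
  have hl := hU.ls.l1
  have hμ := hU.ls.pos
  have hK0 : (0 : ℝ) < K := (exp_pos _).trans_le hK
  have hK1 : exp (24 * x) ≤ K := (exp_le_exp.2 (by nlinarith)).trans hK
  have hK2 : (1 : ℝ) ≤ K := (one_le_exp (by linarith)).trans hK1
  set V1 := vr μ S c (exp (t - n - x)) with hV1
  set V2 := vr μ S c (exp (t - n - 24 * x)) with hV2
  have hV10 : ∀ r v, 0 ≤ V1 r v := fun r => gv_nonneg hμ (exp_pos _)
  have hV20 : ∀ r v, 0 ≤ V2 r v := fun r => gv_nonneg hμ (exp_pos _)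
  have hV12 : ∀ r v, V1 r v ≤ V2 r v := fun r =>
    gv_anti hμ (exp_pos _) (exp_le_exp.2 (by linarith))
  have hVt : ∀ r, ∑ v, V1 r v ≤ exp t := fun r => (gv_sum_le hμ (exp_pos _)).trans hU.tot.le
  have step : ∀ r ∈ range K, K * exp (- (x + 1)) *
      (∑ z ∈ range K ×ˢ range K, ms (V1 r) (Hv (V1 r) (pl K y d z.1 z.2) g') -
        9 * (K * exp (- (4 * x))) * K * exp t) ≤ exp (8 * x + 2) *
      (K * (3 * (K * exp (9 * x))) * (K * (2 * exp (t - 24 * x))) +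
        K * ∑ q ∈ range K ×ˢ rg K (24 * x), ms (V2 r) fun v => q.1 ∈ S v.2 ∧
          Hv (V2 r) (fun v => cell (nu K y d r q.1 q.2 v)) g v) := by
    intro r hr
    have hr' := mem_range.1 hr
    rw [← sum_card_fl (V1 r) _ fun z : ℕ × ℕ => Hv (V1 r) (pl K y d z.1 z.2) g']
    refine (avg_le (Q := K * (3 * (K * exp (9 * x)))) (hV10 r) (hV12 r) (range K ×ˢ rg K (9 * x)) (fun q v => q.1 ∈ S v.2)
      (fun q _ => K * exp (- (4 * x)) ≤ |(q.1 : ℝ) - r|)
      (fun q => Hv (V2 r) (fun v => cell (nu K y d r q.1 q.2 v)) g) _ (by positivity)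
      (by positivity) (exp_pos _).le (by positivity) (fun _ _ => Nat.cast_nonneg _)
      (fun _ _ => (card_fl_le _ _).trans (by rw [card_range])) (hVt r) ?_
      (fun v hv => basic_count hU.ls hx hK1 (gv_ne hv).2.1 hr' _ (fl_subset _ _))
      fun q hq => basic_one h h0 h1 hU hx hK hg hr' (mem_product.1 hq).2).trans ?_
    · rw [card_product, card_range, Nat.cast_mul]
      exact mul_le_mul_of_nonneg_left (card_rg hK2 (by linarith)) hK0.le
    · refine mul_le_mul_of_nonneg_left (add_le_add_right (mul_le_mul_of_nonneg_left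
        (sum_le_sum_of_subset_of_nonneg (product_subset_product_right (rg_mono (by linarith)))
          fun _ _ _ => ms_nonneg (hV20 r) _) hK0.le) _) (exp_pos _).le
  have tot := sum_le_sum step
  rw [← mul_sum, ← mul_sum, sum_sub_distrib, sum_add_distrib, sum_const, sum_const, card_range,
    nsmul_eq_mul, nsmul_eq_mul, ← mul_sum] at tot
  have a3 := tot.trans (mul_le_mul_of_nonneg_left (add_le_add_right
    (mul_le_mul_of_nonneg_left hN hK0.le) _) (exp_pos _).le)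
  refine le_of_mul_le_mul_left ?_ (by positivity : 0 < K * exp (- (x + 1)))
  have b1 : exp (8 * x + 2) * (exp (9 * x) * exp (t - 24 * x)) = exp (t - 7 * x + 2) := by
    rw [← exp_add, ← exp_add]; congr 1; ring
  have b2 : exp (8 * x + 2) * exp (t - 24 * x) ≤ exp (t - 7 * x + 2) := exp_mul_le (by linarith)
  have b3 : exp (- (x + 1)) * exp (t - x) = exp (t - 2 * x - 1) := by
    rw [← exp_add]; congr 1; ring
  have b4 : exp (- (x + 1)) * (exp (- (4 * x)) * exp t) = exp (t - 5 * x - 1) := by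
    rw [← exp_add, ← exp_add]; congr 1; ring
  have b5 := c3_le_exp (by linarith : t - 5 * x - 1 + 3 ≤ t - 2 * x - 1)
  have b7 : 14 * exp (t - 7 * x + 2) ≤ exp (t - 2 * x - 1) := by
    linarith [c3_le_exp (by linarith : t - 7 * x + 2 + 3 ≤ t - 2 * x - 1), exp_pos (t - 7 * x + 2)]
  have hK4 : (0 : ℝ) ≤ K ^ 4 := by positivity
  have f2 := mul_le_mul_of_nonneg_left b2 hK4
  have f5 := mul_le_mul_of_nonneg_left b5 hK4
  have f7 := mul_le_mul_of_nonneg_left b7 hK4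
  have g1 : (K : ℝ) ^ 4 * (exp (8 * x + 2) * (exp (9 * x) * exp (t - 24 * x))) =
    K ^ 4 * exp (t - 7 * x + 2) := by rw [b1]
  have g3 : (K : ℝ) ^ 4 * (exp (- (x + 1)) * exp (t - x)) = K ^ 4 * exp (t - 2 * x - 1) := by
    rw [b3]
  have g4 : (K : ℝ) ^ 4 * (exp (- (x + 1)) * (exp (- (4 * x)) * exp t)) =
    K ^ 4 * exp (t - 5 * x - 1) := by rw [b4]
  linarith [a3, f2, f5, f7, g1, g3, g4]

end Pool.Agent.Work.MP_72ad00_an.H
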