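import Pool.Agent.Work.MP_72ad00_an.Geo

/-!
Masses of events for finite weights, cells and counting.
-/

set_option autoImplicit false

open Finset Real

namespace Pool.Agent.Work.MP_72ad00_an.H

open Pool.Agent.Lib.PFR

variable {Ω Ω' ι : Type} [Fintype Ω] [Fintype Ω']

/-- The mass of an event. -/
noncomputable def ms (μ : Ω → ℝ) (E : Ω → Prop) : ℝ := ∑ ω, ind (E ω) * μ ω

theorem ms_nonneg {μ : Ω → ℝ} (hμ : ∀ ω, 0 ≤ μ ω) (E : Ω → Prop) : 0 ≤ ms μ E :=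
  sum_nonneg fun ω _ => mul_nonneg (ind_nonneg _) (hμ ω)

theorem ms_le {μ ν : Ω → ℝ} (hμ : ∀ ω, 0 ≤ μ ω) {E F : Ω → Prop}
    (h : ∀ ω, ν ω ≠ 0 → E ω → F ω ∧ ν ω ≤ μ ω) : ms ν E ≤ ms μ F := by
  refine sum_le_sum fun ω _ => ?_
  by_cases h0 : ν ω = 0
  · rw [h0, mul_zero]
    exact mul_nonneg (ind_nonneg _) (hμ ω)
  by_cases h1 : E ω
  · rw [ind_pos h1, ind_pos (h ω h0 h1).1, one_mul, one_mul]
    exact (h ω h0 h1).2
  · rw [ind_neg h1, zero_mul]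
    exact mul_nonneg (ind_nonneg _) (hμ ω)

theorem ms_mono {μ : Ω → ℝ} (hμ : ∀ ω, 0 ≤ μ ω) {E F : Ω → Prop}
    (h : ∀ ω, μ ω ≠ 0 → E ω → F ω) : ms μ E ≤ ms μ F :=
  ms_le hμ fun ω h0 h1 => ⟨h ω h0 h1, le_rfl⟩

theorem ms_le_sum {μ : Ω → ℝ} (hμ : ∀ ω, 0 ≤ μ ω) (E : Ω → Prop) : ms μ E ≤ ∑ ω, μ ω :=
  sum_le_sum fun ω _ => mul_le_of_le_one_left (hμ ω) (ind_le_one _)

theorem ms_eq_zero {μ : Ω → ℝ} {E : Ω → Prop} (h : ∀ ω, μ ω ≠ 0 → ¬ E ω) : ms μ E = 0 :=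
  sum_eq_zero fun ω _ => by
    by_cases h0 : μ ω = 0
    · rw [h0, mul_zero]
    · rw [ind_neg (h ω h0), zero_mul]

theorem ms_cover {μ : Ω → ℝ} (hμ : ∀ ω, 0 ≤ μ ω) {E : Ω → Prop} (A : Finset ι)
    (F : ι → Ω → Prop) (h : ∀ ω, μ ω ≠ 0 → E ω → ∃ i ∈ A, F i ω) :
    ms μ E ≤ ∑ i ∈ A, ms μ (F i) := by
  simp only [ms]
  rw [sum_comm]
  refine sum_le_sum fun ω _ => ?_
  have h2 : ∀ i ∈ A, 0 ≤ ind (F i ω) * μ ω := fun i _ => mul_nonneg (ind_nonneg _) (hμ ω)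
  by_cases h0 : μ ω = 0
  · simp [h0]
  by_cases h1 : E ω
  · obtain ⟨i, hi, hF⟩ := h ω h0 h1
    refine le_trans ?_ (single_le_sum h2 hi)
    rw [ind_pos h1, ind_pos hF]
  · rw [ind_neg h1, zero_mul]
    exact sum_nonneg h2

theorem ms_cover_le {μ : Ω → ℝ} (hμ : ∀ ω, 0 ≤ μ ω) {E : Ω → Prop} (A : Finset ι)
    (F : ι → Ω → Prop) (h : ∀ ω, μ ω ≠ 0 → E ω → ∃ i ∈ A, F i ω) {G N : ℝ}
    (hG : ∀ i ∈ A, ms μ (F i) ≤ G) (hG0 : 0 ≤ G) (hN : (A.card : ℝ) ≤ N) : ms μ E ≤ N * G := by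
  refine (ms_cover hμ A F h).trans ((sum_le_sum hG).trans ?_)
  rw [sum_const, nsmul_eq_mul]
  exact mul_le_mul_of_nonneg_right hN hG0

theorem sum2_le {μ : Ω → ℝ} {μ' : Ω' → ℝ} (hμ : ∀ ω, 0 ≤ μ ω) {f : Ω → Ω' → ℝ} {c X Y : ℝ}
    (hc : 0 ≤ c) {F : Ω → Prop} {G : Ω → Ω' → Prop}
    (h : ∀ a b, f a b ≤ c * (ind (F a) * μ a) * (ind (G a b) * μ' b))
    (hX : ms μ F ≤ X) (hY : ∀ a, ms μ' (G a) ≤ Y) (hY0 : 0 ≤ Y) :
    ∑ a, ∑ b, f a b ≤ c * X * Y := by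
  refine (sum_le_sum fun a _ => (sum_le_sum fun b _ => h a b).trans
    (?_ : _ ≤ c * Y * (ind (F a) * μ a))).trans ?_
  · rw [← mul_sum, mul_right_comm c Y]
    exact mul_le_mul_of_nonneg_left (hY a)
      (mul_nonneg hc (mul_nonneg (ind_nonneg _) (hμ a)))
  · rw [← mul_sum, mul_right_comm c X]
    exact mul_le_mul_of_nonneg_left hX (mul_nonneg hc hY0)

theorem ind_mul_le {E F : Prop} {x y : ℝ} (hy : 0 ≤ y) (h : x ≠ 0 → E → F ∧ x ≤ y) :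
    ind E * x ≤ ind F * y := by
  by_cases h0 : x = 0
  · rw [h0, mul_zero]
    exact mul_nonneg (ind_nonneg _) hy
  by_cases h1 : E
  · rw [ind_pos h1, ind_pos (h h0 h1).1, one_mul, one_mul]
    exact (h h0 h1).2
  · rw [ind_neg h1, zero_mul]
    exact mul_nonneg (ind_nonneg _) hy

theorem ms2_le {μ : Ω → ℝ} {μ' : Ω' → ℝ} (hμ : ∀ ω, 0 ≤ μ ω) (hμ' : ∀ ω, 0 ≤ μ' ω)
    {ν : Ω × Ω' → ℝ} {c X Y : ℝ} (hc : 0 ≤ c) {E : Ω × Ω' → Prop} {F : Ω → Prop}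
    {G : Ω → Ω' → Prop}
    (h : ∀ a b, ν (a, b) ≠ 0 → E (a, b) → (F a ∧ G a b) ∧ ν (a, b) ≤ c * μ a * μ' b)
    (hX : ms μ F ≤ X) (hY : ∀ a, ms μ' (G a) ≤ Y) (hY0 : 0 ≤ Y) : ms ν E ≤ c * X * Y := by
  rw [ms, Fintype.sum_prod_type]
  refine sum2_le hμ hc (fun a b => ?_) hX hY hY0
  refine (ind_mul_le (mul_nonneg (mul_nonneg hc (hμ a)) (hμ' b)) (h a b)).trans (le_of_eq ?_)
  rw [ind_and]
  ring

theorem ms2_le' {μ : Ω → ℝ} {μ' : Ω' → ℝ} (hμ : ∀ ω, 0 ≤ μ ω) (hμ' : ∀ ω, 0 ≤ μ' ω)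
    {ν : Ω' × Ω → ℝ} {c X Y : ℝ} (hc : 0 ≤ c) {E : Ω' × Ω → Prop} {F : Ω → Prop}
    {G : Ω → Ω' → Prop}
    (h : ∀ a b, ν (b, a) ≠ 0 → E (b, a) → (F a ∧ G a b) ∧ ν (b, a) ≤ c * μ a * μ' b)
    (hX : ms μ F ≤ X) (hY : ∀ a, ms μ' (G a) ≤ Y) (hY0 : 0 ≤ Y) : ms ν E ≤ c * X * Y := by
  rw [ms, Fintype.sum_prod_type_right]
  refine sum2_le hμ hc (fun a b => ?_) hX hY hY0
  refine (ind_mul_le (mul_nonneg (mul_nonneg hc (hμ a)) (hμ' b)) (h a b)).trans (le_of_eq ?_)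
  rw [ind_and]
  ring

theorem sum_ms_fib {μ : Ω → ℝ} (hμ : ∀ ω, 0 ≤ μ ω) (f : Ω → ι) (A : Finset ι) :
    ∑ z ∈ A, ms μ (fun ω => f ω = z) ≤ ∑ ω, μ ω := by
  classical
  simp only [ms]
  rw [sum_comm]
  refine sum_le_sum fun ω _ => ?_
  rw [← sum_mul]
  refine mul_le_of_le_one_left (hμ ω) ?_
  by_cases h : f ω ∈ A
  · rw [sum_eq_single_of_mem _ h fun z _ hz => ind_neg (Ne.symm hz)]
    exact ind_le_one _
  · rw [sum_eq_zero fun z hz => ind_neg fun h1 : f ω = z => h (h1 ▸ hz)]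
    exact zero_le_one

/-- The labels of heavy fibres. -/
theorem exists_heavy {μ : Ω → ℝ} (hμ : ∀ ω, 0 ≤ μ ω) (f : Ω → ι) {g t : ℝ}
    (ht : ∑ ω, μ ω ≤ exp t) : ∃ A : Finset ι, (A.card : ℝ) ≤ exp (t - g) ∧
      ∀ ω, exp g < ms μ (fun ω' => f ω' = f ω) → f ω ∈ A := by
  classical
  refine ⟨(univ.filter fun ω => exp g < ms μ fun ω' => f ω' = f ω).image f, ?_,
    fun ω h => mem_image_of_mem _ (mem_filter.2 ⟨mem_univ _, h⟩)⟩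
  rw [exp_sub, le_div_iff₀ (exp_pos g), ← nsmul_eq_mul, ← sum_const]
  refine le_trans (sum_le_sum fun z hz => ?_) ((sum_ms_fib hμ f _).trans ht)
  obtain ⟨ω, hω, rfl⟩ := mem_image.1 hz
  exact (mem_filter.1 hω).2.le

theorem light_le {μ ν : Ω → ℝ} (hμ : ∀ ω, 0 ≤ μ ω) (f : Ω → ι) {G : ℝ} (hG : 0 ≤ G)
    {E : Ω → Prop} (z : ι)
    (h : ∀ ω, ν ω ≠ 0 → E ω → f ω = z ∧ ν ω ≤ μ ω ∧ ms μ (fun ω' => f ω' = f ω) ≤ G) :
    ms ν E ≤ G := by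
  by_cases h1 : ∃ ω, ν ω ≠ 0 ∧ E ω
  · obtain ⟨ω, h2, h3⟩ := h1
    refine le_trans (ms_le hμ fun ω' h4 h5 => ⟨?_, (h ω' h4 h5).2.1⟩) (h ω h2 h3).2.2
    rw [(h ω' h4 h5).1, (h ω h2 h3).1]
  · rw [ms_eq_zero fun ω h2 h3 => h1 ⟨ω, h2, h3⟩]
    exact hG

theorem sum_card_eq {α : Type} [DecidableEq α] (μ : Ω → ℝ) (S : Ω → Finset α) (R : Finset α)
    (h : ∀ ω, S ω ⊆ R) : ∑ ω, μ ω * (S ω).card = ∑ r ∈ R, ms μ fun ω => r ∈ S ω := by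
  simp only [ms]
  rw [sum_comm]
  refine sum_congr rfl fun ω _ => ?_
  rw [← sum_mul, mul_comm]
  congr 1
  have : ∀ r, ind (r ∈ S ω) = if r ∈ S ω then (1 : ℝ) else 0 := fun r => by
    split_ifs with h0
    · exact ind_pos h0
    · exact ind_neg h0
  simp only [this, sum_ite_mem, sum_const, nsmul_eq_mul, mul_one, inter_eq_right.2 (h ω)]

variable {m : ℕ}

/-- The corner of the unit cell of a vector. -/
noncomputable def cell (v : Fin m → ℝ) : Fin m → ℝ := fun l => (⌊v l⌋ : ℝ)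

theorem norm_sub_cell (v : Fin m → ℝ) : ‖v - cell v‖ ≤ 1 := by
  refine (pi_norm_le_iff_of_nonneg zero_le_one).2 fun l => ?_
  rw [Pi.sub_apply, cell, Real.norm_eq_abs, abs_le]
  constructor <;> linarith [Int.floor_le (v l), Int.lt_floor_add_one (v l)]

theorem norm_of_cell {v u : Fin m → ℝ} (h : cell v = u) : ‖v - u‖ ≤ 1 := h ▸ norm_sub_cell v

theorem exists_cells' (z : Fin m → ℝ) {ρ : ℝ} (hρ : 0 ≤ ρ) : ∃ A : Finset (Fin m → ℝ),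
    (A.card : ℝ) ≤ (2 * ρ + 3) ^ m ∧ ∀ v, ‖v - z‖ ≤ ρ → cell v ∈ A := by
  classical
  refine ⟨(Fintype.piFinset fun l => near (z l) (ρ + 1)).image fun k l => (k l : ℝ), ?_,
    fun v hv => mem_image.2 ⟨fun l => ⌊v l⌋, Fintype.mem_piFinset.2 fun l => mem_near ?_, rfl⟩⟩
  · refine (Nat.cast_le.2 card_image_le).trans ?_
    rw [Fintype.card_piFinset]
    push_cast
    refine (prod_le_prod (g := fun _ => 2 * ρ + 3) (fun _ _ => Nat.cast_nonneg _)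
      fun l _ => (card_near _ (by linarith)).trans (by linarith)).trans ?_
    simp
  · have h1 := (norm_le_pi_norm (v - z) l).trans hv
    rw [Pi.sub_apply, Real.norm_eq_abs, abs_le] at h1
    rw [abs_le]
    constructor <;> linarith [Int.floor_le (v l), Int.lt_floor_add_one (v l), h1.1, h1.2]

theorem e1 : (2.7 : ℝ) ≤ exp 1 := le_of_lt (lt_trans (by norm_num) exp_one_gt_d9)

theorem e2 : (7 : ℝ) ≤ exp 2 := by
  have : exp 2 = exp 1 * exp 1 := by rw [← exp_add]; norm_num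
  nlinarith [e1]

theorem exists_cells (z : Fin m → ℝ) {x : ℝ} (hx : 0 ≤ x) : ∃ A : Finset (Fin m → ℝ),
    (A.card : ℝ) ≤ exp (m * (x + 2)) ∧ ∀ v, ‖v - z‖ ≤ 2 * exp x → cell v ∈ A := by
  obtain ⟨A, h1, h2⟩ := exists_cells' z (ρ := 2 * exp x) (by positivity)
  refine ⟨A, h1.trans ?_, h2⟩
  rw [exp_nat_mul, exp_add]
  have := one_le_exp hx
  exact pow_le_pow_left₀ (by positivity) (by nlinarith [e2]) m

/-- Concentration in larger balls. -/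
theorem conc1 {μ : Ω → ℝ} (hμ : ∀ ω, 0 ≤ μ ω) {E : Ω → Prop} {d : Ω → Fin m → ℝ} {w : ℝ}
    (h : ∀ z, ms μ (fun ω => E ω ∧ ‖d ω - z‖ ≤ 1) ≤ exp w) {x : ℝ} (hx : 0 ≤ x)
    (z : Fin m → ℝ) : ms μ (fun ω => E ω ∧ ‖d ω - z‖ ≤ 2 * exp x) ≤ exp (m * (x + 2) + w) := by
  obtain ⟨A, h1, h2⟩ := exists_cells z hx
  rw [exp_add]
  exact ms_cover_le hμ A (fun u ω => E ω ∧ ‖d ω - u‖ ≤ 1)
    (fun ω _ h3 => ⟨_, h2 _ h3.2, h3.1, norm_sub_cell _⟩) (fun u _ => h u) (exp_pos w).le h1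

theorem conc0 {μ : Ω → ℝ} (hμ : ∀ ω, 0 ≤ μ ω) {d : Ω → Fin m → ℝ} {w : ℝ}
    (h : ∀ z, ms μ (fun ω => ‖d ω - z‖ ≤ 1) ≤ exp w) {x : ℝ} (hx : 0 ≤ x)
    (z : Fin m → ℝ) : ms μ (fun ω => ‖d ω - z‖ ≤ 2 * exp x) ≤ exp (m * (x + 2) + w) := by
  have := conc1 hμ (E := fun _ => True) (d := d) (w := w) (by simpa using h) hx z
  simpa using this

theorem conc2 {μ : Ω → ℝ} (hμ : ∀ ω, 0 ≤ μ ω) {y d : Ω → Fin m → ℝ} {w : ℝ}
    (h : ∀ z z', ms μ (fun ω => ‖y ω - z‖ ≤ 1 ∧ ‖d ω - z'‖ ≤ 1) ≤ exp w) {x : ℝ} (hx : 0 ≤ x)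
    (z z' : Fin m → ℝ) :
    ms μ (fun ω => ‖y ω - z‖ ≤ 2 * exp x ∧ ‖d ω - z'‖ ≤ 2 * exp x) ≤
      exp (2 * (m * (x + 2)) + w) := by
  have h1 : ∀ u, ms μ (fun ω => ‖d ω - z'‖ ≤ 2 * exp x ∧ ‖y ω - u‖ ≤ 1) ≤
      exp (m * (x + 2) + w) := fun u =>
    (ms_mono hμ fun _ _ h => h.symm).trans (conc1 hμ (h u) hx z')
  refine (ms_mono hμ fun _ _ h => h.symm).trans ((conc1 hμ h1 hx z).trans (le_of_eq ?_))
  congr 1
  ring

theorem card_window (A : Finset ℤ) {κ : ℝ} (hκ : 0 ≤ κ)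
    (h : ∀ k ∈ A, ∀ k' ∈ A, |(k : ℝ) - k'| ≤ κ) : (A.card : ℝ) ≤ 2 * κ + 1 := by
  rcases A.eq_empty_or_nonempty with rfl | ⟨k0, h0⟩
  · simp only [card_empty, Nat.cast_zero]
    linarith
  · exact (Nat.cast_le.2 (card_le_card fun k hk => mem_near (h k hk k0 h0))).trans
      (card_near _ hκ)

/-- A classical filter. -/
noncomputable def fl {α : Type} (s : Finset α) (p : α → Prop) : Finset α :=
  @Finset.filter _ p (Classical.decPred p) s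

theorem mem_fl {α : Type} {s : Finset α} {p : α → Prop} {a : α} : a ∈ fl s p ↔ a ∈ s ∧ p a :=
  @mem_filter _ p (Classical.decPred p) s a

theorem fl_subset {α : Type} (s : Finset α) (p : α → Prop) : fl s p ⊆ s :=
  fun _ h => (mem_fl.1 h).1

theorem card_fl_le {α : Type} (s : Finset α) (p : α → Prop) : ((fl s p).card : ℝ) ≤ s.card :=
  Nat.cast_le.2 (card_le_card (fl_subset s p))

theorem card_fl_add {α : Type} (s : Finset α) (p : α → Prop) :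
    (s.card : ℝ) = (fl s p).card + (fl s fun a => ¬ p a).card := by
  classical
  rw [← card_filter_add_card_filter_not (s := s) p, Nat.cast_add]
  congr 3 <;> ext a <;> simp [mem_fl]

theorem card_fl_eq {α : Type} (s : Finset α) (p : α → Prop) :
    ((fl s p).card : ℝ) = ∑ a ∈ s, ind (p a) := by
  rw [fl, card_filter]
  push_cast
  rfl

theorem sum_card_fl {α : Type} (μ : Ω → ℝ) (R : Finset α) (E : α → Ω → Prop) :
    ∑ ω, μ ω * (fl R fun r => E r ω).card = ∑ r ∈ R, ms μ (E r) := by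
  simp only [ms, card_fl_eq, mul_sum]
  rw [sum_comm]
  exact sum_congr rfl fun _ _ => sum_congr rfl fun _ _ => mul_comm _ _

theorem card_close (K : ℕ) (z ρ : ℝ) (hρ : 1 ≤ ρ) :
    ((fl (range K) fun j : ℕ => ¬ ρ ≤ |(j : ℝ) - z|).card : ℝ) ≤ 3 * ρ := by
  refine le_trans ?_ ((card_near z (by linarith : 0 ≤ ρ)).trans (by linarith))
  refine Nat.cast_le.2 (card_le_card_of_injOn (fun i : ℕ => (i : ℤ)) (fun i hi => ?_)
    fun i _ j _ h => Nat.cast_injective (R := ℤ) h)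
  exact mem_coe.2 (mem_near (by exact_mod_cast (not_le.1 (mem_fl.1 (mem_coe.1 hi)).2).le))

/-- Counting pairs by the first coordinate and a label. -/
theorem count_le {α γ δ : Type} (B : Finset (α × γ)) (φ : α × γ → δ) (I : Finset δ) (R : Finset α)
    {M : ℝ} (hI : ∀ b ∈ B, φ b ∈ I ∧ b.1 ∈ R)
    (hM : ∀ j t, ((fl B fun b => b.1 = j ∧ φ b = t).card : ℝ) ≤ M) :
    (B.card : ℝ) ≤ M * ∑ t ∈ I, ((fl R fun j => ∃ k, (j, k) ∈ B ∧ φ (j, k) = t).card : ℝ) := by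
  classical
  have h1 : B.card = ∑ t ∈ I, ∑ j ∈ R, (fl B fun b => b.1 = j ∧ φ b = t).card := by
    rw [← sum_product', card_eq_sum_card_fiberwise (f := fun b => (φ b, b.1)) (t := I ×ˢ R)
      fun b hb => mem_coe.2 (mem_product.2 (hI b (mem_coe.1 hb)))]
    refine sum_congr rfl fun z _ => ?_
    congr 1
    ext b
    simp only [mem_filter, mem_fl, Prod.ext_iff, and_comm]
  rw [h1, mul_sum]
  push_cast
  refine sum_le_sum fun t _ => ?_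
  rw [card_fl_eq, mul_sum]
  refine sum_le_sum fun j _ => ?_
  by_cases h : ∃ k, (j, k) ∈ B ∧ φ (j, k) = t
  · rw [ind_pos h, mul_one]
    exact hM j t
  · have h2 : (fl B fun b => b.1 = j ∧ φ b = t) = ∅ := eq_empty_of_forall_notMem fun b hb => by
      obtain ⟨h3, rfl, h4⟩ := mem_fl.1 hb
      exact h ⟨b.2, h3, h4⟩
    rw [ind_neg h, mul_zero, h2]
    simp

theorem ind_split {E F G : Prop} {a b N s : ℝ} (ha : 0 ≤ a) (hab : a ≤ b) (hs : 0 ≤ s)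
    (hN : s ≤ N) : a * (ind (E ∧ F) * s) ≤ ind (F ∧ ¬ G) * a * s + N * (ind (E ∧ G) * b) := by
  have h1 : 0 ≤ N * (ind (E ∧ G) * b) :=
    mul_nonneg (hs.trans hN) (mul_nonneg (ind_nonneg _) (ha.trans hab))
  have h2 : 0 ≤ ind (F ∧ ¬ G) * a * s := mul_nonneg (mul_nonneg (ind_nonneg _) ha) hs
  by_cases h : E ∧ F
  · by_cases hG : G
    · rw [ind_pos h, ind_pos (And.intro h.1 hG)]
      nlinarith [mul_le_mul hab hN hs (ha.trans hab)]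
    · rw [ind_pos h, ind_pos (And.intro h.2 hG)]
      linarith
  · rw [ind_neg h]
    linarith

/-- Averaging over parameters. -/
theorem avg_le {V1 V2 b : Ω → ℝ} (h1 : ∀ v, 0 ≤ V1 v) (h12 : ∀ v, V1 v ≤ V2 v) (P : Finset ι)
    (E F G : ι → Ω → Prop) (s : ι → Ω → ℝ) {c e M N U T Q : ℝ} (hc : 0 ≤ c) (he : 0 ≤ e)
    (hM : 0 ≤ M) (hU0 : 0 ≤ U) (hs : ∀ q v, 0 ≤ s q v) (hN : ∀ q v, s q v ≤ N)
    (hT : ∑ v, V1 v ≤ T) (hQ : (P.card : ℝ) ≤ Q)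
    (hb : ∀ v, V1 v ≠ 0 → c * (b v - e) ≤ M * ∑ q ∈ P, ind (E q v ∧ F q v) * s q v)
    (hU : ∀ q ∈ P, ∑ v, ind (F q v ∧ ¬ G q v) * V1 v * s q v ≤ U) :
    c * (∑ v, V1 v * b v - e * T) ≤
      M * (Q * U + N * ∑ q ∈ P, ms V2 fun v => E q v ∧ G q v) := by
  have a1 : ∑ v, V1 v * (c * (b v - e)) ≤
      ∑ v, V1 v * (M * ∑ q ∈ P, ind (E q v ∧ F q v) * s q v) := sum_le_sum fun v _ => by
    by_cases hv : V1 v = 0
    · rw [hv, zero_mul, zero_mul]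
    · exact mul_le_mul_of_nonneg_left (hb v hv) (h1 v)
  have a2 : ∑ v, V1 v * (c * (b v - e)) = c * (∑ v, V1 v * b v - e * ∑ v, V1 v) := by
    rw [mul_sum, ← sum_sub_distrib, mul_sum]
    exact sum_congr rfl fun _ _ => by ring
  have a3 : ∑ v, V1 v * (M * ∑ q ∈ P, ind (E q v ∧ F q v) * s q v) =
      M * ∑ q ∈ P, ∑ v, V1 v * (ind (E q v ∧ F q v) * s q v) := by
    rw [sum_comm, mul_sum]
    refine sum_congr rfl fun v _ => ?_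
    rw [← mul_sum]
    ring
  have a4 : ∑ q ∈ P, ∑ v, V1 v * (ind (E q v ∧ F q v) * s q v) ≤
      ∑ q ∈ P, (U + N * ms V2 fun v => E q v ∧ G q v) := sum_le_sum fun q hq => by
    refine (sum_le_sum fun v _ => ind_split (G := G q v) (h1 v) (h12 v) (hs q v) (hN q v)).trans ?_
    rw [sum_add_distrib, ← mul_sum]
    exact add_le_add (hU q hq) le_rfl
  rw [sum_add_distrib, sum_const, nsmul_eq_mul, ← mul_sum] at a4
  rw [a2, a3] at a1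
  refine le_trans (mul_le_mul_of_nonneg_left (sub_le_sub_left
    (mul_le_mul_of_nonneg_left hT he) _) hc) (a1.trans (mul_le_mul_of_nonneg_left (a4.trans ?_) hM))
  exact add_le_add_left (mul_le_mul_of_nonneg_right hQ hU0) _

theorem two_le_exp {x z : ℝ} (h : x + 1 ≤ z) : 2 * exp x ≤ exp z := by
  refine le_trans ?_ (exp_le_exp.2 h)
  rw [exp_add]
  nlinarith [e1, exp_pos x]

theorem c2_le_exp {x z : ℝ} (h : x + 2 ≤ z) : 7 * exp x ≤ exp z := by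
  refine le_trans ?_ (exp_le_exp.2 h)
  rw [exp_add]
  nlinarith [e2, exp_pos x]

theorem c3_le_exp {x z : ℝ} (h : x + 3 ≤ z) : 18 * exp x ≤ exp z := by
  refine le_trans ?_ (exp_le_exp.2 (by linarith : x + 2 + 1 ≤ z))
  rw [exp_add (x + 2)]
  nlinarith [c2_le_exp (le_refl (x + 2)), exp_pos x, e1]

theorem c4_le_exp {x z : ℝ} (h : x + 4 ≤ z) : 49 * exp x ≤ exp z := by
  linarith [c2_le_exp (le_refl (x + 2)), c2_le_exp (by linarith : x + 2 + 2 ≤ z)]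

theorem c6_le_exp {x z : ℝ} (h : x + 6 ≤ z) : 343 * exp x ≤ exp z := by
  linarith [c4_le_exp (le_refl (x + 4)), c2_le_exp (by linarith : x + 4 + 2 ≤ z)]

end Pool.Agent.Work.MP_72ad00_an.H
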