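import Pool.Agent.Work.MP_72ad00_an.H.Bas

/-!
The corner step: light pairs give light plane points.
-/

set_option autoImplicit false

open Finset Real

namespace Pool.Agent.Work.MP_72ad00_an.H

open Pool.Agent.Lib.PFR

section

variable {Ω ι ι' : Type} [Fintype Ω]

theorem ms3_le {μ : Ω → ℝ} (hμ : ∀ ω, 0 ≤ μ ω) {ν : Ω × Ω × Ω → ℝ} {C X Y W : ℝ} (hC : 0 ≤ C)
    {E : Ω × Ω × Ω → Prop} {F : Ω → Prop} {G : Ω → Ω → Prop} {H : Ω → Ω → Ω → Prop}
    (h : ∀ a b c, ν (a, b, c) ≠ 0 → E (a, b, c) →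
      (F c ∧ G c a ∧ H c a b) ∧ ν (a, b, c) ≤ C * (μ c * μ a) * μ b)
    (hX : ms μ F ≤ X) (hY : ∀ c, ms μ (G c) ≤ Y) (hW : ∀ c a, ms μ (H c a) ≤ W) (hY0 : 0 ≤ Y)
    (hW0 : 0 ≤ W) : ms ν E ≤ C * (X * Y) * W := by
  have e : ms ν E = ms (fun v : (Ω × Ω) × Ω => ν (v.1.2, v.2, v.1.1))
      fun v => E (v.1.2, v.2, v.1.1) :=
    Fintype.sum_equiv ⟨fun v => ((v.2.2, v.1), v.2.1), fun v => (v.1.2, v.2, v.1.1),
      fun _ => rfl, fun _ => rfl⟩ _ _ fun _ => rfl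
  rw [e]
  refine ms2_le (μ := fun v : Ω × Ω => μ v.1 * μ v.2) (fun _ => mul_nonneg (hμ _) (hμ _)) hμ hC
    (F := fun v => F v.1 ∧ G v.1 v.2) (G := fun v => H v.1 v.2)
    (fun v b h1 h2 => ⟨and_assoc.2 (h _ _ _ h1 h2).1, (h _ _ _ h1 h2).2⟩) ?_ (fun _ => hW _ _) hW0
  refine (ms2_le hμ hμ zero_le_one (fun a b _ h2 => ⟨h2, by rw [one_mul]⟩) hX hY hY0).trans ?_
  rw [one_mul]

/-- The weight of a corner. -/
noncomputable def tw (μ : Ω → ℝ) (E : Ω → Prop) (c : Ω → ι) (θ : ℝ) (E' : Ω → Prop) (c' : Ω → ι')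
    (θ' : ℝ) (v : Ω × Ω × Ω) : ℝ := μ v.1 * kr μ E c θ v.1 v.2.1 * gv μ E' c' θ' v.2

variable {μ : Ω → ℝ} {E E' : Ω → Prop} {c : Ω → ι} {c' : Ω → ι'} {θ θ' : ℝ}

theorem tw_nonneg (hμ : ∀ ω, 0 ≤ μ ω) (hθ : 0 < θ) (hθ' : 0 < θ') (v : Ω × Ω × Ω) :
    0 ≤ tw μ E c θ E' c' θ' v :=
  mul_nonneg (mul_nonneg (hμ _) (kr_nonneg hθ _ _)) (gv_nonneg hμ hθ' _)

theorem tw_le (hμ : ∀ ω, 0 ≤ μ ω) (hθ : 0 < θ) (hθ' : 0 < θ') (a : Ω) (b : Ω × Ω) :
    tw μ E c θ E' c' θ' (a, b) ≤ θ⁻¹ * μ a * gv μ E' c' θ' b := by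
  rw [tw, mul_comm θ⁻¹]
  exact mul_le_mul_of_nonneg_right (mul_le_mul_of_nonneg_left (kr_le hθ _ _) (hμ _))
    (gv_nonneg hμ hθ' _)

theorem tw_ne {v : Ω × Ω × Ω} (h : tw μ E c θ E' c' θ' v ≠ 0) :
    μ v.1 ≠ 0 ∧ (E v.1 ∧ E v.2.1 ∧ c v.2.1 = c v.1) ∧ gv μ E' c' θ' v.2 ≠ 0 :=
  ⟨left_ne_zero_of_mul (left_ne_zero_of_mul h), kr_ne (right_ne_zero_of_mul
    (left_ne_zero_of_mul h)), right_ne_zero_of_mul h⟩

theorem tw_snd (hμ : ∀ ω, 0 ≤ μ ω) (hθ : 0 < θ) (hθ' : 0 < θ') (F : Ω × Ω → Prop) :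
    ms (tw μ E c θ E' c' θ') (fun v => F v.2) ≤ ms (gv μ E' c' θ') F := by
  rw [ms, Fintype.sum_prod_type_right]
  refine sum_le_sum fun b _ => ?_
  simp only [tw, ← mul_sum, ← sum_mul, kr_symm _ b.1]
  exact mul_le_mul_of_nonneg_left (mul_le_of_le_one_left (gv_nonneg hμ hθ' b)
    (kr_sum_le hμ hθ b.1)) (ind_nonneg _)

theorem tw_sum_le (hμ : ∀ ω, 0 ≤ μ ω) (hθ : 0 < θ) (hθ' : 0 < θ') :
    ∑ v, tw μ E c θ E' c' θ' v ≤ ∑ ω, μ ω := by
  refine le_trans ?_ (gv_sum_le (E := E') (c := c') hμ hθ')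
  rw [← ms_true, ← ms_true]
  exact tw_snd hμ hθ hθ' fun _ => True

theorem tw_ge (hμ : ∀ ω, 0 ≤ μ ω) (hθ : 0 < θ) (hθ' : 0 < θ') (Z : Finset ι') {N M : ℝ}
    (hN : (Z.card : ℝ) ≤ N) (hZ : ∀ ω, μ ω ≠ 0 → E' ω → c' ω ∈ Z) (f : Ω × Ω → ℝ)
    (h0 : ∀ v, 0 ≤ f v) (hM0 : 0 ≤ M) (hM : ∀ v, f v ≤ M) (hf : ∀ v, f v ≠ 0 → E' v.2) :
    ∑ v, gv μ E c θ v * f v ≤ ∑ v, tw μ E c θ E' c' θ' v * f (v.1, v.2.1) + M * (N * θ') := by
  refine le_trans ?_ (add_le_add_right (mul_le_mul_of_nonneg_left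
    ((gv_snd (E := E) (c := c) hμ hθ _).trans (thin_le hμ hθ' Z hN hZ)) hM0) _)
  have e : ∑ v, tw μ E c θ E' c' θ' v * f (v.1, v.2.1) =
      ∑ v, gv μ E c θ v * f v * ∑ b, μ b * kr μ E' c' θ' v.2 b := by
    simp only [Fintype.sum_prod_type, mul_sum, tw, gv]
    exact sum_congr rfl fun _ _ => sum_congr rfl fun _ _ => sum_congr rfl fun _ _ => by ring
  rw [e, ms, mul_sum, ← sum_add_distrib]
  refine sum_le_sum fun v _ => ?_
  have h1 := gv_nonneg (E := E) (c := c) hμ hθ v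
  have h2 : 0 ≤ gv μ E c θ v * f v * ∑ b, μ b * kr μ E' c' θ' v.2 b :=
    mul_nonneg (mul_nonneg h1 (h0 v)) (sum_nonneg fun b _ => mul_nonneg (hμ b) (kr_nonneg hθ' _ _))
  have h3 := mul_nonneg hM0 (mul_nonneg
    (ind_nonneg (E' v.2 ∧ (ms μ fun ω => E' ω ∧ c' ω = c' v.2) < θ')) h1)
  by_cases h4 : f v = 0
  · rw [h4, mul_zero, zero_mul]
    linarith
  by_cases h5 : θ' ≤ ms μ fun ω => E' ω ∧ c' ω = c' v.2
  · rw [kr_sum_eq hθ' (hf v h4) h5]
    linarith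
  · rw [ind_pos ⟨hf v h4, not_le.1 h5⟩]
    linarith [mul_le_mul_of_nonneg_left (hM v) h1]

end

theorem card_floor (A : Finset ℤ) {ρ η : ℝ} (hη : 0 ≤ η) (h : exp (- η) ≤ |ρ|) (k0 : ℤ) :
    ((fl A fun k : ℤ => ⌊(k : ℝ) * ρ⌋ = k0).card : ℝ) ≤ exp (η + 2) := by
  refine (card_window _ (exp_pos η).le fun a ha b hb => ?_).trans ?_
  · have h1 := Int.abs_sub_lt_one_of_floor_eq_floor ((mem_fl.1 ha).2.trans (mem_fl.1 hb).2.symm)
    rw [← sub_mul, abs_mul] at h1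
    have h2 := mul_le_mul_of_nonneg_left h (abs_nonneg ((a : ℝ) - b))
    rw [exp_neg, ← div_eq_mul_inv] at h2
    exact (div_le_one (exp_pos η)).1 (h2.trans h1.le)
  · linarith [c2_le_exp (le_refl (η + 2)), one_le_exp hη]

theorem ratio_le {K x u a : ℝ} (hK : 0 < K) (h1 : |u| ≤ K) (h2 : K * exp (- x) ≤ |a|) :
    |u / a| ≤ exp x := by
  rw [abs_div, div_le_iff₀ ((by positivity : 0 < K * exp (- x)).trans_le h2)]
  refine h1.trans (le_trans (le_of_eq ?_) (mul_le_mul_of_nonneg_left h2 (exp_pos x).le))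
  rw [mul_left_comm, ← exp_add, add_neg_cancel, exp_zero, mul_one]

theorem le_ratio {K x u a : ℝ} (h1 : K * exp (- x) ≤ |u|) (h2 : |a| ≤ K) (h3 : a ≠ 0) :
    exp (- x) ≤ |u / a| := by
  rw [abs_div, le_div_iff₀ (abs_pos.2 h3), mul_comm]
  exact (mul_le_mul_of_nonneg_right h2 (exp_pos _).le).trans h1

variable {m : ℕ} {Ω : Type} [Fintype Ω] {ℓ : ℝ} {K : ℕ} {μ : Ω → ℝ} {y d : Ω → Fin m → ℝ}
  {S : Ω → Finset ℕ} {w1 w2 : ℝ} {Z : ℕ → Finset (Fin m → ℝ)} {c : ℕ → Ω → Fin m → ℝ} {n t : ℝ}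

/-- Separation from two slopes. -/
def Sq (K : ℕ) (x : ℝ) (i j0 j : ℕ) : Prop :=
  K * exp (- x) ≤ |(j : ℝ) - i| ∧ K * exp (- x) ≤ |(j : ℝ) - j0|

/-- The discretised parameter of the corner. -/
noncomputable def pq (i j0 : ℕ) (z : ℕ × ℤ) : ℤ := ⌊(z.2 : ℝ) * (((z.1 : ℝ) - j0) / (z.1 - i))⌋

theorem card_wq {x : ℝ} (hK : (0 : ℝ) < K) (hx : 0 ≤ x) {i j : ℕ} (hi : i < K) (hj : j < K)
    (j0 : ℕ) (A : Finset ℤ) (k0 : ℤ) :
    ((fl A fun k => Sq K x i j0 j ∧ pq i j0 (j, k) = k0).card : ℝ) ≤ exp (x + 2) := by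
  by_cases h : Sq K x i j0 j
  · refine le_trans (Nat.cast_le.2 (card_le_card fun k hk => ?_)) (card_floor A hx
      (le_ratio h.2 (abs_sub_le_of_lt hj hi)
        (abs_pos.1 ((by positivity : 0 < K * exp (- x)).trans_le h.1))) k0)
    exact mem_fl.2 ⟨(mem_fl.1 hk).1, (mem_fl.1 hk).2.2⟩
  · have : (fl A fun k => Sq K x i j0 j ∧ pq i j0 (j, k) = k0) = ∅ :=
      eq_empty_of_forall_notMem fun _ hk => h (mem_fl.1 hk).2.1
    rw [this, card_empty, Nat.cast_zero]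
    exact (exp_pos _).le

/-- The heavy parameters of a pair of lines. -/
noncomputable def hk (K : ℕ) (μ : Ω → ℝ) (y d : Ω → Fin m → ℝ) (S : Ω → Finset ℕ)
    (c : ℕ → Ω → Fin m → ℝ) (θ x g : ℝ) (r i : ℕ) (v : Ω × Ω) : Finset ℤ :=
  fl (rg K x) fun k => i ∈ S v.2 ∧ Hv (vr μ S c θ r) (fun v => cell (nu K y d r i k v)) g v

theorem corner_one {β p : ℝ} (h : RKp m β p) (h0 : 1 / 2 ≤ β) (h1 : β ≤ 1)
    (hU : US ℓ K μ y d S w1 w2 Z c n t) {x : ℝ} (hx : ℓ ≤ x) (hK : exp (p * (24 * x)) ≤ K)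
    {g g' : ℝ} (hg : (24 * p + 80 + 280 * m) * x + (1 - β) * g + w1 + 2 * β * w2 + 3 * n -
      (1 + β) * t ≤ g') {r i j0 : ℕ} (hr : r < K) (hi : i < K) (hj0 : j0 < K)
    (hs : K * exp (- (3 * x)) ≤ |(i : ℝ) - r|) {k0 : ℤ} (hk0 : k0 ∈ rg K (5 * x)) :
    ∑ v : Ω × Ω × Ω, ind (j0 ∈ S v.2.2 ∧
        ¬ Hv (vr μ S c (exp (t - n - 24 * x)) i) (pl K y d r j0) g v.2) *
        tw μ (fun ω => r ∈ S ω) (c r) (exp (t - n - x)) (fun ω => i ∈ S ω) (c i)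
          (exp (t - n - 24 * x)) v * ((fl (range K) fun j => ∃ k,
          (j, k) ∈ fl (S v.2.2) (Sq K (3 * x) i j0) ×ˢ
            hk K μ y d S c (exp (t - n - x)) x g' r i (v.1, v.2.1) ∧
          pq i j0 (j, k) = k0).card : ℝ) ≤ K * (2 * exp (t - 24 * x)) := by
  classical
  have hl := hU.ls.l1
  have hμ := hU.ls.pos
  have hK0 : (0 : ℝ) < K := (exp_pos _).trans_le hK
  set V1 := vr μ S c (exp (t - n - x)) r with hV1
  set V2 := vr μ S c (exp (t - n - 24 * x)) i with hV2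
  set C := tw μ (fun ω => r ∈ S ω) (c r) (exp (t - n - x)) (fun ω => i ∈ S ω) (c i)
    (exp (t - n - 24 * x)) with hC
  have hV10 : ∀ v, 0 ≤ V1 v := gv_nonneg hμ (exp_pos _)
  have hV20 : ∀ v, 0 ≤ V2 v := gv_nonneg hμ (exp_pos _)
  have hC0 : ∀ v, 0 ≤ C v := tw_nonneg hμ (exp_pos _) (exp_pos _)
  have hVt : ∑ v, V1 v ≤ exp t := (gv_sum_le hμ (exp_pos _)).trans hU.tot.le
  have hCt : ∑ v, C v ≤ exp t := (tw_sum_le hμ (exp_pos _) (exp_pos _)).trans hU.tot.le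
  obtain ⟨ν, hν⟩ : ∃ ν : Ω × Ω × Ω → ℝ, ∀ v, ν v = ind (j0 ∈ S v.2.2 ∧
    ¬ Hv V2 (pl K y d r j0) g v.2) * C v := ⟨_, fun _ => rfl⟩
  simp only [← hν]
  have hν0 : ∀ v, 0 ≤ ν v := fun v => hν v ▸ mul_nonneg (ind_nonneg _) (hC0 v)
  have hν1 : ∀ v, ν v ≤ C v := fun v => hν v ▸ mul_le_of_le_one_left (hC0 v) (ind_le_one _)
  have hν2 : ∀ v, ν v ≠ 0 → C v ≠ 0 ∧ j0 ∈ S v.2.2 ∧ ¬ Hv V2 (pl K y d r j0) g v.2 :=
    fun v hv => ⟨right_ne_zero_of_mul (hν v ▸ hv),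
      by_contra fun h2 => hv (by rw [hν, ind_neg h2, zero_mul])⟩
  have hν3 : ∀ a b, ν (a, b) ≤ exp (x + n - t) * μ a * V2 b := fun a b => by
    refine (hν1 _).trans ((tw_le hμ (exp_pos _) (exp_pos _) a b).trans (le_of_eq ?_))
    rw [← exp_neg]
    congr 3
    ring
  have hν4 : ∀ a b e, ν (a, b, e) ≤ exp (25 * x + 2 * (n - t)) * (μ e * μ a) * μ b := by
    intro a b e
    refine (hν3 _ _).trans ((mul_le_mul_of_nonneg_left (gv_le hμ (exp_pos _) b e)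
      (mul_nonneg (exp_pos _).le (hμ a))).trans (le_of_eq ?_))
    rw [← exp_neg, show 25 * x + 2 * (n - t) = x + n - t + - (t - n - 24 * x) by ring, exp_add]
    ring
  have hcl : ∀ v, ν v ≠ 0 → μ v.2.2 ≠ 0 ∧ ‖pt K y d r v.2.1 - pt K y d r v.1‖ ≤ 2 * exp ℓ ∧
      ‖pt K y d i v.2.2 - pt K y d i v.2.1‖ ≤ 2 * exp ℓ := fun v hv => by
    obtain ⟨a1, a2, a3⟩ := tw_ne (hν2 v hv).1
    obtain ⟨a4, a5, a6⟩ := gv_ne a3
    exact ⟨a5, hU.close a1 a4 a2, hU.close a4 a5 a6⟩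
  choose A hA1 hA2 using fun k => exists_heavy hV10 (fun v => cell (nu K y d r i k v))
    (g := g') hVt
  have hdn : ∀ ω, ‖d ω‖ ≤ exp (24 * x) * K := fun ω => (hU.ls.dn ω).trans
    (mul_le_mul_of_nonneg_right (exp_le_exp.2 (by linarith)) hK0.le)
  have s1 := sep_div hK0 (mem_rg.1 hk0).2
  have s0 : (k0 : ℝ) / K ≠ 0 := abs_pos.1 ((exp_pos _).trans_le s1)
  have hH : ∀ e a, ms μ (fun b => ‖pt K y d r b - pt K y d r a‖ ≤ exp (2 * x) ∧
      ‖pt K y d i b - pt K y d i e‖ ≤ exp (2 * x)) ≤ exp (2 * (m * (2 * x + 3 * x + 1 + 2)) + w1) :=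
    fun e a => pt2_le hμ hU.ls.c1 hr (by linarith) (by linarith) (sep_div hK0 hs) _ _
  have hH' : ∀ a b e, ν (a, b, e) ≠ 0 → ‖pt K y d r b - pt K y d r a‖ ≤ exp (2 * x) ∧
      ‖pt K y d i b - pt K y d i e‖ ≤ exp (2 * x) := fun a b e hv =>
    ⟨(hcl _ hv).2.1.trans (two_le_exp (by linarith)),
      (norm_sub_rev _ _).le.trans ((hcl _ hv).2.2.trans (two_le_exp (by linarith)))⟩
  have key := h.two h1 (ℓ := 24 * x) (ν := ν) (y := fun v => y v.2.2) (d := fun v => d v.2.2)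
    (e := fun v => d v.1) (r0 := i) (σ := (k0 : ℝ) / K) (τ := ((j0 : ℝ) - i) / K)
    (S := fun v => fl (range K) fun j => ∃ k, (j, k) ∈ fl (S v.2.2) (Sq K (3 * x) i j0) ×ˢ
      hk K μ y d S c (exp (t - n - x)) x g' r i (v.1, v.2.1) ∧ pq i j0 (j, k) = k0)
    (fun j => Z j ×ˢ (fl (rg K x) fun k => Sq K (3 * x) i j0 j ∧ pq i j0 (j, k) = k0).biUnion A)
    (n := n + (3 * x + 2 + (t - g')))
    (w0 := n + (x + n - t + (m * (6 * x + 2) + w2) + (m * (x + 2) + m * (x + 2) + g)))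
    (w2 := 25 * x + 2 * (n - t) + (w2 + (m * (29 * x + 2) + w2)) +
      (2 * (m * (2 * x + 3 * x + 1 + 2)) + w1))
    (w1 := 25 * x + 2 * (n - t) + (w1 + (m * (72 * x + 2) + w2)) +
      (2 * (m * (2 * x + 3 * x + 1 + 2)) + w1)) (by linarith) hK hν0
    (fun v => hdn _) (fun v => hdn _) (fun v => fl_subset _ _) hi.le
    (div_le_exp hK0 ((abs_sub_le_of_lt hj0 hi).trans
      (le_mul_of_one_le_right hK0.le (one_le_exp (by linarith)))))
    ((exp_le_exp.2 (by linarith)).trans s1) ?_ ?_ ?_ ?_ ?_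
  · refine key.trans (mul_le_mul_of_nonneg_left ?_ hK0.le)
    rw [two_mul (exp _)]
    refine add_le_add ?_ (exp_le_exp.2 ?_)
    · refine (mul_le_mul_of_nonneg_left ((sum_le_sum fun v _ => hν1 v).trans hCt)
        (exp_pos _).le).trans (exp_mul_le (by linarith))
    · have m0 := Nat.cast_nonneg (α := ℝ) m
      have f0 : 10 * (m : ℝ) ≤ m * x := by nlinarith
      have f1 := mul_le_mul_of_nonneg_right (by linarith : 1 - β ≤ 1)
        (by linarith : 0 ≤ 26 * x + 90 * (m * x) + 14 * m)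
      have f2 := mul_le_mul_of_nonneg_right (by linarith : 2 * β - 1 ≤ 1)
        (by linarith : 0 ≤ 25 * x + 39 * (m * x) + 8 * m)
      linarith
  · intro v hv j hj
    obtain ⟨hj1, k, hj2, hj3⟩ := mem_fl.1 hj
    obtain ⟨hj4, hj5⟩ := mem_product.1 hj2
    obtain ⟨hj6, hj7⟩ := mem_fl.1 hj4
    obtain ⟨hj8, -, hj9⟩ := mem_fl.1 hj5
    obtain ⟨c1, c2, c3⟩ := hcl v hv
    obtain ⟨c4, c5⟩ := hU.cov _ c1 j hj6
    refine ⟨(exp_le_exp.2 (by linarith)).trans (sep_div hK0 hj7.1), (k : ℝ) / K, ?_,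
      (c j v.2.2, cell (nu K y d r i k (v.1, v.2.1))), mem_product.2 ⟨c4,
        mem_biUnion.2 ⟨k, mem_fl.2 ⟨hj8, hj7, hj3⟩, hA2 k _ hj9⟩⟩,
      c5.trans (exp_le_exp.2 (by linarith)), ?_⟩
    · have u0 : (j : ℝ) - i ≠ 0 :=
        abs_pos.1 ((by positivity : 0 < K * exp (- (3 * x))).trans_le hj7.1)
      have e0 : |(k0 : ℝ) / K - (1 - ((j0 : ℝ) - i) / K / (((j : ℝ) - i) / K)) * (k / K)| * K =
          |(k0 : ℝ) - k * (((j : ℝ) - j0) / (j - i))| := by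
        rw [← abs_of_pos hK0, ← abs_mul, abs_of_pos hK0]
        congr 1
        field_simp
        ring
      rw [e0, ← hj3, pq, abs_le]
      constructor <;> linarith [Int.floor_le ((k : ℝ) * (((j : ℝ) - j0) / (j - i))),
        Int.lt_floor_add_one ((k : ℝ) * (((j : ℝ) - j0) / (j - i))),
        one_le_exp (by linarith : 0 ≤ 24 * x)]
    · have e0 : pt K (fun v : Ω × Ω × Ω => y v.2.2) (fun v => d v.2.2) i v + ((k : ℝ) / K) • d v.1 -
          cell (nu K y d r i k (v.1, v.2.1)) =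
          (nu K y d r i k (v.1, v.2.1) - cell (nu K y d r i k (v.1, v.2.1))) +
            (pt K y d r v.2.1 - pt K y d r v.1) + (pt K y d i v.2.2 - pt K y d i v.2.1) := by
        rw [pt_sub K y d r i v.2.1]
        generalize cell (nu K y d r i k (v.1, v.2.1)) = z
        simp only [nu, pt]
        module
      rw [e0]
      refine norm_add₃_le.trans ((add_le_add (add_le_add (norm_sub_cell _) c2) c3).trans ?_)
      linarith [c2_le_exp (by linarith : ℓ + 2 ≤ 24 * x), one_le_exp (by linarith : 0 ≤ ℓ)]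
  · refine (sum_le_sum fun j hj => (?_ : _ ≤ exp (n + (3 * x + 2 + (t - g'))))).trans ?_
    · rw [card_product, Nat.cast_mul, exp_add n]
      refine mul_le_mul (hU.zc j) ?_ (Nat.cast_nonneg _) (exp_pos _).le
      refine (Nat.cast_le.2 card_biUnion_le).trans ?_
      push_cast
      refine (sum_le_sum fun k _ => hA1 k).trans ?_
      rw [sum_const, nsmul_eq_mul, exp_add]
      exact mul_le_mul_of_nonneg_right (card_wq hK0 (by linarith) hi (mem_range.1 hj) _ _ _)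
        (exp_pos _).le
    · rw [sum_const, card_range, nsmul_eq_mul]
  · intro u
    rw [exp_add n]
    refine ms_cover_le hν0 (Z j0) (fun z v => ‖pt K y d j0 v.2.2 - z‖ ≤ exp ℓ ∧
      ‖pt K y d j0 v.2.2 + ((k0 : ℝ) / K) • d v.1 - u‖ ≤ 1) (fun v hv h2 => ?_) (fun z _ => ?_)
      (exp_pos _).le (hU.zc j0)
    · obtain ⟨c4, c5⟩ := hU.cov _ (hcl v hv).1 j0 (hν2 v hv).2.1
      refine ⟨_, c4, c5, ?_⟩
      rw [pt_sub K y d i j0, add_right_comm]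
      exact norm_of_cell h2
    rw [exp_add _ (_ + g), exp_add (x + n - t)]
    refine ms2_le hμ (μ' := fun b => ind (¬ Hv V2 (pl K y d r j0) g b) * V2 b)
      (fun b => mul_nonneg (ind_nonneg _) (hV20 b)) (exp_pos _).le
      (F := fun a => ‖d a - ((k0 : ℝ) / K)⁻¹ • (u - z)‖ ≤ 2 * exp (6 * x))
      (G := fun a b => ‖pt K y d r b.1 - pt K y d r a‖ ≤ 2 * exp x ∧
        ‖pt K y d j0 b.2 - z‖ ≤ 2 * exp x) (fun a b hv h2 => ⟨⟨?_, ?_, ?_⟩, ?_⟩)
      (conc0 hμ hU.ls.c2 (by linarith) _) (fun a => ?_) (exp_pos _).le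
    · have e0 : d a - ((k0 : ℝ) / K)⁻¹ • (u - z) = ((k0 : ℝ) / K)⁻¹ •
          ((pt K y d j0 b.2 + ((k0 : ℝ) / K) • d a - u) - (pt K y d j0 b.2 - z)) := by
        generalize (k0 : ℝ) / K = s at s0
        match_scalars <;> field_simp
        ring
      rw [e0]
      refine (norm_inv_smul_le s1 ((norm_sub_le _ _).trans (add_le_add h2.2 h2.1))).trans ?_
      rw [show 6 * x = 5 * x + x by ring, exp_add, mul_left_comm]
      refine mul_le_mul_of_nonneg_left ?_ (exp_pos _).le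
      linarith [exp_le_exp.2 hx, one_le_exp (by linarith : 0 ≤ x)]
    · linarith [(hcl _ hv).2.1, exp_le_exp.2 hx]
    · linarith [h2.1, exp_le_exp.2 hx, exp_pos x]
    · rw [ind_pos (hν2 _ hv).2.2, one_mul]
      exact hν3 a b
    · obtain ⟨A1, a1, a2⟩ := exists_cells (pt K y d r a) (x := x) (by linarith)
      obtain ⟨A2, b1, b2⟩ := exists_cells z (x := x) (by linarith)
      rw [exp_add _ g]
      refine ms_cover_le (fun b => mul_nonneg (ind_nonneg _) (hV20 b)) (A1 ×ˢ A2)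
        (fun q b => pl K y d r j0 b = q)
        (fun b _ h2 => ⟨_, mem_product.2 ⟨a2 _ h2.1, b2 _ h2.2⟩, rfl⟩) (fun q _ => ?_)
        (exp_pos _).le ?_
      · refine light_le hV20 (pl K y d r j0) (exp_pos g).le q fun b hb h2 =>
          ⟨h2, mul_le_of_le_one_left (hV20 b) (ind_le_one _), not_lt.1 fun h3 => hb ?_⟩
        rw [ind_neg fun h4 : ¬ Hv V2 (pl K y d r j0) g b => h4 h3, zero_mul]
      · rw [card_product, Nat.cast_mul, exp_add]
        exact mul_le_mul a1 b1 (Nat.cast_nonneg _) (exp_pos _).le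
  · intro a0 b0
    rw [exp_add, exp_add, exp_add w2]
    refine ms3_le hμ (exp_pos _).le (F := fun e => ‖d e - b0‖ ≤ 1)
      (G := fun e a => ‖d a - ((k0 : ℝ) / K)⁻¹ • (a0 - pt K y d i e)‖ ≤ 2 * exp (29 * x))
      (fun a b e hv h2 => ⟨⟨h2.2, ?_, hH' a b e hv⟩, hν4 a b e⟩) (hU.ls.c2 b0)
      (fun e => conc0 hμ hU.ls.c2 (by linarith) _) hH (exp_pos _).le (exp_pos _).le
    have e0 : d a - ((k0 : ℝ) / K)⁻¹ • (a0 - pt K y d i e) =
        ((k0 : ℝ) / K)⁻¹ • (pt K y d i e + ((k0 : ℝ) / K) • d a - a0) := by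
      generalize (k0 : ℝ) / K = s at s0
      match_scalars <;> field_simp
    rw [e0]
    refine (norm_inv_smul_le s1 h2.1).trans (le_of_eq ?_)
    rw [mul_left_comm, ← exp_add]
    congr 2
    ring
  · intro a0 b0 e0
    rw [exp_add, exp_add, exp_add w1]
    exact ms3_le hμ (exp_pos _).le (F := fun e => ‖y e - a0‖ ≤ 1 ∧ ‖d e - b0‖ ≤ 1)
      (G := fun e a => ‖d a - e0‖ ≤ 2 * exp (72 * x))
      (fun a b e hv h2 => ⟨⟨h2.1, h2.2.trans (by
        rw [show 3 * (24 * x) = 72 * x by ring]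
        linarith [exp_pos (72 * x)]), hH' a b e hv⟩, hν4 a b e⟩) (hU.ls.c1 a0 b0)
      (fun e => conc0 hμ hU.ls.c2 (by linarith) _) hH (exp_pos _).le (exp_pos _).le

theorem card_good2 (hL : LS ℓ K μ y d S w1 w2) {x x' : ℝ} (hx : ℓ ≤ x) (hx' : x + 3 ≤ x')
    (hK : exp x' ≤ K) {ω : Ω} (hω : μ ω ≠ 0) (i j0 : ℕ) :
    K * exp (- (x + 1)) ≤ (fl (S ω) (Sq K x' i j0)).card := by
  have hK0 : (0 : ℝ) < K := (exp_pos _).trans_le hK
  have h1 : 1 ≤ K * exp (- x') := by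
    rw [exp_neg, ← div_eq_mul_inv, one_le_div (exp_pos _)]
    exact hK
  have h2 := card_far (hL.sub ω) i _ h1
  have h6 := card_far ((fl_subset _ fun j : ℕ => K * exp (- x') ≤ |(j : ℝ) - i|).trans
    (hL.sub ω)) j0 _ h1
  have h7 : ((fl (fl (S ω) fun j : ℕ => K * exp (- x') ≤ |(j : ℝ) - i|) fun j : ℕ =>
      K * exp (- x') ≤ |(j : ℝ) - j0|).card : ℝ) ≤ (fl (S ω) (Sq K x' i j0)).card :=
    Nat.cast_le.2 (card_le_card fun j hj => mem_fl.2 ⟨(mem_fl.1 (mem_fl.1 hj).1).1,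
      (mem_fl.1 (mem_fl.1 hj).1).2, (mem_fl.1 hj).2⟩)
  have h3 : K * exp (- x) ≤ (S ω).card := by
    rw [exp_neg, ← div_eq_mul_inv, div_le_iff₀ (exp_pos _), mul_comm]
    exact (hL.den ω hω).trans
      (mul_le_mul_of_nonneg_right (exp_le_exp.2 hx) (Nat.cast_nonneg _))
  have h4 := mul_le_mul_of_nonneg_left (c3_le_exp (by linarith : - x' + 3 ≤ - x)) hK0.le
  have h5 := mul_le_mul_of_nonneg_left (two_le_exp (by linarith : - (x + 1) + 1 ≤ - x)) hK0.le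
  linarith [mul_pos hK0 (exp_pos (- x'))]

theorem corner_count (hL : LS ℓ K μ y d S w1 w2) {x : ℝ} (hx : ℓ ≤ x) (hK : exp (24 * x) ≤ K)
    {ω : Ω} (hω : μ ω ≠ 0) {i : ℕ} (hi : i < K) (B : Finset ℤ) (hB : B ⊆ rg K x) :
    K * exp (- (x + 1)) * (K * exp (- (x + 1))) * (B.card - 0) ≤ exp (3 * x + 2) *
      ∑ q ∈ range K ×ˢ rg K (5 * x), ind (True ∧ q.1 ∈ S ω) *
        ((fl (range K) fun j => ∃ k, (j, k) ∈ fl (S ω) (Sq K (3 * x) i q.1) ×ˢ B ∧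
          pq i q.1 (j, k) = q.2).card : ℝ) := by
  have hl := hL.l1
  have hK0 : (0 : ℝ) < K := (exp_pos _).trans_le hK
  have hK3 : exp (3 * x) ≤ K := (exp_le_exp.2 (by linarith)).trans hK
  simp only [and_comm (a := True)]
  rw [sub_zero, mul_assoc]
  refine sum_good (F := fun _ => True) (hL.sub ω) _ _ (fun _ => Nat.cast_nonneg _) (by positivity)
    (exp_pos _).le ((card_good2 hL hx (by linarith) hK3 hω i i).trans (Nat.cast_le.2
      (card_le_card fun j hj => mem_fl.2 ⟨(mem_fl.1 hj).1, trivial⟩))) fun j0 j1 _ => ?_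
  refine le_trans ?_ (count_le (fl (S ω) (Sq K (3 * x) i j0) ×ˢ B) (pq i j0) (rg K (5 * x))
    (range K) (fun b hb => ?_) fun j k => ?_)
  · rw [card_product, Nat.cast_mul]
    exact mul_le_mul_of_nonneg_right (card_good2 hL hx (by linarith) hK3 hω i j0)
      (Nat.cast_nonneg _)
  · obtain ⟨b1, b2⟩ := mem_product.1 hb
    obtain ⟨b3, b4⟩ := mem_fl.1 b1
    obtain ⟨b5, b6⟩ := mem_rg.1 (hB b2)
    have b7 := mem_range.1 (hL.sub ω b3)
    have r1 := ratio_le hK0 (abs_sub_le_of_lt b7 (mem_range.1 (hL.sub ω j1))) b4.1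
    have r2 := le_ratio b4.2 (abs_sub_le_of_lt b7 hi)
      (abs_pos.1 ((by positivity : 0 < K * exp (- (3 * x))).trans_le b4.1))
    refine ⟨rg_mono (by linarith) (floor_mem_rg (x := 4 * x) (by linarith)
      ((two_le_exp (by linarith)).trans hK) ?_ ?_), hL.sub ω b3⟩
    · rw [abs_mul, show 4 * x = x + 3 * x by ring, exp_add, ← mul_assoc]
      exact mul_le_mul b5 r1 (abs_nonneg _) (by positivity)
    · rw [abs_mul, show - (4 * x) = - x + - (3 * x) by ring, exp_add, ← mul_assoc]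
      exact mul_le_mul b6 r2 (exp_pos _).le (abs_nonneg _)
  · by_cases hj : j < K
    · refine le_trans (Nat.cast_le.2 (card_le_card_of_injOn Prod.snd (fun b hb => ?_)
        fun a ha b hb h => ?_)) (card_wq hK0 (by linarith : 0 ≤ 3 * x) hi hj j0 B k)
      · obtain ⟨b1, rfl, b3⟩ := mem_fl.1 (mem_coe.1 hb)
        obtain ⟨b4, b5⟩ := mem_product.1 b1
        exact mem_coe.2 (mem_fl.2 ⟨b5, (mem_fl.1 b4).2, b3⟩)
      · exact Prod.ext ((mem_fl.1 (mem_coe.1 ha)).2.1.trans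
          (mem_fl.1 (mem_coe.1 hb)).2.1.symm) h
    · have : (fl (fl (S ω) (Sq K (3 * x) i j0) ×ˢ B) fun b => b.1 = j ∧ pq i j0 b = k) = ∅ :=
        eq_empty_of_forall_notMem fun b hb => hj ((mem_fl.1 hb).2.1 ▸
          mem_range.1 (hL.sub ω (mem_fl.1 (mem_product.1 (mem_fl.1 hb).1).1).1))
      rw [this, card_empty, Nat.cast_zero]
      exact (exp_pos _).le

theorem corner {β p : ℝ} (h : RKp m β p) (h0 : 1 / 2 ≤ β) (h1 : β ≤ 1) (hp : 1 ≤ p)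
    (hU : US ℓ K μ y d S w1 w2 Z c n t) {x : ℝ} (hx : ℓ ≤ x) (hK : exp (p * (24 * x)) ≤ K)
    {g g' : ℝ} (hg : (24 * p + 80 + 280 * m) * x + (1 - β) * g + w1 + 2 * β * w2 + 3 * n -
      (1 + β) * t ≤ g')
    (hP : ∑ r ∈ range K, ∑ z ∈ range K ×ˢ range K, ms (vr μ S c (exp (t - n - 24 * x)) r)
      (Hv (vr μ S c (exp (t - n - 24 * x)) r) (pl K y d z.1 z.2) g) ≤ K ^ 3 * exp (t - 24 * x)) :
    ∑ r ∈ range K, ∑ q ∈ range K ×ˢ rg K x, ms (vr μ S c (exp (t - n - x)) r) (fun v =>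
      q.1 ∈ S v.2 ∧ Hv (vr μ S c (exp (t - n - x)) r) (fun v => cell (nu K y d r q.1 q.2 v)) g' v) ≤
      K ^ 3 * exp (t - x) := by
  have hl := hU.ls.l1
  have hμ := hU.ls.pos
  have hK0 : (0 : ℝ) < K := (exp_pos _).trans_le hK
  have hK1 : exp (24 * x) ≤ K := (exp_le_exp.2 (by nlinarith)).trans hK
  have hK2 : (1 : ℝ) ≤ K := (one_le_exp (by linarith)).trans hK1
  set V1 := vr μ S c (exp (t - n - x)) with hV1
  set V2 := vr μ S c (exp (t - n - 24 * x)) with hV2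
  have hV10 : ∀ r v, 0 ≤ V1 r v := fun r => gv_nonneg hμ (exp_pos _)
  have hV20 : ∀ r v, 0 ≤ V2 r v := fun r => gv_nonneg hμ (exp_pos _)
  have hVt : ∀ r, ∑ v, V1 r v ≤ exp t := fun r => (gv_sum_le hμ (exp_pos _)).trans hU.tot.le
  have hB : ∀ r i v, ((hk K μ y d S c (exp (t - n - x)) x g' r i v).card : ℝ) ≤ 3 * (K * exp x) :=
    fun r i v => (card_fl_le _ _).trans (card_rg hK2 (by linarith))
  have step : ∀ r ∈ range K, ∀ i ∈ range K, ∑ k ∈ rg K x, ms (V1 r) (fun v => i ∈ S v.2 ∧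
      Hv (V1 r) (fun v => cell (nu K y d r i k v)) g' v) ≤
      3 * K * exp (x + t) * ind (¬ K * exp (- (3 * x)) ≤ |(i : ℝ) - r|) +
        9 * K * exp (t - 14 * x + 4) + 3 * exp (10 * x + 4) *
          ∑ j ∈ range K, ms (V2 i) (Hv (V2 i) (pl K y d r j) g) := by
    intro r hr i hi
    have hr' := mem_range.1 hr
    have hi' := mem_range.1 hi
    have hP0 : 0 ≤ ∑ j ∈ range K, ms (V2 i) (Hv (V2 i) (pl K y d r j) g) :=
      sum_nonneg fun _ _ => ms_nonneg (hV20 i) _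
    rw [← sum_card_fl (V1 r) _ fun k v => i ∈ S v.2 ∧
      Hv (V1 r) (fun v => cell (nu K y d r i k v)) g' v]
    change ∑ v, V1 r v * ((hk K μ y d S c (exp (t - n - x)) x g' r i v).card : ℝ) ≤ _
    by_cases hs : K * exp (- (3 * x)) ≤ |(i : ℝ) - r|
    swap
    · rw [ind_pos hs, mul_one, add_assoc]
      refine le_add_of_le_of_nonneg ?_ (by positivity)
      refine (sum_le_sum fun v _ => mul_le_mul_of_nonneg_left (hB r i v) (hV10 r v)).trans ?_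
      rw [← sum_mul, exp_add]
      linarith [mul_le_mul_of_nonneg_right (hVt r) (by positivity : 0 ≤ 3 * (K * exp x))]
    rw [ind_neg (not_not.2 hs), mul_zero, zero_add]
    set C := tw μ (fun ω => r ∈ S ω) (c r) (exp (t - n - x)) (fun ω => i ∈ S ω) (c i)
      (exp (t - n - 24 * x)) with hC
    have hC0 : ∀ v, 0 ≤ C v := tw_nonneg hμ (exp_pos _) (exp_pos _)
    have k1 := tw_ge (E := fun ω => r ∈ S ω) (c := c r) (E' := fun ω => i ∈ S ω) hμ
      (exp_pos (t - n - x)) (exp_pos (t - n - 24 * x)) (Z i) (hU.zc i)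
      (fun ω h2 h3 => (hU.cov ω h2 i h3).1) _ (fun _ => Nat.cast_nonneg _) (by positivity)
      (hB r i) fun v hv => by
        obtain ⟨k, hk⟩ := card_pos.1 (Nat.pos_of_ne_zero (Nat.cast_ne_zero.1 hv))
        exact (mem_fl.1 hk).2.1
    have k2 := avg_le (Q := K * (3 * (K * exp (5 * x)))) hC0 (fun _ => le_rfl)
      (range K ×ˢ rg K (5 * x)) (fun _ _ => True) (fun q v => q.1 ∈ S v.2.2)
      (fun q v => Hv (V2 i) (pl K y d r q.1) g v.2) _ (by positivity) le_rfl (exp_pos _).le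
      (by positivity) (fun _ _ => Nat.cast_nonneg _)
      (fun _ _ => (card_fl_le _ _).trans (by rw [card_range]))
      ((tw_sum_le hμ (exp_pos _) (exp_pos _)).trans hU.tot.le) (by
        rw [card_product, card_range, Nat.cast_mul]
        exact mul_le_mul_of_nonneg_left (card_rg hK2 (by linarith)) hK0.le)
      (fun v hv => corner_count hU.ls hx hK1 (gv_ne (tw_ne hv).2.2).2.1 hi'
        (hk K μ y d S c (exp (t - n - x)) x g' r i (v.1, v.2.1)) (fl_subset _ _))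
      fun q hq => corner_one h h0 h1 hU hx hK hg hr' hi' (mem_range.1 (mem_product.1 hq).1) hs
        (mem_product.1 hq).2
    have k3 : ∑ q ∈ range K ×ˢ rg K (5 * x), ms C (fun v => True ∧
        Hv (V2 i) (pl K y d r q.1) g v.2) ≤ 3 * (K * exp (5 * x)) *
          ∑ j ∈ range K, ms (V2 i) (Hv (V2 i) (pl K y d r j) g) := by
      rw [sum_product, mul_sum]
      refine sum_le_sum fun j _ => ?_
      simp only [true_and, sum_const, nsmul_eq_mul]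
      exact mul_le_mul (card_rg hK2 (by linarith)) (tw_snd hμ (exp_pos _) (exp_pos _) _)
        (ms_nonneg hC0 _) (by positivity)
    have k4 := k2.trans (mul_le_mul_of_nonneg_left (add_le_add_right
      (mul_le_mul_of_nonneg_left k3 hK0.le) _) (exp_pos _).le)
    refine k1.trans ?_
    rw [zero_mul, sub_zero] at k4
    have b1 : exp x * (exp n * exp (t - n - 24 * x)) ≤ exp (t - 14 * x + 4) := by
      rw [← exp_add]
      exact exp_mul_le (by linarith)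
    have b2 : exp (3 * x + 2) * exp (5 * x) =
        exp (- (x + 1)) * exp (- (x + 1)) * exp (10 * x + 4) := by
      simp only [← exp_add]; congr 1; ring
    have b3 : exp (10 * x + 4) * exp (t - 24 * x) = exp (t - 14 * x + 4) := by
      simp only [← exp_add]; congr 1; ring
    have b4 : ∑ v, C v * ((hk K μ y d S c (exp (t - n - x)) x g' r i (v.1, v.2.1)).card : ℝ) ≤
        6 * K * exp (t - 14 * x + 4) + 3 * exp (10 * x + 4) *
          ∑ j ∈ range K, ms (V2 i) (Hv (V2 i) (pl K y d r j) g) := by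
      refine le_of_mul_le_mul_left (k4.trans (le_of_eq ?_)) (by positivity)
      rw [← b3]
      linear_combination (6 * K ^ 3 * exp (t - 24 * x) + 3 * K ^ 2 *
        ∑ j ∈ range K, ms (V2 i) (Hv (V2 i) (pl K y d r j) g)) * b2
    linarith [mul_le_mul_of_nonneg_left b1 hK0.le]
  have h3 : 1 ≤ K * exp (- (3 * x)) := by
    rw [exp_neg, ← div_eq_mul_inv, one_le_div (exp_pos _)]
    exact (exp_le_exp.2 (by linarith)).trans hK1
  simp only [sum_product] at hP ⊢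
  rw [sum_comm] at hP
  refine (sum_le_sum fun r hr => sum_le_sum (step r hr)).trans ?_
  simp only [sum_add_distrib, ← mul_sum, ← card_fl_eq, sum_const, card_range, nsmul_eq_mul]
  have a1 := (sum_le_sum fun (r : ℕ) (_ : r ∈ range K) => card_close K r _ h3)
  rw [sum_const, card_range, nsmul_eq_mul] at a1
  have a2 := mul_le_mul_of_nonneg_left a1 (by positivity : 0 ≤ 3 * K * exp (x + t))
  have a3 := mul_le_mul_of_nonneg_left hP (by positivity : 0 ≤ 3 * exp (10 * x + 4))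
  have b1 : exp (x + t) * exp (- (3 * x)) = exp (t - 2 * x) := by
    rw [← exp_add]; congr 1; ring
  have b3 : exp (10 * x + 4) * exp (t - 24 * x) = exp (t - 14 * x + 4) := by
    simp only [← exp_add]; congr 1; ring
  have b4 := c3_le_exp (by linarith : t - 2 * x + 3 ≤ t - x)
  have b5 := c4_le_exp (by linarith : t - 14 * x + 4 + 4 ≤ t - x)
  have hK3 : (0 : ℝ) ≤ K ^ 3 := by positivity
  have g1 : (K : ℝ) ^ 3 * (exp (x + t) * exp (- (3 * x))) = K ^ 3 * exp (t - 2 * x) := by rw [b1]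
  have g3 : (K : ℝ) ^ 3 * (exp (10 * x + 4) * exp (t - 24 * x)) = K ^ 3 * exp (t - 14 * x + 4) := by
    rw [b3]
  linarith [mul_le_mul_of_nonneg_left b4 hK3, mul_le_mul_of_nonneg_left b5 hK3,
    mul_nonneg hK3 (exp_pos (t - 14 * x + 4)).le]

end Pool.Agent.Work.MP_72ad00_an.H
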