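import Pool.Agent.Work.MP_72ad00_an.H.RK

/-!
Gluing two weighted families along a common label.
-/

set_option autoImplicit false

open Finset Real

namespace Pool.Agent.Work.MP_72ad00_an.H

open Pool.Agent.Lib.PFR

variable {m : ℕ} {Ω ι : Type} [Fintype Ω]

/-- The gluing kernel. -/
noncomputable def kr (μ : Ω → ℝ) (E : Ω → Prop) (c : Ω → ι) (θ : ℝ) (a b : Ω) : ℝ :=
  ind (E a ∧ E b ∧ c b = c a) / max (ms μ fun ω => E ω ∧ c ω = c a) θ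

/-- The glued weight. -/
noncomputable def gv (μ : Ω → ℝ) (E : Ω → Prop) (c : Ω → ι) (θ : ℝ) (v : Ω × Ω) : ℝ :=
  μ v.1 * μ v.2 * kr μ E c θ v.1 v.2

section

variable {μ : Ω → ℝ} {E : Ω → Prop} {c : Ω → ι} {θ θ' : ℝ}

theorem kr_nonneg (hθ : 0 < θ) (a b : Ω) : 0 ≤ kr μ E c θ a b :=
  div_nonneg (ind_nonneg _) (hθ.le.trans (le_max_right _ _))

theorem kr_le (hθ : 0 < θ) (a b : Ω) : kr μ E c θ a b ≤ θ⁻¹ := by
  rw [kr, ← one_div]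
  exact div_le_div₀ zero_le_one (ind_le_one _) hθ (le_max_right _ _)

theorem kr_ne {a b : Ω} (h : kr μ E c θ a b ≠ 0) : E a ∧ E b ∧ c b = c a :=
  by_contra fun h1 => h (by rw [kr, ind_neg h1, zero_div])

theorem kr_symm (a b : Ω) : kr μ E c θ a b = kr μ E c θ b a := by
  by_cases h : E a ∧ E b ∧ c b = c a
  · rw [kr, kr, ind_pos h, ind_pos ⟨h.2.1, h.1, h.2.2.symm⟩, h.2.2]
  · rw [kr, kr, ind_neg h, ind_neg fun h1 : E b ∧ E a ∧ c a = c b => h ⟨h1.2.1, h1.1, h1.2.2.symm⟩,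
      zero_div, zero_div]

theorem kr_anti (hθ : 0 < θ) (h : θ ≤ θ') (a b : Ω) : kr μ E c θ' a b ≤ kr μ E c θ a b :=
  div_le_div_of_nonneg_left (ind_nonneg _) (hθ.trans_le (le_max_right _ _))
    (max_le_max_left _ h)

theorem kr_sum (a : Ω) : ∑ b, μ b * kr μ E c θ a b =
    ind (E a) * (ms μ fun ω => E ω ∧ c ω = c a) / max (ms μ fun ω => E ω ∧ c ω = c a) θ := by
  rw [ms, mul_sum, sum_div]
  refine sum_congr rfl fun b _ => ?_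
  rw [kr, ind_and, ms]
  ring

theorem kr_sum_le (hμ : ∀ ω, 0 ≤ μ ω) (hθ : 0 < θ) (a : Ω) : ∑ b, μ b * kr μ E c θ a b ≤ 1 := by
  rw [kr_sum, div_le_one (hθ.trans_le (le_max_right _ _))]
  exact (mul_le_of_le_one_left (ms_nonneg hμ _) (ind_le_one _)).trans (le_max_left _ _)

theorem kr_sum_eq (hθ : 0 < θ) {a : Ω} (h1 : E a) (h2 : θ ≤ ms μ fun ω => E ω ∧ c ω = c a) :
    ∑ b, μ b * kr μ E c θ a b = 1 := by
  rw [kr_sum, ind_pos h1, one_mul, max_eq_left h2, div_self (hθ.trans_le h2).ne']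

theorem gv_nonneg (hμ : ∀ ω, 0 ≤ μ ω) (hθ : 0 < θ) (v : Ω × Ω) : 0 ≤ gv μ E c θ v :=
  mul_nonneg (mul_nonneg (hμ _) (hμ _)) (kr_nonneg hθ _ _)

theorem gv_le (hμ : ∀ ω, 0 ≤ μ ω) (hθ : 0 < θ) (a b : Ω) : gv μ E c θ (a, b) ≤ θ⁻¹ * μ a * μ b := by
  rw [gv, mul_assoc θ⁻¹, mul_comm θ⁻¹]
  exact mul_le_mul_of_nonneg_left (kr_le hθ _ _) (mul_nonneg (hμ _) (hμ _))

theorem gv_ne {v : Ω × Ω} (h : gv μ E c θ v ≠ 0) :
    μ v.1 ≠ 0 ∧ μ v.2 ≠ 0 ∧ E v.1 ∧ E v.2 ∧ c v.2 = c v.1 :=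
  ⟨left_ne_zero_of_mul (left_ne_zero_of_mul h), right_ne_zero_of_mul (left_ne_zero_of_mul h),
    kr_ne (right_ne_zero_of_mul h)⟩

theorem gv_anti (hμ : ∀ ω, 0 ≤ μ ω) (hθ : 0 < θ) (h : θ ≤ θ') (v : Ω × Ω) :
    gv μ E c θ' v ≤ gv μ E c θ v :=
  mul_le_mul_of_nonneg_left (kr_anti hθ h _ _) (mul_nonneg (hμ _) (hμ _))

theorem gv_fst (hμ : ∀ ω, 0 ≤ μ ω) (hθ : 0 < θ) (F : Ω → Prop) :
    ms (gv μ E c θ) (fun v => F v.1) ≤ ms μ F := by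
  rw [ms, Fintype.sum_prod_type]
  refine sum_le_sum fun a _ => ?_
  simp only [gv, mul_assoc, ← mul_sum]
  exact mul_le_mul_of_nonneg_left (mul_le_of_le_one_right (hμ a) (kr_sum_le hμ hθ a))
    (ind_nonneg _)

theorem gv_snd (hμ : ∀ ω, 0 ≤ μ ω) (hθ : 0 < θ) (F : Ω → Prop) :
    ms (gv μ E c θ) (fun v => F v.2) ≤ ms μ F := by
  refine le_trans (le_of_eq ?_) (gv_fst (E := E) (c := c) hμ hθ F)
  rw [ms, ms, Fintype.sum_prod_type_right, Fintype.sum_prod_type]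
  refine sum_congr rfl fun a _ => sum_congr rfl fun b _ => ?_
  simp only [gv]
  rw [kr_symm b a]
  ring

theorem ms_true (μ : Ω → ℝ) : ms μ (fun _ => True) = ∑ ω, μ ω := by
  simp only [ms, ind_pos trivial, one_mul]

theorem gv_sum_le (hμ : ∀ ω, 0 ≤ μ ω) (hθ : 0 < θ) : ∑ v, gv μ E c θ v ≤ ∑ ω, μ ω := by
  rw [← ms_true, ← ms_true]
  exact gv_fst hμ hθ fun _ => True

theorem thin_le (hμ : ∀ ω, 0 ≤ μ ω) (hθ : 0 < θ) (Z : Finset ι) {N : ℝ} (hN : (Z.card : ℝ) ≤ N)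
    (hZ : ∀ ω, μ ω ≠ 0 → E ω → c ω ∈ Z) :
    ms μ (fun a => E a ∧ (ms μ fun ω => E ω ∧ c ω = c a) < θ) ≤ N * θ := by
  refine ms_cover_le hμ Z (fun z a => (E a ∧ c a = z) ∧ (ms μ fun ω => E ω ∧ c ω = z) < θ)
    (fun ω h1 h2 => ⟨_, hZ ω h1 h2.1, ⟨h2.1, rfl⟩, h2.2⟩) (fun z _ => ?_) hθ.le hN
  by_cases h : (ms μ fun ω => E ω ∧ c ω = z) < θ
  · exact (ms_mono hμ fun _ _ h => h.1).trans h.le
  · rw [ms_eq_zero fun _ _ h1 => h h1.2]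
    exact hθ.le

theorem gv_sum_ge (hμ : ∀ ω, 0 ≤ μ ω) (hθ : 0 < θ) (Z : Finset ι) {N : ℝ} (hN : (Z.card : ℝ) ≤ N)
    (hZ : ∀ ω, μ ω ≠ 0 → E ω → c ω ∈ Z) : ms μ E ≤ ∑ v, gv μ E c θ v + N * θ := by
  refine le_trans ?_ (add_le_add_right (thin_le hμ hθ Z hN hZ) _)
  rw [ms, ms, Fintype.sum_prod_type, ← sum_add_distrib]
  refine sum_le_sum fun a _ => ?_
  simp only [gv, mul_assoc, ← mul_sum]
  have h1 : 0 ≤ μ a * ∑ b, μ b * kr μ E c θ a b :=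
    mul_nonneg (hμ a) (sum_nonneg fun b _ => mul_nonneg (hμ b) (kr_nonneg hθ _ _))
  by_cases h2 : E a
  · by_cases h3 : θ ≤ ms μ fun ω => E ω ∧ c ω = c a
    · rw [kr_sum_eq hθ h2 h3, ind_pos h2]
      nlinarith [mul_nonneg (ind_nonneg (E a ∧ (ms μ fun ω => E ω ∧ c ω = c a) < θ)) (hμ a)]
    · rw [ind_pos h2, ind_pos ⟨h2, not_le.1 h3⟩]
      linarith
  · rw [ind_neg h2, zero_mul]
    exact add_nonneg h1 (mul_nonneg (ind_nonneg _) (hμ a))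

end

omit [Fintype Ω] in
theorem pt_sub (K : ℕ) (y d : Ω → Fin m → ℝ) (r j : ℕ) (ω : Ω) :
    pt K y d j ω = pt K y d r ω + (((j : ℝ) - r) / K) • d ω := by
  simp only [pt]
  match_scalars
  · rfl
  · ring

theorem norm_inv_smul_le {σ x z : ℝ} (hσ : exp (- x) ≤ |σ|) {v : Fin m → ℝ} (hv : ‖v‖ ≤ z) :
    ‖σ⁻¹ • v‖ ≤ exp x * z := by
  have h0 : 0 < |σ| := (exp_pos _).trans_le hσ
  rw [norm_smul, Real.norm_eq_abs, abs_inv]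
  refine mul_le_mul ?_ hv (norm_nonneg _) (exp_pos _).le
  rw [inv_le_comm₀ h0 (exp_pos _), ← exp_neg]
  exact hσ

variable {ℓ : ℝ} {K : ℕ} {μ : Ω → ℝ} {y d : Ω → Fin m → ℝ} {S : Ω → Finset ℕ} {w1 w2 : ℝ}

theorem ptd_le (hμ : ∀ ω, 0 ≤ μ ω)
    (h : ∀ z z', ms μ (fun ω => ‖y ω - z‖ ≤ 1 ∧ ‖d ω - z'‖ ≤ 1) ≤ exp w1) {r : ℕ} (hr : r < K)
    {x : ℝ} (hx : 0 ≤ x) (a c : Fin m → ℝ) :
    ms μ (fun ω => ‖pt K y d r ω - a‖ ≤ exp x ∧ ‖d ω - c‖ ≤ exp x) ≤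
      exp (2 * (m * (x + 2)) + w1) := by
  refine le_trans (ms_mono hμ fun ω _ h1 => ⟨?_, h1.2.trans (by linarith [exp_pos x])⟩)
    (conc2 hμ h hx (a - ((r : ℝ) / K) • c) c)
  have hK : (0 : ℝ) < K := by exact_mod_cast (Nat.zero_le r).trans_lt hr
  have e0 : y ω - (a - ((r : ℝ) / K) • c) = (pt K y d r ω - a) - ((r : ℝ) / K) • (d ω - c) := by
    simp only [pt]
    module
  have hr1 : |(r : ℝ) / K| ≤ 1 := by
    rw [abs_of_nonneg (by positivity), div_le_one hK]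
    exact_mod_cast hr.le
  rw [e0]
  refine (norm_sub_le _ _).trans ?_
  rw [norm_smul, Real.norm_eq_abs]
  linarith [mul_le_mul hr1 h1.2 (norm_nonneg _) zero_le_one, h1.1]

theorem pt2_le (hμ : ∀ ω, 0 ≤ μ ω)
    (h : ∀ z z', ms μ (fun ω => ‖y ω - z‖ ≤ 1 ∧ ‖d ω - z'‖ ≤ 1) ≤ exp w1) {r j : ℕ} (hr : r < K)
    {x x' : ℝ} (hx : 0 ≤ x) (hx' : 0 ≤ x') (hs : exp (- x') ≤ |((j : ℝ) - r) / K|)
    (a b : Fin m → ℝ) :
    ms μ (fun ω => ‖pt K y d r ω - a‖ ≤ exp x ∧ ‖pt K y d j ω - b‖ ≤ exp x) ≤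
      exp (2 * (m * (x + x' + 1 + 2)) + w1) := by
  refine le_trans (ms_mono hμ fun ω _ h1 => ⟨h1.1.trans (exp_le_exp.2 (by linarith)), ?_⟩)
    (ptd_le hμ h hr (by linarith) a ((((j : ℝ) - r) / K)⁻¹ • (b - a)))
  have h0 : ((j : ℝ) - r) / K ≠ 0 := abs_pos.1 ((exp_pos _).trans_le hs)
  have e0 : d ω - (((j : ℝ) - r) / K)⁻¹ • (b - a) =
      (((j : ℝ) - r) / K)⁻¹ • ((pt K y d j ω - b) - (pt K y d r ω - a)) := by
    rw [pt_sub K y d r j]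
    generalize ((j : ℝ) - r) / K = s at h0
    match_scalars <;> field_simp
    ring
  rw [e0]
  refine (norm_inv_smul_le hs ((norm_sub_le _ _).trans (add_le_add h1.2 h1.1))).trans ?_
  rw [← two_mul, mul_left_comm, ← exp_add]
  exact two_le_exp (by linarith)

/-- A family with uniformly few cells. -/
structure US (ℓ : ℝ) (K : ℕ) (μ : Ω → ℝ) (y d : Ω → Fin m → ℝ) (S : Ω → Finset ℕ) (w1 w2 : ℝ)
    (Z : ℕ → Finset (Fin m → ℝ)) (c : ℕ → Ω → Fin m → ℝ) (n t : ℝ) : Prop where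
  ls : LS ℓ K μ y d S w1 w2
  zc : ∀ r, ((Z r).card : ℝ) ≤ exp n
  cov : ∀ ω, μ ω ≠ 0 → ∀ r ∈ S ω, c r ω ∈ Z r ∧ ‖pt K y d r ω - c r ω‖ ≤ exp ℓ
  tot : ∑ ω, μ ω = exp t

/-- Pairs of lines through a common cell at slope `r`. -/
noncomputable def vr (μ : Ω → ℝ) (S : Ω → Finset ℕ) (c : ℕ → Ω → Fin m → ℝ) (θ : ℝ) (r : ℕ) :
    Ω × Ω → ℝ := gv μ (fun ω => r ∈ S ω) (c r) θ

theorem US.close {Z : ℕ → Finset (Fin m → ℝ)} {c : ℕ → Ω → Fin m → ℝ} {n t : ℝ}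
    (h : US ℓ K μ y d S w1 w2 Z c n t) {r : ℕ} {a b : Ω} (ha : μ a ≠ 0) (hb : μ b ≠ 0)
    (h1 : r ∈ S a ∧ r ∈ S b ∧ c r b = c r a) : ‖pt K y d r b - pt K y d r a‖ ≤ 2 * exp ℓ := by
  have h2 := (h.cov a ha r h1.1).2
  have h3 := (h.cov b hb r h1.2.1).2
  rw [h1.2.2] at h3
  rw [← sub_sub_sub_cancel_right _ _ (c r a), two_mul]
  exact (norm_sub_le _ _).trans (add_le_add h3 h2)

/-- The cells of a pair of points. -/
noncomputable def pl (K : ℕ) (y d : Ω → Fin m → ℝ) (j j' : ℕ) (v : Ω × Ω) :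
    (Fin m → ℝ) × (Fin m → ℝ) := (cell (pt K y d j v.1), cell (pt K y d j' v.2))

/-- A point of the plane of two lines. -/
noncomputable def nu (K : ℕ) (y d : Ω → Fin m → ℝ) (r j : ℕ) (k : ℤ) (v : Ω × Ω) : Fin m → ℝ :=
  pt K y d r v.1 + (((j : ℝ) - r) / K) • d v.2 + ((k : ℝ) / K) • d v.1

/-- The label `f` is heavy at `v`. -/
def Hv {Θ : Type} [Fintype Θ] (ν : Θ → ℝ) (f : Θ → ι) (g : ℝ) (v : Θ) : Prop :=
  exp g < ms ν fun v' => f v' = f v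

/-- A range of integers. -/
noncomputable def rg (K : ℕ) (x : ℝ) : Finset ℤ :=
  fl (near 0 (K * exp x)) fun k => K * exp (- x) ≤ |(k : ℝ)|

theorem mem_rg {K : ℕ} {x : ℝ} {k : ℤ} :
    k ∈ rg K x ↔ |(k : ℝ)| ≤ K * exp x ∧ K * exp (- x) ≤ |(k : ℝ)| := by
  rw [rg, mem_fl, near, mem_Icc, Int.ceil_le, Int.le_floor, abs_le, zero_sub, zero_add]

theorem card_rg {K : ℕ} {x : ℝ} (hK : 1 ≤ (K : ℝ)) (hx : 0 ≤ x) :
    ((rg K x).card : ℝ) ≤ 3 * (K * exp x) := by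
  have h1 : 1 ≤ K * exp x := one_le_mul_of_one_le_of_one_le hK (one_le_exp hx)
  exact (card_fl_le _ _).trans ((card_near _ (by linarith)).trans
    (by linarith))

theorem rg_mono {K : ℕ} {x x' : ℝ} (h : x ≤ x') : rg K x ⊆ rg K x' := fun _ hk =>
  mem_rg.2 ⟨(mem_rg.1 hk).1.trans
      (mul_le_mul_of_nonneg_left (exp_le_exp.2 h) (Nat.cast_nonneg _)),
    (mul_le_mul_of_nonneg_left (exp_le_exp.2 (neg_le_neg h)) (Nat.cast_nonneg _)).trans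
      (mem_rg.1 hk).2⟩

theorem floor_mem_rg {K : ℕ} {x z : ℝ} (hx : 0 ≤ x) (hK : 2 * exp x ≤ K)
    (h1 : |z| ≤ K * exp x) (h2 : K * exp (- x) ≤ |z|) : ⌊z⌋ ∈ rg K (x + 1) := by
  have a1 := Int.floor_le z
  have a2 := Int.lt_floor_add_one z
  have a3 : |(⌊z⌋ : ℝ) - z| ≤ 1 := abs_le.2 ⟨by linarith, by linarith⟩
  have a4 := abs_sub_abs_le_abs_sub (⌊z⌋ : ℝ) z
  have a5 := abs_sub_abs_le_abs_sub z (⌊z⌋ : ℝ)
  rw [abs_sub_comm] at a5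
  have b1 := one_le_exp hx
  have b2 : 2 ≤ K * exp (- x) := by
    rw [exp_neg, ← div_eq_mul_inv, le_div_iff₀ (exp_pos x)]
    exact hK
  have b3 := mul_le_mul_of_nonneg_left (two_le_exp (le_refl (x + 1))) (Nat.cast_nonneg (α := ℝ) K)
  have b4 := mul_le_mul_of_nonneg_left
    (two_le_exp (by linarith : - (x + 1) + 1 ≤ - x)) (Nat.cast_nonneg (α := ℝ) K)
  refine mem_rg.2 ⟨?_, ?_⟩
  · nlinarith
  · linarith

theorem card_far {K : ℕ} {S : Finset ℕ} (hS : S ⊆ range K) (z ρ : ℝ) (hρ : 1 ≤ ρ) :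
    (S.card : ℝ) ≤ (fl S fun j : ℕ => ρ ≤ |(j : ℝ) - z|).card + 3 * ρ := by
  rw [card_fl_add S fun j : ℕ => ρ ≤ |(j : ℝ) - z|]
  refine add_le_add_right (le_trans (Nat.cast_le.2 (card_le_card fun j hj => ?_))
    (card_close K z ρ hρ)) _
  exact mem_fl.2 ⟨hS (mem_fl.1 hj).1, (mem_fl.1 hj).2⟩

end Pool.Agent.Work.MP_72ad00_an.H
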