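import Pool.Agent.Work.MP_72ad00_an.H.PK3
import Pool.Agent.Work.MP_72ad00_an.Main

/-!
From the robust plane inequality to Hausdorff dimension.
-/

set_option autoImplicit false

open Finset Real MeasureTheory
open scoped ENNReal NNReal

namespace Pool.Agent.Work.MP_72ad00_an.H

open Pool.Agent.Lib.PFR

theorem pigeon {α : Type} [MeasurableSpace α] (μ : Measure α) {B : Set α} (A : ℕ → Set α)
    (h : B ⊆ ⋃ k, A k) (f : ℕ → ℝ≥0∞) (hf : ∑' k, f k < μ B) : ∃ k, f k ≤ μ (A k) := by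
  by_contra! h1
  exact absurd ((measure_mono h).trans ((measure_iUnion_le A).trans
    (ENNReal.tsum_le_tsum fun k => (h1 k).le))) (not_le.2 hf)

/-- The unit cube. -/
def cube (ι : Type) : Set (ι → ℝ) := Set.pi Set.univ fun _ => Set.Ico 0 1

theorem vol_cube (ι : Type) [Fintype ι] : volume (cube ι) = 1 := by
  rw [cube, volume_pi_Ico]
  simp

theorem grid {ι : Type} [Fintype ι] [DecidableEq ι] {A : Set (ι → ℝ)} (hA : A ⊆ cube ι) {K : ℕ}
    (hK : (0 : ℝ) < K) {f : ℝ} (h : ENNReal.ofReal f ≤ volume A) :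
    f * K ^ Fintype.card ι ≤
      (fl univ fun k : ι → Fin K => ∃ z ∈ A, ∀ l, |K * z l - (k l : ℕ)| ≤ 1).card := by
  set G := fl univ fun k : ι → Fin K => ∃ z ∈ A, ∀ l, |K * z l - (k l : ℕ)| ≤ 1 with hG
  have h1 : A ⊆ ⋃ k ∈ G, Set.pi Set.univ fun l =>
      Set.Ico (((k l : ℕ) : ℝ) / K) (((k l : ℕ) + 1) / K) := by
    intro z hz
    have h2 : ∀ l, 0 ≤ K * z l := fun l => mul_nonneg hK.le (hA hz l trivial).1
    have h3 : ∀ l, ⌊K * z l⌋₊ < K := fun l =>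
      (Nat.floor_lt (h2 l)).2 (mul_lt_of_lt_one_right hK (hA hz l trivial).2)
    refine Set.mem_iUnion₂.2 ⟨fun l => ⟨_, h3 l⟩, mem_fl.2 ⟨mem_univ _, z, hz, fun l => ?_⟩,
      fun l _ => ⟨?_, ?_⟩⟩
    · rw [abs_le]
      constructor <;> linarith only [h3, h2, Nat.floor_le (h2 l), Nat.lt_floor_add_one (K * z l)]
    · rw [div_le_iff₀ hK, mul_comm]
      exact Nat.floor_le (h2 l)
    · rw [lt_div_iff₀ hK, mul_comm]
      exact Nat.lt_floor_add_one _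
  have h2 := h.trans ((measure_mono h1).trans (measure_biUnion_finset_le _ _))
  have h3 : ∀ k : ι → Fin K, volume (Set.pi Set.univ fun l =>
      Set.Ico (((k l : ℕ) : ℝ) / K) (((k l : ℕ) + 1) / K)) =
      ENNReal.ofReal ((K : ℝ)⁻¹ ^ Fintype.card ι) := fun k => by
    rw [volume_pi_Ico, ENNReal.ofReal_pow (by positivity), ← card_univ, ← prod_const]
    refine prod_congr rfl fun l _ => ?_
    congr 1
    field_simp
    ring
  simp only [h3] at h2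
  rw [sum_const, nsmul_eq_mul, ← ENNReal.ofReal_natCast, ← ENNReal.ofReal_mul (Nat.cast_nonneg _),
    ENNReal.ofReal_le_ofReal_iff (by positivity), inv_pow, ← div_eq_mul_inv,
    le_div_iff₀ (by positivity)] at h2
  exact h2

theorem cover_scales {X : Type} [MetricSpace X] [MeasurableSpace X] [BorelSpace X] [Nonempty X]
    {E : Set X} {s : ℝ} (hs : 0 ≤ s) (h : μH[s] E = 0) (j : ℕ) : ∃ T : ℕ → Finset X,
    (∀ k, ((T k).card : ℝ) ≤ 1 + (2 ^ (k + 1 + j)) ^ s) ∧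
      ∀ z ∈ E, ∃ k, ∃ c ∈ T k, dist z c ≤ (2 ^ (k + j))⁻¹ := by
  classical
  have h1 := (le_iSup₂_of_le (ENNReal.ofReal (2 ^ j)⁻¹) (ENNReal.ofReal_pos.2 (by positivity))
    le_rfl).trans_lt (((Measure.hausdorffMeasure_apply s E).symm.trans h).trans_lt zero_lt_one)
  simp only [iInf_lt_iff] at h1
  obtain ⟨t, ht, hd, hsum⟩ := h1
  have hc : ∀ i, ∃ c : X, (t i).Nonempty → c ∈ t i := fun i => by
    by_cases h2 : (t i).Nonempty
    · exact ⟨h2.some, fun _ => h2.some_mem⟩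
    · exact ⟨Classical.arbitrary X, fun h3 => absurd h3 h2⟩
  choose c hc using hc
  choose hf hcard using fun k => ENNReal.finset_card_const_le_le_of_tsum_le ENNReal.one_ne_top
    hsum.le (ε := ENNReal.ofReal ((2 ^ (k + 1 + j))⁻¹ ^ s))
    (ENNReal.ofReal_pos.2 (by positivity)).ne'
  refine ⟨fun k => (insert k (hf k).toFinset).image c, fun k => ?_, fun z hz => ?_⟩
  · refine (Nat.cast_le.2 (card_image_le.trans (card_insert_le _ _))).trans ?_
    have h2 := hcard k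
    generalize (hf k).toFinset.card = N at h2 ⊢
    rw [one_div, ← ENNReal.ofReal_inv_of_pos (by positivity), ← ENNReal.ofReal_natCast,
      ENNReal.ofReal_le_ofReal_iff (by positivity), inv_rpow (by positivity), inv_inv] at h2
    push_cast
    linarith
  obtain ⟨i, hi⟩ := Set.mem_iUnion.1 (ht hz)
  set P : ℕ → Prop := fun k => Metric.ediam (t i) ≤ ENNReal.ofReal (2 ^ (k + j))⁻¹ with hP
  have h2 : P (Nat.findGreatest P i) :=
    Nat.findGreatest_spec (Nat.zero_le i) (by simpa [hP] using hd i)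
  refine ⟨Nat.findGreatest P i, c i, mem_image_of_mem _ ?_, ?_⟩
  · rcases (Nat.findGreatest_le (P := P) i).eq_or_lt with h3 | h3
    · exact mem_insert.2 (Or.inl h3.symm)
    · have h4 := not_le.1 (Nat.findGreatest_is_greatest (P := P) (Nat.lt_succ_self _) h3)
      refine mem_insert_of_mem ((hf _).mem_toFinset.2 ?_)
      refine le_trans ?_ (le_iSup (fun _ : (t i).Nonempty => Metric.ediam (t i) ^ s) ⟨z, hi⟩)
      rw [← ENNReal.ofReal_rpow_of_nonneg (by positivity) hs]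
      exact ENNReal.rpow_le_rpow h4.le hs
  · have h3 := (Metric.edist_le_ediam_of_mem hi (hc i ⟨z, hi⟩)).trans h2
    rwa [edist_le_ofReal (by positivity)] at h3

theorem card_box {ι : Type} [Fintype ι] [DecidableEq ι] (K : ℕ) (z : ι → ℝ) :
    ((fl univ fun k : ι → Fin K => ∀ l, |((k l : ℕ) : ℝ) - z l| ≤ 2).card : ℝ) ≤
      exp (2 * Fintype.card ι) := by
  have h1 : (fl univ fun k : ι → Fin K => ∀ l, |((k l : ℕ) : ℝ) - z l| ≤ 2).card ≤
      (Fintype.piFinset fun l => near (z l) 2).card :=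
    card_le_card_of_injOn (fun k l => ((k l : ℕ) : ℤ)) (fun k hk => mem_coe.2
      (Fintype.mem_piFinset.2 fun l => mem_near (by
        exact_mod_cast (mem_fl.1 (mem_coe.1 hk)).2 l)))
      fun k _ k' _ h => funext fun l => Fin.ext (Nat.cast_injective (R := ℤ) (congrFun h l))
  refine (Nat.cast_le.2 h1).trans ?_
  rw [Fintype.card_piFinset, mul_comm, exp_nat_mul]
  push_cast
  refine (prod_le_prod (g := fun _ => exp 2) (fun _ _ => Nat.cast_nonneg _)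
    fun l _ => (card_near _ zero_le_two).trans (by linarith only [e2])).trans ?_
  simp

theorem disc {m : ℕ} {c p : ℝ} (h : RPKp m c p) (h1 : c ≤ 1) {K : ℕ} {η n : ℝ}
    (hη : 4 * m + 10 ≤ η) (hK : exp (p * (2 * η)) ≤ K) (T : Finset ((Fin m → ℝ) × (ℝ × ℝ)))
    (hT : 81 * (T.card : ℝ) ≤ K ^ 2 * exp n) {Q : Set (Fin m ⊕ Fin m → ℝ)} (hQ : Q ⊆ cube _)
    (hQ1 : ENNReal.ofReal (exp (- η)) ≤ volume Q)
    (hQ2 : ∀ z ∈ Q, ∃ x : Fin m → ℝ, ENNReal.ofReal (exp (- η)) ≤ volume {u ∈ cube (Fin 2) |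
      ∃ e ∈ T, dist (x + u 0 • (z ∘ Sum.inl) + u 1 • (z ∘ Sum.inr), (u 0, u 1)) e ≤ (K : ℝ)⁻¹}) :
    (1 - c) * (m * log K) ≤ n + (2 * p + 2) * η := by
  classical
  have hK0 : (0 : ℝ) < K := (exp_pos _).trans_le hK
  have m0 := Nat.cast_nonneg (α := ℝ) m
  choose! x hx using hQ2
  set G : (Fin m ⊕ Fin m → Fin K) → Prop := fun k => ∃ z ∈ Q, ∀ l, |K * z l - (k l : ℕ)| ≤ 1 with hG
  have hz : ∀ k, ∃ z ∈ cube (Fin m ⊕ Fin m), G k → z ∈ Q ∧ ∀ l, |K * z l - (k l : ℕ)| ≤ 1 := by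
    intro k
    by_cases h2 : G k
    · obtain ⟨z, z1, z2⟩ := h2
      exact ⟨z, hQ z1, fun _ => ⟨z1, z2⟩⟩
    · exact ⟨0, fun _ _ => ⟨le_rfl, zero_lt_one⟩, fun h3 => absurd h3 h2⟩
  choose z hz1 hz2 using hz
  have hn : ∀ k (f : Fin m → Fin m ⊕ Fin m), ‖z k ∘ f‖ ≤ 1 := fun k f =>
    (pi_norm_le_iff_of_nonneg zero_le_one).2 fun l => by
      rw [Function.comp_apply, Real.norm_of_nonneg (hz1 k _ trivial).1]
      exact (hz1 k _ trivial).2.le
  have x1 : 7 ≤ exp (2 * η) := e2.trans (exp_le_exp.2 (by linarith only [hη]))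
  have hn' : ∀ k (f : Fin m → Fin m ⊕ Fin m), ‖(K : ℝ) • (z k ∘ f)‖ ≤ exp (2 * η) * K := by
    intro k f
    rw [norm_smul, Real.norm_of_nonneg hK0.le, mul_comm]
    exact mul_le_mul_of_nonneg_right ((hn k f).trans (by linarith)) hK0.le
  have hG1 : ∀ k, ind (G k) ≠ 0 → G k := fun k h2 => by_contra fun h3 => h2 (ind_neg h3)
  have hc2 : ∀ v v' : Fin m → ℝ, ms (fun k => ind (G k)) (fun k =>
      ‖(K : ℝ) • (z k ∘ Sum.inl) - v‖ ≤ 1 ∧ ‖(K : ℝ) • (z k ∘ Sum.inr) - v'‖ ≤ 1) ≤ exp (4 * m) := by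
    intro v v'
    refine le_trans ?_ ((card_box K (Sum.elim v v')).trans (exp_le_exp.2 (by simp; linarith)))
    rw [card_fl_eq, ms]
    refine sum_le_sum fun k _ => (ind_mul_le zero_le_one fun h2 h3 =>
      ⟨fun l => ?_, ind_le_one _⟩).trans (mul_one _).le
    have h4 := abs_le.1 ((hz2 k (hG1 k h2)).2 l)
    have h5 : |K * z k l - Sum.elim v v' l| ≤ 1 := by
      rcases l with l | l
      · exact (norm_le_pi_norm _ l).trans h3.1
      · exact (norm_le_pi_norm _ l).trans h3.2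
    rw [abs_le] at h5 ⊢
    constructor <;> linarith only [h4, h5, h4.1, h4.2, h5.1, h5.2]
  have key := h (2 * η) K _ (fun k => ind (G k)) (fun k => (K : ℝ) • x (z k))
    (fun k => (K : ℝ) • (z k ∘ Sum.inl)) (fun k => (K : ℝ) • (z k ∘ Sum.inr))
    (fun k => fl (range K ×ˢ range K) fun q => ∃ u : Fin 2 → ℝ, (∃ e ∈ T,
      dist (x (z k) + u 0 • (z k ∘ Sum.inl) + u 1 • (z k ∘ Sum.inr), (u 0, u 1)) e ≤ (K : ℝ)⁻¹) ∧
        |K * u 0 - q.1| ≤ 1 ∧ |K * u 1 - q.2| ≤ 1) (4 * m) (2 * (m * log K) - η)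
    (fun q => (fl T fun e => |(q.1 : ℝ) - K * e.2.1| ≤ 4 ∧ |(q.2 : ℝ) - K * e.2.2| ≤ 4).image
      fun e => (K : ℝ) • e.1) n ⟨by linarith only [hη], fun _ => ind_nonneg _, fun k => hn' k _,
      fun k => hn' k _, fun k => fl_subset _ _, fun k hk => ?_,
      fun v v' => (hc2 v v').trans (exp_le_exp.2 (by linarith)),
      fun _ v v' => (ms_mono (fun _ => ind_nonneg _) fun _ _ h2 => h2.2).trans (hc2 v v')⟩ hK
    (fun k hk q hq => ?_) ?_ ?_
  · linarith only [h1, hη, key, mul_nonneg_of_nonpos_of_nonpos (Mathlib.Tactic.Linarith.sub_nonpos_of_le (Mathlib.Tactic.Linarith.natCast_nonneg ℝ m)) (Mathlib.Tactic.Linarith.sub_nonpos_of_le h1), mul_nonneg_of_nonpos_of_nonpos (Mathlib.Tactic.Linarith.sub_nonpos_of_le h1) (Mathlib.Tactic.Linarith.sub_nonpos_of_le hη)]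
  · have h2 := grid (Set.sep_subset _ _) hK0 (hx _ (hz2 k (hG1 k hk)).1)
    rw [Fintype.card_fin, mul_comm, mul_exp_le] at h2
    refine h2.trans (mul_le_mul (exp_le_exp.2 (by linarith only [hη])) (Nat.cast_le.2
      (card_le_card_of_injOn (fun i => ((i 0 : ℕ), (i 1 : ℕ))) (fun i hi => ?_)
        fun i _ i' _ h3 => ?_)) (Nat.cast_nonneg _) (exp_pos _).le)
    · obtain ⟨u, u1, u2⟩ := (mem_fl.1 (mem_coe.1 hi)).2
      exact mem_coe.2 (mem_fl.2 ⟨mem_product.2 ⟨mem_range.2 (i 0).2, mem_range.2 (i 1).2⟩,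
        u, u1.2, u2 0, u2 1⟩)
    · rw [Prod.ext_iff] at h3
      exact funext (Fin.forall_fin_two.2 ⟨Fin.ext h3.1, Fin.ext h3.2⟩)
  · obtain ⟨u, ⟨e, e1, e2⟩, u1, u2⟩ := (mem_fl.1 hq).2
    rw [Prod.dist_eq, Prod.dist_eq, max_le_iff, max_le_iff, dist_eq_norm, Real.dist_eq,
      Real.dist_eq] at e2
    have k1 : ∀ s s' r : ℝ, |s - s'| ≤ (K : ℝ)⁻¹ → |K * s - r| ≤ 1 → |r - K * s'| ≤ 4 := by
      intro s s' r a1 a2
      have a3 := mul_le_mul_of_nonneg_left a1 hK0.le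
      rw [mul_inv_cancel₀ hK0.ne', ← abs_of_pos hK0, ← abs_mul, mul_sub] at a3
      rw [abs_le] at a2 a3 ⊢
      constructor <;> linarith only [a2, a3, a2.1, a2.2, a3.1, a3.2]
    refine ⟨_, mem_image_of_mem _ (mem_fl.2 ⟨e1, k1 _ _ _ e2.2.1 u1, k1 _ _ _ e2.2.2 u2⟩), ?_⟩
    have e0 : pp K (fun k => (K : ℝ) • x (z k)) (fun k => (K : ℝ) • (z k ∘ Sum.inl))
        (fun k => (K : ℝ) • (z k ∘ Sum.inr)) q k - (K : ℝ) • e.1 =
        (K : ℝ) • (x (z k) + u 0 • (z k ∘ Sum.inl) + u 1 • (z k ∘ Sum.inr) - e.1) -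
          (K * u 0 - q.1) • (z k ∘ Sum.inl) - (K * u 1 - q.2) • (z k ∘ Sum.inr) := by
      simp only [pp]
      match_scalars <;> field_simp
      all_goals ring
    rw [e0]
    refine (norm_sub_le _ _).trans ((add_le_add_left (norm_sub_le _ _) _).trans ?_)
    simp only [norm_smul, Real.norm_eq_abs, abs_of_pos hK0]
    have a3 := mul_le_mul_of_nonneg_left e2.1 hK0.le
    rw [mul_inv_cancel₀ hK0.ne'] at a3
    linarith only [x1, a3, u1, hn, u2, mul_le_mul u1 (hn k Sum.inl) (norm_nonneg _) zero_le_one,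
      mul_le_mul u2 (hn k Sum.inr) (norm_nonneg _) zero_le_one]
  · refine le_trans (sum_le_sum fun q _ => (Nat.cast_le.2 card_image_le).trans
      (card_fl_eq _ _).le) (le_trans ?_ hT)
    rw [sum_comm, mul_comm]
    refine sum_bound rfl fun e _ => ?_
    simp only [ind_and, sum_product, ← mul_sum, ← sum_mul, ← card_fl_eq]
    exact (mul_le_mul (card_four _ _) (card_four _ _) (Nat.cast_nonneg _) (by norm_num)).trans
      (by norm_num)
  · have h2 := grid hQ hK0 hQ1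
    rw [card_fl_eq] at h2
    refine le_trans (le_of_eq ?_) h2
    rw [sub_eq_add_neg, exp_add, mul_comm, ← mul_assoc, mul_comm _ (log _), ← rpow_def_of_pos hK0,
      ← rpow_natCast]
    congr 2
    simp
    ring

theorem haus {m : ℕ} {c : ℝ} (h : RPK m c) (h0 : 0 ≤ c) (h1 : c ≤ 1)
    {E : Set ((Fin m → ℝ) × (ℝ × ℝ))}
    (hE : ∀ a b : Fin m → ℝ, ∃ x : Fin m → ℝ, ∀ u : ℝ × ℝ, (x + u.1 • a + u.2 • b, u) ∈ E) :
    ENNReal.ofReal (2 + (1 - c) * m) ≤ dimH E := by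
  obtain ⟨p, p1, h⟩ := h
  by_contra! h2
  obtain ⟨s, s1, s2⟩ := ENNReal.lt_iff_exists_nnreal_btwn.1 h2
  rw [ENNReal.coe_lt_ofReal] at s2
  have m0 := Nat.cast_nonneg (α := ℝ) m
  have L0 : 0 < log 2 := log_pos one_lt_two
  obtain ⟨γ, γ0, γ1, γ2⟩ : ∃ γ : ℝ, 0 < γ ∧ γ ≤ 1 ∧ s + γ ≤ 2 + (1 - c) * m :=
    ⟨min 1 (2 + (1 - c) * m - s), lt_min one_pos (by linarith), min_le_left _ _,
      by linarith [min_le_right 1 (2 + (1 - c) * m - s)]⟩
  obtain ⟨ε, ε0, hε⟩ : ∃ ε : ℝ, 0 < ε ∧ (2 * p + 4) * ε = γ * log 2 :=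
    ⟨γ * log 2 / (2 * p + 4), by positivity, mul_div_cancel₀ _ (by linarith)⟩
  have hsum : ∑' k : ℕ, ENNReal.ofReal (exp (- (ε * k))) ≠ ∞ := by
    refine Summable.tsum_ofReal_ne_top ?_
    simpa [← exp_nat_mul, mul_comm] using summable_geometric_of_lt_one (exp_pos (- ε)).le
      (exp_lt_one_iff.2 (by linarith))
  obtain ⟨j, j1, j2⟩ := (((ENNReal.tendsto_sum_nat_add _ hsum).eventually
    (gt_mem_nhds zero_lt_one)).and (Filter.eventually_ge_atTop ⌈(4 * m + 10) / ε⌉₊)).exists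
  have j3 := (div_le_iff₀ ε0).1 (Nat.ceil_le.1 j2)
  obtain ⟨T, hT1, hT2⟩ := cover_scales (s := (s : ℝ)) s.2 (hausdorffMeasure_of_dimH_lt s1) j
  choose x hx using hE
  obtain ⟨k, hk⟩ := pigeon volume (B := cube (Fin m ⊕ Fin m)) (fun k => {z ∈ cube (Fin m ⊕ Fin m) |
    ENNReal.ofReal (exp (- (ε * (k + j : ℕ)))) ≤ volume {u ∈ cube (Fin 2) | ∃ e ∈ T k,
      dist (x (z ∘ Sum.inl) (z ∘ Sum.inr) + u 0 • (z ∘ Sum.inl) + u 1 • (z ∘ Sum.inr),
        (u 0, u 1)) e ≤ (2 ^ (k + j))⁻¹}}) (fun z hz => by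
    obtain ⟨k, hk⟩ := pigeon volume (B := cube (Fin 2)) (fun k => {u ∈ cube (Fin 2) | ∃ e ∈ T k,
      dist (x (z ∘ Sum.inl) (z ∘ Sum.inr) + u 0 • (z ∘ Sum.inl) + u 1 • (z ∘ Sum.inr),
        (u 0, u 1)) e ≤ (2 ^ (k + j))⁻¹}) (fun u hu => by
      obtain ⟨k, hk⟩ := hT2 _ (hx (z ∘ Sum.inl) (z ∘ Sum.inr) (u 0, u 1))
      exact Set.mem_iUnion.2 ⟨k, hu, hk⟩) _ (j1.trans_eq (vol_cube _).symm)
    exact Set.mem_iUnion.2 ⟨k, hz, hk⟩) _ (j1.trans_eq (vol_cube _).symm)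
  have k0 := Nat.cast_nonneg (α := ℝ) k
  have j0 := Nat.cast_nonneg (α := ℝ) j
  have hK : ((2 ^ (k + j) : ℕ) : ℝ) = exp ((k + j : ℕ) * log 2) := by
    rw [exp_nat_mul, exp_log two_pos]
    push_cast
    rfl
  have hs0 : (0 : ℝ) ≤ s := s.2
  have L1 : log 2 ≤ 1 := by linarith only [log_le_sub_one_of_pos two_pos]
  have key := disc h h1 (K := 2 ^ (k + j)) (η := ε * (k + j : ℕ))
    (n := (s - 2) * ((k + j : ℕ) * log 2) + (m + 8)) (by push_cast; linarith only [j3, ε0, mul_nonneg_of_nonpos_of_nonpos (Mathlib.Tactic.Linarith.sub_nonpos_of_le (Mathlib.Tactic.Linarith.natCast_nonneg ℝ k)) (le_of_lt (Mathlib.Tactic.Linarith.sub_neg_of_lt ε0))]) ?_ (T k) ?_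
    (Set.sep_subset _ _) hk fun z hz => ⟨_, by exact_mod_cast hz.2⟩
  · rw [hK, log_exp] at key
    have a1 : (0 : ℝ) < (k + j : ℕ) := by push_cast; (refine lt_of_not_ge fun h_nl => ?_; linarith only [h_nl, j3, ε0, mul_nonneg_of_nonpos_of_nonpos (Mathlib.Tactic.Linarith.sub_nonpos_of_le (Mathlib.Tactic.Linarith.natCast_nonneg ℝ k)) (le_of_lt (Mathlib.Tactic.Linarith.sub_neg_of_lt ε0)), mul_nonneg_of_nonpos_of_nonpos (le_of_lt (Mathlib.Tactic.Linarith.sub_neg_of_lt ε0)) (Mathlib.Tactic.Linarith.sub_nonpos_of_le h_nl)])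
    have a2 : 4 * m + 10 ≤ ε * (k + j : ℕ) := by push_cast; linarith only [j3, ε0, mul_nonneg_of_nonpos_of_nonpos (Mathlib.Tactic.Linarith.sub_nonpos_of_le (Mathlib.Tactic.Linarith.natCast_nonneg ℝ k)) (le_of_lt (Mathlib.Tactic.Linarith.sub_neg_of_lt ε0))]
    generalize ((k + j : ℕ) : ℝ) = J at *
    have a3 := mul_le_mul_of_nonneg_right γ2 (mul_pos a1 L0).le
    have a4 : γ * (J * log 2) = (2 * p + 4) * (ε * J) := by linear_combination (- J) * hε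
    linarith only [key, a2, a3, a4]
  · rw [hK, exp_le_exp]
    have a1 : (0 : ℝ) ≤ (k + j : ℕ) := Nat.cast_nonneg _
    linarith only [a1, ε0, hε, γ1, L0, mul_le_mul_of_nonneg_right γ1 L0.le, mul_nonneg a1 ε0.le, Mathlib.Tactic.Linarith.mul_zero_eq (Mathlib.Tactic.Linarith.sub_nonpos_of_le (Mathlib.Tactic.Linarith.natCast_nonneg ℝ (k + j))) (sub_eq_zero_of_eq hε), mul_nonneg_of_nonpos_of_nonpos (Mathlib.Tactic.Linarith.sub_nonpos_of_le (Mathlib.Tactic.Linarith.natCast_nonneg ℝ (k + j))) (Mathlib.Tactic.Linarith.sub_nonpos_of_le (mul_le_mul_of_nonneg_right γ1 (LT.lt.le L0)))]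
  · have a1 : ((2 : ℝ) ^ (k + 1 + j)) ^ (s : ℝ) = exp (s * ((k + j : ℕ) * log 2) + s * log 2) := by
      rw [rpow_def_of_pos (by positivity), log_pow]
      congr 1
      push_cast
      ring
    have a2 : 0 ≤ (s : ℝ) * ((k + j : ℕ) * log 2) := by positivity
    have a3 : (s : ℝ) * log 2 ≤ m + 2 := by linarith only [s2, h0, L1, mul_nonneg_of_nonpos_of_nonpos (Mathlib.Tactic.Linarith.sub_nonpos_of_le (Mathlib.Tactic.Linarith.natCast_nonneg ℝ m)) (Mathlib.Tactic.Linarith.sub_nonpos_of_le h0), mul_nonneg_of_nonpos_of_nonpos (Mathlib.Tactic.Linarith.sub_nonpos_of_le (NNReal.coe_nonneg s)) (Mathlib.Tactic.Linarith.sub_nonpos_of_le L1)]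
    have a4 := hT1 k
    rw [a1] at a4
    rw [hK, ← exp_nat_mul, ← exp_add]
    have a5 := one_le_exp (by positivity : 0 ≤ (s : ℝ) * ((k + j : ℕ) * log 2) + s * log 2)
    have a6 := c6_le_exp (by push_cast; linarith only [a3] : s * ((k + j : ℕ) * log 2) + s * log 2 + 6 ≤
      (2 : ℕ) * ((k + j : ℕ) * log 2) + ((s - 2) * ((k + j : ℕ) * log 2) + (m + 8)))
    linarith only [a4, a5, a6]

theorem main_haus {c : ℝ} (hp : ∀ m : ℕ, RPK m c) (h0 : 0 ≤ c) (h1 : c ≤ 1) (n : ℕ) (hn : 2 ≤ n)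
    (E : Set (EuclideanSpace ℝ (Fin n)))
    (hE : ∀ V : Submodule ℝ (EuclideanSpace ℝ (Fin n)), Module.finrank ℝ V = 2 →
      ∃ x, ∀ v ∈ V, x + v ∈ E) : ENNReal.ofReal ((n : ℝ) - c * ((n : ℝ) - 2)) ≤ dimH E := by
  obtain ⟨m, rfl⟩ := Nat.exists_eq_add_of_le' hn
  have e1 : (((m + 2 : ℕ) : ℝ) - c * (((m + 2 : ℕ) : ℝ) - 2)) = 2 + (1 - c) * m := by
    push_cast
    ring
  rw [e1]
  refine (haus (hp m) h0 h1 (E := crd '' E) fun a b => ?_).trans
    ((LipschitzWith.of_dist_le_mul (K := 1) fun z z' => by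
      simpa using crd_dist z z').dimH_image_le E)
  obtain ⟨x, hx⟩ := exists_plane hE a b
  exact ⟨x, fun u => ⟨_, hx u, crd_emb _ _⟩⟩

end Pool.Agent.Work.MP_72ad00_an.H
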