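import Pool.Agent.Work.MP_72ad00_an.H.PL

/-!
The robust inequality for planes: definitions and concentration lemmas.
-/

set_option autoImplicit false

open Finset Real

namespace Pool.Agent.Work.MP_72ad00_an.H

open Pool.Agent.Lib.PFR

variable {m : ℕ}

/-- The point of a plane with parameter `q / K`. -/
noncomputable def pp {Ω : Type} (K : ℕ) (x a b : Ω → Fin m → ℝ) (q : ℕ × ℕ) (ω : Ω) : Fin m → ℝ :=
  x ω + ((q.1 : ℝ) / K) • a ω + ((q.2 : ℝ) / K) • b ω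

/-- A weighted family of planes with sets of good parameters. -/
structure PS {Ω : Type} [Fintype Ω] (ℓ : ℝ) (K : ℕ) (μ : Ω → ℝ) (x a b : Ω → Fin m → ℝ)
    (S : Ω → Finset (ℕ × ℕ)) (w t : ℝ) : Prop where
  l1 : 10 ≤ ℓ
  pos : ∀ ω, 0 ≤ μ ω
  an : ∀ ω, ‖a ω‖ ≤ exp ℓ * K
  bn : ∀ ω, ‖b ω‖ ≤ exp ℓ * K
  sub : ∀ ω, S ω ⊆ range K ×ˢ range K
  den : ∀ ω, μ ω ≠ 0 → (K : ℝ) ^ 2 ≤ exp ℓ * (S ω).card
  c2 : ∀ z z', ms μ (fun ω => ‖a ω - z‖ ≤ 1 ∧ ‖b ω - z'‖ ≤ 1) ≤ exp (t + ℓ - 2 * (m * log K))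
  c3 : ∀ z z' z'', ms μ (fun ω => ‖x ω - z‖ ≤ 1 ∧ ‖a ω - z'‖ ≤ 1 ∧ ‖b ω - z''‖ ≤ 1) ≤ exp w

variable (m) in
/-- The robust plane inequality with constant `c` and loss `p`. -/
def RPKp (c p : ℝ) : Prop :=
  ∀ (ℓ : ℝ) (K : ℕ) (Ω : Type) [Fintype Ω] (μ : Ω → ℝ) (x a b : Ω → Fin m → ℝ)
    (S : Ω → Finset (ℕ × ℕ)) (w t : ℝ) (Z : ℕ × ℕ → Finset (Fin m → ℝ)) (n : ℝ),
    PS ℓ K μ x a b S w t → exp (p * ℓ) ≤ K →
    (∀ ω, μ ω ≠ 0 → ∀ q ∈ S ω, ∃ z ∈ Z q, ‖pp K x a b q ω - z‖ ≤ exp ℓ) →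
    ∑ q ∈ range K ×ˢ range K, ((Z q).card : ℝ) ≤ K ^ 2 * exp n → exp t ≤ ∑ ω, μ ω →
    (1 - 3 * c) * (m * log K) + c * (t - w) ≤ n + p * ℓ

variable (m) in
/-- The robust plane inequality with constant `c`. -/
def RPK (c : ℝ) : Prop := ∃ p : ℝ, 1 ≤ p ∧ RPKp m c p

variable {Ω : Type} [Fintype Ω]

theorem card_sq (K : ℕ) : ((range K ×ˢ range K).card : ℝ) = K ^ 2 := by
  rw [card_product, card_range, Nat.cast_mul, sq]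

theorem conc3 {μ : Ω → ℝ} (hμ : ∀ ω, 0 ≤ μ ω) {x a b : Ω → Fin m → ℝ} {w : ℝ}
    (h : ∀ z z' z'', ms μ (fun ω => ‖x ω - z‖ ≤ 1 ∧ ‖a ω - z'‖ ≤ 1 ∧ ‖b ω - z''‖ ≤ 1) ≤ exp w)
    {s : ℝ} (hs : 0 ≤ s) (z z' z'' : Fin m → ℝ) :
    ms μ (fun ω => ‖x ω - z‖ ≤ 2 * exp s ∧ ‖a ω - z'‖ ≤ 2 * exp s ∧ ‖b ω - z''‖ ≤ 2 * exp s) ≤
      exp (3 * (m * (s + 2)) + w) := by
  have h1 : ∀ u u', ms μ (fun ω => (‖x ω - u‖ ≤ 1 ∧ ‖b ω - z''‖ ≤ 2 * exp s) ∧ ‖a ω - u'‖ ≤ 1) ≤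
      exp (m * (s + 2) + w) := fun u u' =>
    (ms_mono hμ fun _ _ h => ⟨⟨h.1.1, h.2⟩, h.1.2⟩).trans (conc1 hμ
      (E := fun ω => ‖x ω - u‖ ≤ 1 ∧ ‖a ω - u'‖ ≤ 1)
      (fun v => (ms_mono hμ fun _ _ h => and_assoc.1 h).trans (h u u' v)) hs z'')
  have h2 : ∀ u, ms μ (fun ω => (‖a ω - z'‖ ≤ 2 * exp s ∧ ‖b ω - z''‖ ≤ 2 * exp s) ∧
      ‖x ω - u‖ ≤ 1) ≤ exp (m * (s + 2) + (m * (s + 2) + w)) := fun u =>
    (ms_mono hμ fun _ _ h => ⟨⟨h.2, h.1.2⟩, h.1.1⟩).trans (conc1 hμ (h1 u) hs z')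
  refine (ms_mono hμ fun _ _ h => h.symm).trans ((conc1 hμ h2 hs z).trans (le_of_eq ?_))
  congr 1
  ring

theorem light2 {μ : Ω → ℝ} (hμ : ∀ ω, 0 ≤ μ ω) (u v : Ω → Fin m → ℝ) (g : ℝ) {s : ℝ} (hs : 0 ≤ s)
    (z z' : Fin m → ℝ) : ms μ (fun ω => ¬ Hv μ (fun ω => (cell (u ω), cell (v ω))) g ω ∧
      ‖u ω - z‖ ≤ 2 * exp s ∧ ‖v ω - z'‖ ≤ 2 * exp s) ≤ exp (2 * (m * (s + 2)) + g) := by
  obtain ⟨A1, a1, a2⟩ := exists_cells z hs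
  obtain ⟨A2, b1, b2⟩ := exists_cells z' hs
  rw [exp_add]
  refine ms_cover_le hμ (A1 ×ˢ A2) (fun q ω => (cell (u ω), cell (v ω)) = q ∧
    ¬ Hv μ (fun ω => (cell (u ω), cell (v ω))) g ω)
    (fun ω _ h => ⟨_, mem_product.2 ⟨a2 _ h.2.1, b2 _ h.2.2⟩, rfl, h.1⟩)
    (fun q _ => light_le hμ (fun ω => (cell (u ω), cell (v ω))) (exp_pos g).le q
      fun ω _ h => ⟨h.1, le_rfl, not_lt.1 h.2⟩) (exp_pos g).le ?_
  rw [card_product, Nat.cast_mul, two_mul, exp_add]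
  exact mul_le_mul a1 b1 (Nat.cast_nonneg _) (exp_pos _).le

theorem dir_cells {K : ℕ} (hK : (1 : ℝ) ≤ K) {ℓ : ℝ} (hl : 0 ≤ ℓ) : ∃ A : Finset (Fin m → ℝ),
    (A.card : ℝ) ≤ exp (m * log K + m * (ℓ + 2)) ∧ ∀ v, ‖v‖ ≤ exp ℓ * K → cell v ∈ A := by
  obtain ⟨A, h1, h2⟩ := exists_cells (0 : Fin m → ℝ) (x := log K + ℓ)
    (add_nonneg (log_nonneg hK) hl)
  refine ⟨A, h1.trans (le_of_eq (by congr 1; ring)), fun v hv => h2 v ?_⟩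
  rw [sub_zero, exp_add, exp_log (by linarith)]
  nlinarith [norm_nonneg v]

theorem norm_solve {a b u z : Fin m → ℝ} {s s' η : ℝ} (hs : exp (- η) ≤ |s|) (hs' : |s'| ≤ 2)
    (h1 : ‖s • a + s' • b - z‖ ≤ 1) (h2 : ‖b - u‖ ≤ 1) :
    ‖a - s⁻¹ • (z - s' • u)‖ ≤ 3 * exp η := by
  have s0 : s ≠ 0 := abs_pos.1 ((exp_pos _).trans_le hs)
  have e0 : a - s⁻¹ • (z - s' • u) = s⁻¹ • ((s • a + s' • b - z) - s' • (b - u)) := by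
    match_scalars <;> field_simp
    ring
  rw [e0, mul_comm]
  refine norm_inv_smul_le hs ((norm_sub_le _ _).trans ?_)
  rw [norm_smul, Real.norm_eq_abs]
  linarith [mul_le_mul hs' h2 (norm_nonneg _) zero_le_two]

theorem three_le {η : ℝ} : 3 * exp η ≤ 2 * exp (η + 1) := by
  linarith [two_le_exp (le_refl (η + 1)), exp_pos η]

theorem conc_dir {μ : Ω → ℝ} (hμ : ∀ ω, 0 ≤ μ ω) {a b : Ω → Fin m → ℝ} {w ℓ η s s' : ℝ} {K : ℕ}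
    (hK : (1 : ℝ) ≤ K) (hl : 0 ≤ ℓ) (hη : 0 ≤ η) (hb : ∀ ω, ‖b ω‖ ≤ exp ℓ * K)
    (h : ∀ z z', ms μ (fun ω => ‖a ω - z‖ ≤ 1 ∧ ‖b ω - z'‖ ≤ 1) ≤ exp w)
    (hs : exp (- η) ≤ |s|) (hs' : |s'| ≤ 2) (z : Fin m → ℝ) :
    ms μ (fun ω => ‖s • a ω + s' • b ω - z‖ ≤ 1) ≤
      exp (m * log K + m * (ℓ + 2) + (2 * (m * (η + 1 + 2)) + w)) := by
  obtain ⟨A, h1, h2⟩ := dir_cells (m := m) hK hl
  rw [exp_add]
  refine ms_cover_le hμ A (fun u ω => ‖a ω - s⁻¹ • (z - s' • u)‖ ≤ 2 * exp (η + 1) ∧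
    ‖b ω - u‖ ≤ 2 * exp (η + 1)) (fun ω _ h3 => ⟨_, h2 _ (hb ω), (norm_solve hs hs' h3
      (norm_sub_cell _)).trans three_le, (norm_sub_cell _).trans ?_⟩)
    (fun u _ => conc2 hμ h (by linarith) _ _) (exp_pos _).le h1
  linarith [one_le_exp (by linarith : 0 ≤ η + 1)]

theorem abs_div_le_one {K r : ℕ} (hr : r < K) : |(r : ℝ) / K| ≤ 1 := by
  have hK : (0 : ℝ) < K := by exact_mod_cast (Nat.zero_le r).trans_lt hr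
  rw [abs_of_nonneg (by positivity), div_le_one hK]
  exact_mod_cast hr.le

theorem sum_den {α : Type} {μ : Ω → ℝ} (hμ : ∀ ω, 0 ≤ μ ω) {S : Ω → Finset α} {R : Finset α}
    (hS : ∀ ω, S ω ⊆ R) {N ℓ : ℝ} (hd : ∀ ω, μ ω ≠ 0 → N ≤ exp ℓ * (S ω).card) :
    N * exp (- ℓ) * ∑ ω, μ ω ≤ ∑ r ∈ R, ms μ fun ω => r ∈ S ω := by
  classical
  rw [← sum_card_eq μ S _ hS, mul_sum]
  refine sum_le_sum fun ω _ => ?_
  rw [mul_comm]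
  rcases (hμ ω).eq_or_lt with h1 | h1
  · rw [← h1, zero_mul, zero_mul]
  · exact mul_le_mul_of_nonneg_left (mul_exp_le.2 (hd _ h1.ne')) h1.le

theorem RPK.one : RPK m 1 := by
  have m0 := Nat.cast_nonneg (α := ℝ) m
  refine ⟨1 + 7 * m, by linarith, fun ℓ K Ω _ μ x a b S w t Z n hP hK hc hn ht => ?_⟩
  have hl := hP.l1
  have hμ := hP.pos
  have f0 : 10 * (m : ℝ) ≤ m * ℓ := by nlinarith
  have hK1 : (1 : ℝ) ≤ K := (one_le_exp (by nlinarith)).trans hK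
  obtain ⟨A, h1, h2⟩ := dir_cells (m := m) hK1 (by linarith : 0 ≤ ℓ)
  have hX : (2.7 : ℝ) ≤ exp ℓ := e1.trans (exp_le_exp.2 (by linarith))
  have k1 := (mul_le_mul_of_nonneg_left ht (by positivity)).trans (sum_den hμ hP.sub hP.den)
  have k2 : ∀ q ∈ range K ×ˢ range K, ms μ (fun ω => q ∈ S ω) ≤ ((Z q).card : ℝ) *
      (exp (m * log K + m * (ℓ + 2)) * exp (m * log K + m * (ℓ + 2)) *
        exp (3 * (m * (ℓ + 2)) + w)) := by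
    intro q hq
    obtain ⟨q1, q2⟩ := mem_product.1 hq
    rw [← mul_assoc]
    refine ms_cover_le hμ (Z q ×ˢ A ×ˢ A) (fun u ω =>
      ‖x ω - (u.1 - ((q.1 : ℝ) / K) • u.2.1 - ((q.2 : ℝ) / K) • u.2.2)‖ ≤ 2 * exp ℓ ∧
        ‖a ω - u.2.1‖ ≤ 2 * exp ℓ ∧ ‖b ω - u.2.2‖ ≤ 2 * exp ℓ) (fun ω h3 h4 => ?_)
      (fun u _ => conc3 hμ hP.c3 (by linarith) _ _ _) (exp_pos _).le ?_
    · obtain ⟨z, z1, z2⟩ := hc ω h3 q h4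
      refine ⟨(z, cell (a ω), cell (b ω)), mem_product.2 ⟨z1, mem_product.2
        ⟨h2 _ (hP.an ω), h2 _ (hP.bn ω)⟩⟩, ?_, (norm_sub_cell _).trans (by linarith),
        (norm_sub_cell _).trans (by linarith)⟩
      have e0 : x ω - (z - ((q.1 : ℝ) / K) • cell (a ω) - ((q.2 : ℝ) / K) • cell (b ω)) =
          (pp K x a b q ω - z) - ((q.1 : ℝ) / K) • (a ω - cell (a ω)) -
            ((q.2 : ℝ) / K) • (b ω - cell (b ω)) := by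
        simp only [pp]
        module
      rw [e0]
      refine (norm_sub_le _ _).trans ((add_le_add_left (norm_sub_le _ _) _).trans ?_)
      simp only [norm_smul, Real.norm_eq_abs]
      linarith [mul_le_mul (abs_div_le_one (mem_range.1 q1)) (norm_sub_cell (a ω))
        (norm_nonneg _) zero_le_one, mul_le_mul (abs_div_le_one (mem_range.1 q2))
        (norm_sub_cell (b ω)) (norm_nonneg _) zero_le_one]
    · rw [card_product, card_product, Nat.cast_mul, Nat.cast_mul]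
      exact mul_le_mul_of_nonneg_left (mul_le_mul h1 h1 (Nat.cast_nonneg _) (exp_pos _).le)
        (Nat.cast_nonneg _)
  have k3 := k1.trans (sum_le_sum k2)
  rw [← sum_mul] at k3
  have k4 := k3.trans (mul_le_mul_of_nonneg_right hn (by positivity))
  rw [mul_assoc, mul_assoc] at k4
  have k5 := le_of_mul_le_mul_left k4 (by positivity)
  simp only [← exp_add, exp_le_exp] at k5
  linarith

theorem RPKp.thin {c p : ℝ} (h : RPKp m c p) (h1 : c ≤ 1) {ℓ : ℝ} {K : ℕ} {μ : Ω → ℝ}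
    {x a b : Ω → Fin m → ℝ} {S : Ω → Finset (ℕ × ℕ)} (Z : ℕ × ℕ → Finset (Fin m → ℝ))
    {n w t : ℝ} (hl : 10 ≤ ℓ) (hK : exp (p * (2 * ℓ)) ≤ K) (hμ : ∀ ω, 0 ≤ μ ω)
    (ha : ∀ ω, ‖a ω‖ ≤ exp ℓ * K) (hb : ∀ ω, ‖b ω‖ ≤ exp ℓ * K)
    (hS : ∀ ω, S ω ⊆ range K ×ˢ range K)
    (hc : ∀ ω, μ ω ≠ 0 → ∀ q ∈ S ω, ∃ z ∈ Z q, ‖pp K x a b q ω - z‖ ≤ exp ℓ)
    (hn : ∑ q ∈ range K ×ˢ range K, ((Z q).card : ℝ) ≤ K ^ 2 * exp n) (ht : ∑ ω, μ ω ≤ exp t)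
    (h2 : ∀ z z', ms μ (fun ω => ‖a ω - z‖ ≤ 1 ∧ ‖b ω - z'‖ ≤ 1) ≤ exp (t + ℓ - 2 * (m * log K)))
    (h3 : ∀ z z' z'', ms μ (fun ω => ‖x ω - z‖ ≤ 1 ∧ ‖a ω - z'‖ ≤ 1 ∧ ‖b ω - z''‖ ≤ 1) ≤ exp w)
    (hg : n + (2 * p + 2) * ℓ ≤ (1 - 3 * c) * (m * log K) + c * (t - w)) :
    ∑ ω, μ ω * (S ω).card ≤ K ^ 2 * (2 * exp (t - ℓ)) := by
  have hK0 : (0 : ℝ) < K := (exp_pos _).trans_le hK
  have hle : exp ℓ ≤ exp (2 * ℓ) := exp_le_exp.2 (by linarith)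
  refine (sum_le_thin hμ S (ℓ := ℓ) (by positivity) fun ω =>
    (Nat.cast_le.2 (card_le_card (hS ω))).trans (card_sq K).le).trans ?_
  rw [two_mul]
  refine mul_le_mul_of_nonneg_left (add_le_add ((mul_le_mul_of_nonneg_left ht
    (exp_pos _).le).trans (exp_mul_le (by linarith))) (not_lt.1 fun h4 => ?_)) (by positivity)
  set E : Ω → Prop := fun ω => (K : ℝ) ^ 2 ≤ exp ℓ * (S ω).card with hE
  have hE1 : ∀ ω, ind (E ω) * μ ω ≠ 0 → E ω ∧ μ ω ≠ 0 := fun ω h5 =>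
    ⟨by_contra fun h6 => h5 (by rw [ind_neg h6, zero_mul]), right_ne_zero_of_mul h5⟩
  have hE2 : ∀ ω, ind (E ω) * μ ω ≤ μ ω := fun ω => mul_le_of_le_one_left (hμ ω) (ind_le_one _)
  have h5 := h (2 * ℓ) K Ω (fun ω => ind (E ω) * μ ω) x a b S w (t - ℓ) Z n
    ⟨by linarith, fun ω => mul_nonneg (ind_nonneg _) (hμ ω),
      fun ω => (ha ω).trans (mul_le_mul_of_nonneg_right hle hK0.le),
      fun ω => (hb ω).trans (mul_le_mul_of_nonneg_right hle hK0.le), hS,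
      fun ω h5 => le_trans (hE1 ω h5).1 (mul_le_mul_of_nonneg_right hle (Nat.cast_nonneg _)),
      fun z z' => (ms_le hμ fun ω _ h6 => ⟨h6, hE2 ω⟩).trans ((h2 z z').trans
        (exp_le_exp.2 (by linarith))),
      fun z z' z'' => (ms_le hμ fun ω _ h6 => ⟨h6, hE2 ω⟩).trans (h3 z z' z'')⟩ hK
    (fun ω h5 q hq => by
      obtain ⟨z, z1, z2⟩ := hc ω (hE1 ω h5).2 q hq
      exact ⟨z, z1, z2.trans hle⟩) hn h4.le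
  nlinarith

end Pool.Agent.Work.MP_72ad00_an.H
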