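import Pool.Agent.Work.MP_72ad00_an.H.PK0

/-!
Light lines, light pairs of directions and light differences.
-/

set_option autoImplicit false

open Finset Real

namespace Pool.Agent.Work.MP_72ad00_an.H

open Pool.Agent.Lib.PFR

variable {m : ℕ} {Ω : Type}

/-- The coefficient of a direction. -/
noncomputable def cf (K i : ℕ) : ℝ := 4 * ((i : ℝ) / K) - 2

/-- A direction of a plane. -/
noncomputable def dr (K : ℕ) (a b : Ω → Fin m → ℝ) (e : ℕ × ℕ) (ω : Ω) : Fin m → ℝ :=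
  cf K e.1 • a ω + cf K e.2 • b ω

/-- Separation from the middle. -/
def sp (K : ℕ) (η : ℝ) (i : ℕ) : Prop := K * exp (- η) ≤ |(i : ℝ) - K / 2|

theorem cf_le {K i : ℕ} (h : i < K) : |cf K i| ≤ 2 := by
  have h1 := abs_div_le_one h
  have h2 : 0 ≤ (i : ℝ) / K := by positivity
  rw [abs_of_nonneg h2] at h1
  rw [cf, abs_le]
  constructor <;> linarith

theorem cf_ge {K i : ℕ} (hK : (0 : ℝ) < K) {η : ℝ} (h : sp K η i) : exp (- η) ≤ |cf K i| := by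
  have e : cf K i = 4 * (((i : ℝ) - K / 2) / K) := by
    rw [cf]
    field_simp
    ring
  rw [e, abs_mul, abs_of_pos (by norm_num : (0 : ℝ) < 4)]
  linarith [sep_div hK h, exp_pos (- η)]

theorem four_le {a z : Fin m → ℝ} (h : ‖(4 : ℝ) • a - z‖ ≤ 1) : ‖a - (4 : ℝ)⁻¹ • z‖ ≤ 1 := by
  have e : a - (4 : ℝ)⁻¹ • z = (4 : ℝ)⁻¹ • ((4 : ℝ) • a - z) := by module
  rw [e, norm_smul, Real.norm_eq_abs, abs_of_pos (by norm_num)]
  linarith [norm_nonneg ((4 : ℝ) • a - z)]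

theorem four_norm {a : Fin m → ℝ} {ℓ K : ℝ} (hl : 10 ≤ ℓ) (hK : 0 ≤ K) (h : ‖a‖ ≤ exp ℓ * K) :
    ‖(4 : ℝ) • a‖ ≤ exp (10 * ℓ) * K := by
  rw [norm_smul, Real.norm_eq_abs, abs_of_pos (by norm_num)]
  nlinarith [mul_le_mul_of_nonneg_right (c2_le_exp (by linarith : ℓ + 2 ≤ 10 * ℓ)) hK,
    mul_nonneg (exp_pos ℓ).le hK]

/-- The label of a line in a plane. -/
noncomputable def LA (K : ℕ) (x a b : Ω → Fin m → ℝ) (p e : ℕ × ℕ) (ω : Ω) :
    (Fin m → ℝ) × (Fin m → ℝ) := (cell (dr K a b e ω), cell (pp K x a b p ω))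

/-- The label of a pair of directions. -/
noncomputable def LB (K : ℕ) (a b : Ω → Fin m → ℝ) (e e' : ℕ × ℕ) (v : Ω × Ω) :
    (Fin m → ℝ) × (Fin m → ℝ) := (cell (dr K a b e' v.2), cell (dr K a b e v.1))

/-- The label of a difference of directions. -/
noncomputable def LN (K : ℕ) (a b : Ω → Fin m → ℝ) (e e' : ℕ × ℕ) (v : Ω × Ω) : Fin m → ℝ :=
  cell (dr K a b e v.1 - dr K a b e' v.2)

variable [Fintype Ω]

theorem ms_ind (μ : Ω → ℝ) (F E : Ω → Prop) :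
    ms (fun ω => ind (F ω) * μ ω) E = ms μ fun ω => F ω ∧ E ω :=
  sum_congr rfl fun ω _ => by rw [ind_and]; ring

omit [Fintype Ω] in
theorem ind_mul_nonneg {μ : Ω → ℝ} (hμ : ∀ ω, 0 ≤ μ ω) (F : Ω → Prop) (ω : Ω) :
    0 ≤ ind (F ω) * μ ω := mul_nonneg (ind_nonneg _) (hμ ω)

/-- A family of planes with uniformly few cells. -/
structure PU (ℓ : ℝ) (K : ℕ) (μ : Ω → ℝ) (x a b : Ω → Fin m → ℝ) (S : Ω → Finset (ℕ × ℕ))
    (w t : ℝ) (Z : ℕ × ℕ → Finset (Fin m → ℝ)) (c : ℕ × ℕ → Ω → Fin m → ℝ) (n : ℝ) : Prop where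
  ps : PS ℓ K μ x a b S w t
  zc : ∀ q, ((Z q).card : ℝ) ≤ exp n
  cov : ∀ ω, μ ω ≠ 0 → ∀ q ∈ S ω, c q ω ∈ Z q ∧ ‖pp K x a b q ω - c q ω‖ ≤ exp ℓ
  tot : ∑ ω, μ ω = exp t

/-- Pairs of planes through a common cell. -/
noncomputable def vp (μ : Ω → ℝ) (S : Ω → Finset (ℕ × ℕ)) (c : ℕ × ℕ → Ω → Fin m → ℝ) (θ : ℝ)
    (p : ℕ × ℕ) : Ω × Ω → ℝ := gv μ (fun ω => p ∈ S ω) (c p) θ

variable {ℓ : ℝ} {K : ℕ} {μ : Ω → ℝ} {x a b : Ω → Fin m → ℝ} {S : Ω → Finset (ℕ × ℕ)} {w t n : ℝ}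
  {Z : ℕ × ℕ → Finset (Fin m → ℝ)} {c : ℕ × ℕ → Ω → Fin m → ℝ}

theorem PU.close (h : PU ℓ K μ x a b S w t Z c n) {θ : ℝ} {p : ℕ × ℕ} {v : Ω × Ω}
    (hv : vp μ S c θ p v ≠ 0) : ‖pp K x a b p v.2 - pp K x a b p v.1‖ ≤ 2 * exp ℓ := by
  obtain ⟨a1, a2, a3, a4, a5⟩ := gv_ne hv
  have h2 := (h.cov _ a1 p a3).2
  have h3 := (h.cov _ a2 p a4).2
  rw [a5] at h3
  rw [← sub_sub_sub_cancel_right _ _ (c p v.1), two_mul]
  exact (norm_sub_le _ _).trans (add_le_add h3 h2)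

theorem PS.dir (h : PS ℓ K μ x a b S w t) (hK : (1 : ℝ) ≤ K) {e : ℕ × ℕ} (h1 : sp K (8 * ℓ) e.1)
    (h2 : e.2 < K) (z : Fin m → ℝ) :
    ms μ (fun ω => cell (dr K a b e ω) = z) ≤ exp (t - m * log K + (ℓ + 18 * (m * ℓ))) := by
  have hl := h.l1
  have f0 : 10 * (m : ℝ) ≤ m * ℓ := by nlinarith [Nat.cast_nonneg (α := ℝ) m]
  exact (ms_mono h.pos fun ω _ h3 => norm_of_cell h3).trans ((conc_dir h.pos hK (by linarith)
    (by linarith) h.bn h.c2 (cf_ge (by linarith) h1) (cf_le h2) z).trans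
    (exp_le_exp.2 (by linarith [Nat.cast_nonneg (α := ℝ) m])))

theorem light_A {β p : ℝ} (h : RKp m β p) (h0 : 1 / 2 ≤ β) (h1 : β ≤ 1)
    (hP : PS ℓ K μ x a b S w t) (ht : ∑ ω, μ ω ≤ exp t) (hK : exp (p * (10 * ℓ)) ≤ K)
    (hK1 : (1 : ℝ) ≤ K) {g : ℝ}
    (hg : (10 * p + 12 + 60 * m) * ℓ + β * t - (3 * β - 1) * (m * log K) + (1 - β) * w ≤ g)
    {e : ℕ × ℕ} (he : e.2 < K) {i : ℕ} (hi : i < K) :
    ∑ j ∈ range K, ms μ (fun ω => sp K (8 * ℓ) e.1 ∧ Hv μ (LA K x a b (i, j) e) g ω) ≤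
      K * (2 * exp (t - 10 * ℓ)) := by
  have hl := hP.l1
  have hμ := hP.pos
  have m0 := Nat.cast_nonneg (α := ℝ) m
  have f0 : 10 * (m : ℝ) ≤ m * ℓ := by nlinarith
  have hK0 : (0 : ℝ) < K := by linarith
  by_cases hs : sp K (8 * ℓ) e.1
  swap
  · rw [sum_eq_zero fun j _ => ms_eq_zero fun _ _ h2 => hs h2.1]
    positivity
  simp only [hs, true_and]
  rw [← sum_card_fl]
  choose A hA1 hA2 using fun j => exists_heavy hμ (LA K x a b (i, j) e) (g := g) ht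
  have x1 : 1 ≤ exp (8 * ℓ) := one_le_exp (by linarith)
  have x2 := two_le_exp (le_refl (8 * ℓ + 1))
  refine (h.cond h1 (y := fun ω => x ω + ((i : ℝ) / K) • a ω) (d := b)
    (fun ω => cell (dr K a b e ω)) A (n := t - g) (w0 := t - m * log K + (ℓ + 18 * (m * ℓ)))
    (w2 := t - 2 * (m * log K) + (ℓ + 17 * (m * ℓ))) (w1 := w + 25 * (m * ℓ)) (by linarith) hK hμ
    (fun ω => (hP.bn ω).trans (mul_le_mul_of_nonneg_right (exp_le_exp.2 (by linarith)) hK0.le))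
    (fun ω => fl_subset _ _) (fun ω _ j hj => ⟨_, hA2 j ω (mem_fl.1 hj).2,
      (norm_sub_cell _).trans (one_le_exp (by linarith))⟩) ?_ (hP.dir hK1 hs he) (fun u z => ?_)
    fun u z z' => ?_).trans (mul_le_mul_of_nonneg_left ?_ hK0.le)
  · refine (sum_le_sum fun j _ => hA1 j).trans ?_
    rw [sum_const, card_range, nsmul_eq_mul]
  · refine (ms_mono hμ fun ω _ h2 => ⟨(norm_solve (cf_ge hK0 hs) (cf_le he) (norm_of_cell h2.1)
      h2.2).trans three_le, h2.2.trans (by linarith)⟩).trans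
      ((conc2 hμ hP.c2 (by linarith) _ z).trans (exp_le_exp.2 (by linarith)))
  · refine (ms_mono hμ fun ω _ h2 => ⟨?_, (norm_solve (cf_ge hK0 hs) (cf_le he)
      (norm_of_cell h2.1) h2.2.2).trans three_le, h2.2.2.trans (by linarith)⟩).trans
      ((conc3 hμ hP.c3 (by linarith)
        (z - ((i : ℝ) / K) • (cf K e.1)⁻¹ • (u - cf K e.2 • z')) _ z').trans
        (exp_le_exp.2 (by linarith)))
    have h3 := norm_solve (cf_ge hK0 hs) (cf_le he) (norm_of_cell h2.1) h2.2.2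
    generalize (cf K e.1)⁻¹ • (u - cf K e.2 • z') = a0 at h3
    have e0 : x ω - (z - ((i : ℝ) / K) • a0) =
        (x ω + ((i : ℝ) / K) • a ω - z) - ((i : ℝ) / K) • (a ω - a0) := by module
    rw [e0]
    refine (norm_sub_le _ _).trans ?_
    rw [norm_smul, Real.norm_eq_abs]
    linarith [mul_le_mul (abs_div_le_one hi) h3 (norm_nonneg _) zero_le_one, h2.2.1]
  · rw [two_mul (exp _)]
    refine add_le_add ((mul_le_mul_of_nonneg_left ht (exp_pos _).le).trans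
      (exp_mul_le (by linarith))) (exp_le_exp.2 ?_)
    have f1 := mul_le_mul_of_nonneg_right (by linarith : 1 - β ≤ 1)
      (by linarith : 0 ≤ ℓ + 43 * (m * ℓ))
    have f2 := mul_le_mul_of_nonneg_right (by linarith : 2 * β - 1 ≤ 1)
      (by linarith : 0 ≤ ℓ + 17 * (m * ℓ))
    linarith

theorem vp_le (hμ : ∀ ω, 0 ≤ μ ω) (p : ℕ × ℕ) (u v : Ω) :
    vp μ S c (exp (t - n - 10 * ℓ)) p (u, v) ≤ exp (10 * ℓ + n - t) * μ u * μ v := by
  refine (gv_le hμ (exp_pos _) u v).trans (le_of_eq ?_)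
  rw [← exp_neg]
  congr 3
  ring

theorem light_J (hU : PU ℓ K μ x a b S w t Z c n) (g : ℝ) (p e : ℕ × ℕ) (z1 z2 z3 : Fin m → ℝ) :
    ms (vp μ S c (exp (t - n - 10 * ℓ)) p) (fun v => ¬ Hv μ (LA K x a b p e) g v.2 ∧
      ‖a v.1 - z1‖ ≤ 2 * exp (9 * ℓ) ∧ ‖b v.1 - z2‖ ≤ 2 * exp (9 * ℓ) ∧
      ‖dr K a b e v.2 - z3‖ ≤ 2 * exp (9 * ℓ)) ≤
      exp (11 * ℓ + 37 * (m * ℓ) + n - 2 * (m * log K) + g) := by
  have hl := hU.ps.l1
  have hμ := hU.ps.pos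
  have m0 := Nat.cast_nonneg (α := ℝ) m
  have f0 : 10 * (m : ℝ) ≤ m * ℓ := by nlinarith
  refine (ms2_le hμ hμ (exp_pos _).le (fun u v hv h2 => ⟨⟨⟨h2.2.1, h2.2.2.1⟩, h2.1, h2.2.2.2,
    (hU.close hv).trans (by linarith [exp_le_exp.2 (by linarith : ℓ ≤ 9 * ℓ)])⟩, vp_le hμ p u v⟩)
    (conc2 hμ hU.ps.c2 (by linarith) z1 z2)
    (fun u => light2 hμ _ _ g (by linarith) z3 (pp K x a b p u)) (exp_pos _).le).trans ?_
  simp only [← exp_add]
  exact exp_le_exp.2 (by linarith)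

theorem light_B {q : ℝ} (h : RKp m (1 / 2) q) (hU : PU ℓ K μ x a b S w t Z c n)
    (hK : exp (q * (10 * ℓ)) ≤ K) (hK1 : (1 : ℝ) ≤ K) {g g' : ℝ}
    (hg : (10 * q + 16 + 28 * m) * ℓ + (t - 3 * (m * log K) + n + g) / 2 ≤ g') (p : ℕ × ℕ)
    {e : ℕ × ℕ} (he : e.2 < K) (j : ℕ) :
    ∑ i ∈ range K, ms (vp μ S c (exp (t - n - 10 * ℓ)) p) (fun v =>
      (sp K (8 * ℓ) j ∧ sp K (8 * ℓ) e.1) ∧ ¬ Hv μ (LA K x a b p e) g v.2 ∧
        Hv (vp μ S c (exp (t - n - 10 * ℓ)) p) (LB K a b (i, j) e) g' v) ≤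
      K * (2 * exp (t - 10 * ℓ)) := by
  have hl := hU.ps.l1
  have hμ := hU.ps.pos
  have m0 := Nat.cast_nonneg (α := ℝ) m
  have f0 : 10 * (m : ℝ) ≤ m * ℓ := by nlinarith
  have hK0 : (0 : ℝ) < K := by linarith
  by_cases hs : sp K (8 * ℓ) j ∧ sp K (8 * ℓ) e.1
  swap
  · rw [sum_eq_zero fun j _ => ms_eq_zero fun _ _ h2 => hs h2.1]
    positivity
  set V := vp μ S c (exp (t - n - 10 * ℓ)) p with hV
  have hV0 : ∀ v, 0 ≤ V v := gv_nonneg hμ (exp_pos _)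
  have hVt : ∑ v, V v ≤ exp t := (gv_sum_le hμ (exp_pos _)).trans hU.tot.le
  have hν0 := ind_mul_nonneg hV0 fun v => ¬ Hv μ (LA K x a b p e) g v.2
  have hνt : ∑ v, ind (¬ Hv μ (LA K x a b p e) g v.2) * V v ≤ exp t := (ms_le_sum hV0 _).trans hVt
  simp only [hs, true_and, ← ms_ind V]
  rw [← sum_card_fl]
  choose A hA1 hA2 using fun i => exists_heavy hV0 (LB K a b (i, j) e) (g := g') hVt
  have x1 : 1 ≤ exp (9 * ℓ) := one_le_exp (by linarith)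
  refine (h.cond (by norm_num) (y := fun v => cf K j • b v.1 + (- 2 : ℝ) • a v.1)
    (d := fun v => (4 : ℝ) • a v.1) (fun v : Ω × Ω => cell (dr K a b e v.2)) A (n := t - g')
    (w0 := t - m * log K + (ℓ + 18 * (m * ℓ))) (w2 := t)
    (w1 := 11 * ℓ + 37 * (m * ℓ) + n - 2 * (m * log K) + g) (by linarith) hK hν0
    (fun v => four_norm hl hK0.le (hU.ps.an _)) (fun v => fl_subset _ _)
    (fun v _ i hi => ⟨cell (dr K a b (i, j) v.1), hA2 i v (mem_fl.1 hi).2, ?_⟩) ?_ (fun u => ?_)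
    (fun u z => (ms_le_sum hν0 _).trans hνt)
    fun u z z' => ?_).trans (mul_le_mul_of_nonneg_left ?_ hK0.le)
  · have e0 : pt K (fun v : Ω × Ω => cf K j • b v.1 + (- 2 : ℝ) • a v.1)
        (fun v => (4 : ℝ) • a v.1) i v = dr K a b (i, j) v.1 := by
      simp only [pt, dr, cf]
      module
    rw [e0]
    exact (norm_sub_cell _).trans (one_le_exp (by linarith))
  · refine (sum_le_sum fun j _ => hA1 j).trans ?_
    rw [sum_const, card_range, nsmul_eq_mul]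
  · rw [ms_ind]
    exact (ms_mono hV0 fun _ _ h2 => h2.2).trans ((gv_snd hμ (exp_pos _)
      fun ω => cell (dr K a b e ω) = u).trans (hU.ps.dir hK1 hs.2 he u))
  · rw [ms_ind]
    exact (ms_mono hV0 fun v _ h2 => ⟨h2.1, (four_le h2.2.2.2).trans (by linarith),
      (norm_solve (cf_ge hK0 hs.1) (by norm_num) h2.2.2.1 (four_le h2.2.2.2)).trans
        (three_le.trans (by linarith [exp_le_exp.2 (by linarith : 8 * ℓ + 1 ≤ 9 * ℓ)])),
      (norm_of_cell h2.2.1).trans (by linarith)⟩).trans (light_J hU g p e _ _ u)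
  · rw [two_mul (exp _)]
    exact add_le_add ((mul_le_mul_of_nonneg_left hνt (exp_pos _).le).trans
      (exp_mul_le (by linarith))) (exp_le_exp.2 (by linarith))

theorem light_N {k r : ℝ} (h : RPKp m k r) (h1 : k ≤ 1)
    (hU : PU ℓ K μ x a b S w t Z c n) (hK : exp (r * (2 * (10 * ℓ))) ≤ K) {g g' : ℝ}
    (hg : (20 * r + 31 + 37 * m) * ℓ + (1 - k) * t - (1 - k) * (m * log K) + k * (n + g) ≤ g')
    (p e' : ℕ × ℕ) :
    ∑ e ∈ range K ×ˢ range K, ms (vp μ S c (exp (t - n - 10 * ℓ)) p) (fun v =>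
      ¬ Hv μ (LA K x a b p e') g v.2 ∧
        Hv (vp μ S c (exp (t - n - 10 * ℓ)) p) (LN K a b e e') g' v) ≤
      K ^ 2 * (2 * exp (t - 10 * ℓ)) := by
  have hl := hU.ps.l1
  have hμ := hU.ps.pos
  have m0 := Nat.cast_nonneg (α := ℝ) m
  have f0 : 10 * (m : ℝ) ≤ m * ℓ := by nlinarith
  have hK0 : (0 : ℝ) < K := (exp_pos _).trans_le hK
  set V := vp μ S c (exp (t - n - 10 * ℓ)) p with hV
  have hV0 : ∀ v, 0 ≤ V v := gv_nonneg hμ (exp_pos _)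
  have hVt : ∑ v, V v ≤ exp t := (gv_sum_le hμ (exp_pos _)).trans hU.tot.le
  have hν0 := ind_mul_nonneg hV0 fun v => ¬ Hv μ (LA K x a b p e') g v.2
  simp only [← ms_ind V]
  rw [← sum_card_fl]
  choose A hA1 hA2 using fun e => exists_heavy hV0 (LN K a b e e') (g := g') hVt
  have x1 : 1 ≤ exp (9 * ℓ) := one_le_exp (by linarith)
  refine h.thin h1 (x := fun v => - dr K a b e' v.2 - (2 : ℝ) • a v.1 - (2 : ℝ) • b v.1)
    (a := fun v => (4 : ℝ) • a v.1) (b := fun v => (4 : ℝ) • b v.1) A (n := t - g')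
    (w := 11 * ℓ + 37 * (m * ℓ) + n - 2 * (m * log K) + g) (by linarith) hK hν0
    (fun v => four_norm hl hK0.le (hU.ps.an _)) (fun v => four_norm hl hK0.le (hU.ps.bn _))
    (fun v => fl_subset _ _) (fun v _ e he => ⟨_, hA2 e v (mem_fl.1 he).2, ?_⟩) ?_
    ((ms_le_sum hV0 _).trans hVt) (fun z z' => ?_) (fun z z' z'' => ?_) ?_
  · have e0 : pp K (fun v : Ω × Ω => - dr K a b e' v.2 - (2 : ℝ) • a v.1 - (2 : ℝ) • b v.1)
        (fun v => (4 : ℝ) • a v.1) (fun v => (4 : ℝ) • b v.1) e v =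
        dr K a b e v.1 - dr K a b e' v.2 := by
      simp only [pp]
      generalize dr K a b e' v.2 = d'
      simp only [dr, cf]
      module
    rw [e0]
    exact (norm_sub_cell _).trans (one_le_exp (by linarith))
  · refine (sum_le_sum fun j _ => hA1 j).trans ?_
    rw [sum_const, nsmul_eq_mul, card_sq]
  · rw [ms_ind]
    exact (ms_mono hV0 fun _ _ h2 => ⟨four_le h2.2.1, four_le h2.2.2⟩).trans ((gv_fst hμ (exp_pos _)
      fun ω => ‖a ω - (4 : ℝ)⁻¹ • z‖ ≤ 1 ∧ ‖b ω - (4 : ℝ)⁻¹ • z'‖ ≤ 1).trans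
      ((hU.ps.c2 _ _).trans (exp_le_exp.2 (by linarith))))
  · rw [ms_ind]
    refine (ms_mono hV0 fun v _ h2 => ⟨h2.1, (four_le h2.2.2.1).trans (by linarith),
      (four_le h2.2.2.2).trans (by linarith), ?_⟩).trans
      (light_J hU g p e' _ _ (- z - (2 : ℝ)⁻¹ • z' - (2 : ℝ)⁻¹ • z''))
    have e0 : dr K a b e' v.2 - (- z - (2 : ℝ)⁻¹ • z' - (2 : ℝ)⁻¹ • z'') =
        - (- dr K a b e' v.2 - (2 : ℝ) • a v.1 - (2 : ℝ) • b v.1 - z) -
          (2 : ℝ)⁻¹ • ((4 : ℝ) • a v.1 - z') - (2 : ℝ)⁻¹ • ((4 : ℝ) • b v.1 - z'') := by module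
    rw [e0]
    refine (norm_sub_le _ _).trans ((add_le_add_left (norm_sub_le _ _) _).trans ?_)
    simp only [norm_neg, norm_smul, Real.norm_eq_abs, abs_of_pos (by norm_num : (0 : ℝ) < 2⁻¹)]
    linarith [h2.2.1, h2.2.2.1, h2.2.2.2]
  · have f1 := mul_le_mul_of_nonneg_right h1 (by linarith : 0 ≤ 11 * ℓ + 37 * (m * ℓ))
    linarith

end Pool.Agent.Work.MP_72ad00_an.H
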