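import Pool.Agent.Work.MP_72ad00_an.H.PK1

/-!
The step for planes in robust form.
-/

set_option autoImplicit false

open Finset Real

namespace Pool.Agent.Work.MP_72ad00_an.H

open Pool.Agent.Lib.PFR

variable {m : ℕ} {Ω : Type}

/-- The parameter `q` is near the point of slope `r` on the line through `p` of direction `e`. -/
def nr (K : ℕ) (p e : ℕ × ℕ) (r : ℕ) (q : ℕ × ℕ) : Prop :=
  |(q.1 : ℝ) - (p.1 + r * cf K e.1)| ≤ 4 ∧ |(q.2 : ℝ) - (p.2 + r * cf K e.2)| ≤ 4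

theorem card_four (K : ℕ) (z : ℝ) :
    ((fl (range K) fun j : ℕ => |(j : ℝ) - z| ≤ 4).card : ℝ) ≤ 9 := by
  refine le_trans ?_ ((card_near z (by norm_num : (0 : ℝ) ≤ 4)).trans (by norm_num))
  refine Nat.cast_le.2 (card_le_card_of_injOn (fun i : ℕ => (i : ℤ)) (fun i hi => ?_)
    fun i _ j _ h => Nat.cast_injective (R := ℤ) h)
  exact mem_coe.2 (mem_near (by exact_mod_cast (mem_fl.1 (mem_coe.1 hi)).2))

theorem card_nr (K : ℕ) (p e : ℕ × ℕ) (r : ℕ) :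
    ((fl (range K ×ˢ range K) (nr K p e r)).card : ℝ) ≤ 81 := by
  have h : fl (range K ×ˢ range K) (nr K p e r) ⊆
      (fl (range K) fun j : ℕ => |(j : ℝ) - (p.1 + r * cf K e.1)| ≤ 4) ×ˢ
        fl (range K) fun j : ℕ => |(j : ℝ) - (p.2 + r * cf K e.2)| ≤ 4 := fun q hq =>
    mem_product.2 ⟨mem_fl.2 ⟨(mem_product.1 (mem_fl.1 hq).1).1, (mem_fl.1 hq).2.1⟩,
      mem_fl.2 ⟨(mem_product.1 (mem_fl.1 hq).1).2, (mem_fl.1 hq).2.2⟩⟩
  refine (Nat.cast_le.2 (card_le_card h)).trans ?_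
  rw [card_product, Nat.cast_mul]
  exact (mul_le_mul (card_four _ _) (card_four _ _) (Nat.cast_nonneg _) (by norm_num)).trans
    (by norm_num)

theorem exists_e {K p q r : ℕ} (hp : p < K) (hq : q < K) (hr : r < K) (h : K ≤ 2 * r) :
    ∃ e ∈ range K, |(q : ℝ) - (p + r * cf K e)| ≤ 4 := by
  have p1 : (p : ℝ) < K := by exact_mod_cast hp
  have q1 : (q : ℝ) < K := by exact_mod_cast hq
  have r1 : (r : ℝ) < K := by exact_mod_cast hr
  have r2 : (K : ℝ) ≤ 2 * r := by exact_mod_cast h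
  have p0 := Nat.cast_nonneg (α := ℝ) p
  have q0 := Nat.cast_nonneg (α := ℝ) q
  have hK : (0 : ℝ) < K := by linarith
  have r0 : (0 : ℝ) < r := by linarith
  obtain ⟨z, hz⟩ : ∃ z : ℝ, (q : ℝ) - p + 2 * r = 4 * r / K * z :=
    ⟨(q - p + 2 * r) / (4 * r / K), by field_simp⟩
  have s0 : 0 < 4 * (r : ℝ) / K := by positivity
  have s1 : 4 * (r : ℝ) / K ≤ 4 := by rw [div_le_iff₀ hK]; linarith
  have z0 : 0 ≤ z := le_of_mul_le_mul_left (by linarith) s0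
  have z1 : z < K := lt_of_mul_lt_mul_left (by
    rw [div_mul_cancel₀ _ hK.ne']; linarith) s0.le
  refine ⟨⌊z⌋₊, mem_range.2 ((Nat.floor_lt z0).2 z1), ?_⟩
  have e : (q : ℝ) - (p + r * cf K ⌊z⌋₊) = 4 * r / K * (z - ⌊z⌋₊) := by
    rw [cf]
    linear_combination hz
  have a1 := Nat.floor_le z0
  have a2 := Nat.lt_floor_add_one z
  rw [e, abs_of_nonneg (mul_nonneg s0.le (by linarith))]
  nlinarith

theorem card_gd {K r : ℕ} {p : ℕ × ℕ} (hp : p ∈ range K ×ˢ range K) (hr : r < K) (h : K ≤ 2 * r)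
    {S : Finset (ℕ × ℕ)} (hS : S ⊆ range K ×ˢ range K) :
    (S.card : ℝ) ≤ 81 * (fl (range K ×ˢ range K) fun e => ∃ q ∈ S, nr K p e r q).card := by
  classical
  obtain ⟨p1, p2⟩ := mem_product.1 hp
  have h1 : S ⊆ (fl (range K ×ˢ range K) fun e => ∃ q ∈ S, nr K p e r q).biUnion
      fun e => fl (range K ×ˢ range K) (nr K p e r) := fun q hq => by
    obtain ⟨q1, q2⟩ := mem_product.1 (hS hq)
    obtain ⟨e1, a1, a2⟩ := exists_e (mem_range.1 p1) (mem_range.1 q1) hr h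
    obtain ⟨e2, b1, b2⟩ := exists_e (mem_range.1 p2) (mem_range.1 q2) hr h
    exact mem_biUnion.2 ⟨(e1, e2), mem_fl.2 ⟨mem_product.2 ⟨a1, b1⟩, q, hq, a2, b2⟩,
      mem_fl.2 ⟨hS hq, a2, b2⟩⟩
  refine (Nat.cast_le.2 ((card_le_card h1).trans card_biUnion_le)).trans ?_
  push_cast
  refine (sum_le_sum fun e _ => card_nr K p e r).trans ?_
  rw [sum_const, nsmul_eq_mul, mul_comm]

theorem pt_nr {K r : ℕ} (hK : (0 : ℝ) < K) {x a b : Ω → Fin m → ℝ} {p e q : ℕ × ℕ} {ω : Ω} {ℓ : ℝ}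
    (ha : ‖a ω‖ ≤ exp ℓ * K) (hb : ‖b ω‖ ≤ exp ℓ * K) (h : nr K p e r q) :
    ‖pp K x a b q ω - pt K (pp K x a b p) (dr K a b e) r ω‖ ≤ 8 * exp ℓ := by
  have e0 : pp K x a b q ω - pt K (pp K x a b p) (dr K a b e) r ω =
      (((q.1 : ℝ) - (p.1 + r * cf K e.1)) / K) • a ω +
        (((q.2 : ℝ) - (p.2 + r * cf K e.2)) / K) • b ω := by
    simp only [pt, pp, dr]
    module
  have k : ∀ (s : ℝ) (v : Fin m → ℝ), |s| ≤ 4 → ‖v‖ ≤ exp ℓ * K → ‖(s / K) • v‖ ≤ 4 * exp ℓ := by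
    intro s v h1 h2
    rw [norm_smul, Real.norm_eq_abs, abs_div, abs_of_pos hK, div_mul_eq_mul_div, div_le_iff₀ hK,
      mul_assoc]
    exact mul_le_mul h1 h2 (norm_nonneg _) (by norm_num)
  rw [e0]
  linarith [norm_add_le ((((q.1 : ℝ) - (p.1 + r * cf K e.1)) / K) • a ω)
    ((((q.2 : ℝ) - (p.2 + r * cf K e.2)) / K) • b ω), k _ _ h.1 ha, k _ _ h.2 hb]

/-- Slopes that are good for both lines. -/
noncomputable def gs (K : ℕ) (S : Ω → Finset (ℕ × ℕ)) (p e e' : ℕ × ℕ) (v : Ω × Ω) : Finset ℕ :=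
  fl (range K) fun r => K ≤ 2 * r ∧ (∃ q ∈ S v.1, nr K p e r q) ∧ ∃ q ∈ S v.2, nr K p e' r q

theorem gs_count {K : ℕ} (hK : 2 ≤ K) {S : Ω → Finset (ℕ × ℕ)} (hS : ∀ ω, S ω ⊆ range K ×ˢ range K)
    {p : ℕ × ℕ} (hp : p ∈ range K ×ˢ range K) {v : Ω × Ω} {N : ℝ} (hN : 0 ≤ N)
    (h1 : N ≤ (S v.1).card) (h2 : N ≤ (S v.2).card) :
    K / 4 * (N / 81 * (N / 81)) ≤
      ∑ e' ∈ range K ×ˢ range K, ∑ e ∈ range K ×ˢ range K, ((gs K S p e e' v).card : ℝ) := by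
  have e0 : ∑ e' ∈ range K ×ˢ range K, ∑ e ∈ range K ×ˢ range K, ((gs K S p e e' v).card : ℝ) =
      ∑ r ∈ range K, ind (K ≤ 2 * r) *
        (((fl (range K ×ˢ range K) fun e => ∃ q ∈ S v.1, nr K p e r q).card : ℝ) *
          (fl (range K ×ˢ range K) fun e => ∃ q ∈ S v.2, nr K p e r q).card) := by
    simp only [gs, card_fl_eq, ind_and, sum_mul, mul_sum]
    rw [sum_congr rfl fun e _ => sum_comm, sum_comm]
  have e1 : (K : ℝ) / 4 ≤ (fl (range K) fun r => K ≤ 2 * r).card := by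
    have h3 : Ico ((K + 1) / 2) K ⊆ fl (range K) fun r => K ≤ 2 * r := fun r hr => by
      rw [mem_Ico] at hr
      exact mem_fl.2 ⟨mem_range.2 hr.2, by omega⟩
    have h4 := card_le_card h3
    rw [Nat.card_Ico] at h4
    rw [div_le_iff₀ (by norm_num)]
    exact_mod_cast (by omega : K ≤ (fl (range K) fun r => K ≤ 2 * r).card * 4)
  rw [e0]
  refine (mul_le_mul_of_nonneg_right e1 (by positivity)).trans ?_
  rw [card_fl_eq, sum_mul]
  refine sum_le_sum fun r hr => ?_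
  by_cases h : K ≤ 2 * r
  · exact mul_le_mul_of_nonneg_left (mul_le_mul
      (by linarith [card_gd hp (mem_range.1 hr) h (hS v.1)])
      (by linarith [card_gd hp (mem_range.1 hr) h (hS v.2)]) (by positivity) (Nat.cast_nonneg _))
      (ind_nonneg _)
  · rw [ind_neg h, zero_mul, zero_mul]

variable [Fintype Ω] {ℓ : ℝ} {K : ℕ} {μ : Ω → ℝ} {x a b : Ω → Fin m → ℝ}
  {S : Ω → Finset (ℕ × ℕ)} {w t n : ℝ} {Z : ℕ × ℕ → Finset (Fin m → ℝ)}
  {c : ℕ × ℕ → Ω → Fin m → ℝ}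

theorem PU.line (hU : PU ℓ K μ x a b S w t Z c n) (hK : (0 : ℝ) < K) (p e : ℕ × ℕ) (r : ℕ) :
    ∃ A : Finset (Fin m → ℝ), (A.card : ℝ) ≤ exp (n + 5) ∧ ∀ ω, μ ω ≠ 0 →
      (∃ q ∈ S ω, nr K p e r q) →
        ∃ z ∈ A, ‖pt K (pp K x a b p) (dr K a b e) r ω - z‖ ≤ 9 * exp ℓ := by
  classical
  refine ⟨(fl (range K ×ˢ range K) (nr K p e r)).biUnion Z,
    (Nat.cast_le.2 card_biUnion_le).trans ?_, fun ω hω ⟨q, q1, q2⟩ => ⟨c q ω,
      mem_biUnion.2 ⟨q, mem_fl.2 ⟨hU.ps.sub ω q1, q2⟩, (hU.cov ω hω q q1).1⟩, ?_⟩⟩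
  · push_cast
    refine (sum_le_sum fun q _ => hU.zc q).trans ?_
    rw [sum_const, nsmul_eq_mul]
    refine (mul_le_mul_of_nonneg_right (card_nr K p e r) (exp_pos _).le).trans ?_
    linarith [c4_le_exp (le_refl (n + 4)), two_le_exp (by linarith : n + 4 + 1 ≤ n + 5), exp_pos n]
  · have := norm_sub_le_norm_sub_add_norm_sub (pt K (pp K x a b p) (dr K a b e) r ω)
      (pp K x a b q ω) (c q ω)
    rw [norm_sub_rev _ (pp K x a b q ω)] at this
    linarith [pt_nr (x := x) hK (hU.ps.an ω) (hU.ps.bn ω) q2, (hU.cov ω hω q q1).2]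

theorem light_D {β p : ℝ} (h : RKp m β p) (h0 : 1 / 2 ≤ β) (h1 : β ≤ 1)
    (hU : PU ℓ K μ x a b S w t Z c n) (hK : exp (p * (10 * ℓ)) ≤ K) (gA gB gN : ℝ)
    (p0 : ℕ × ℕ) {e : ℕ × ℕ} (he : e ∈ range K ×ˢ range K) (e' : ℕ × ℕ) :
    ∑ v, ind (¬ Hv μ (LA K x a b p0 e) gA v.1 ∧ ¬ Hv μ (LA K x a b p0 e') gA v.2 ∧
        ¬ Hv (vp μ S c (exp (t - n - 10 * ℓ)) p0) (LB K a b e e') gB v ∧
        ¬ Hv (vp μ S c (exp (t - n - 10 * ℓ)) p0) (LN K a b e e') gN v) *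
      vp μ S c (exp (t - n - 10 * ℓ)) p0 v * (gs K S p0 e e' v).card ≤
      K * (exp (t - 10 * ℓ) + exp ((10 * p + 11 + 9 * m) * ℓ + 2 * n + (1 - β) * gN +
        (2 * β - 1) * gB + (1 - β) * (n - t + 2 * gA))) := by
  classical
  have hl := hU.ps.l1
  have hμ := hU.ps.pos
  have m0 := Nat.cast_nonneg (α := ℝ) m
  have f0 : 10 * (m : ℝ) ≤ m * ℓ := by nlinarith
  have hK0 : (0 : ℝ) < K := (exp_pos _).trans_le hK
  set V := vp μ S c (exp (t - n - 10 * ℓ)) p0 with hV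
  have hV0 : ∀ v, 0 ≤ V v := gv_nonneg hμ (exp_pos _)
  have hVt : ∑ v, V v ≤ exp t := (gv_sum_le hμ (exp_pos _)).trans hU.tot.le
  set G : Ω × Ω → Prop := fun v => ¬ Hv μ (LA K x a b p0 e) gA v.1 ∧
    ¬ Hv μ (LA K x a b p0 e') gA v.2 ∧ ¬ Hv V (LB K a b e e') gB v ∧ ¬ Hv V (LN K a b e e') gN v
    with hG
  choose Y hY1 hY2 using hU.line hK0 p0
  choose A hA1 hA2 using fun z : Fin m → ℝ => exists_cells z (x := 2 * ℓ) (by linarith)
  have x1 : 1 ≤ exp ℓ := one_le_exp (by linarith)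
  have hdd : ∀ (v : Ω × Ω) (u z : Fin m → ℝ), LN K a b e e' v = u → ‖dr K a b e v.1 - z‖ ≤ 1 →
      ‖dr K a b e' v.2 - (z - u)‖ ≤ 2 := fun v u z h2 h3 => by
    have e0 : dr K a b e' v.2 - (z - u) =
        (dr K a b e v.1 - z) - (dr K a b e v.1 - dr K a b e' v.2 - u) := by module
    rw [e0]
    linarith [norm_sub_le (dr K a b e v.1 - z) (dr K a b e v.1 - dr K a b e' v.2 - u),
      norm_of_cell h2]
  refine (h.cond h1 (μ := fun v => ind (G v) * V v) (y := fun v => pp K x a b p0 v.1)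
    (d := fun v => dr K a b e v.1) (S := gs K S p0 e e') (LN K a b e e') (fun r => (Y e r ×ˢ Y e' r).biUnion fun z =>
      (A (((r : ℝ) / K)⁻¹ • (z.1 - z.2))).image fun u => (u, z.1)) (n := 2 * n + ℓ + 3 * (m * ℓ))
    (w0 := gN) (w2 := gB + m * ℓ) (w1 := n - t + 2 * gA + (10 * ℓ + 5 * (m * ℓ))) (by linarith) hK
    (ind_mul_nonneg hV0 G) (fun v => ?_) (fun v => fl_subset _ _) (fun v hv r hr => ?_) ?_
    (fun u => ?_) (fun u z => ?_) fun u z z' => ?_).trans (mul_le_mul_of_nonneg_left ?_ hK0.le)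
  · obtain ⟨e1, e2⟩ := mem_product.1 he
    refine (norm_add_le _ _).trans ?_
    simp only [norm_smul, Real.norm_eq_abs]
    nlinarith [mul_le_mul (cf_le (mem_range.1 e1)) (hU.ps.an v.1) (norm_nonneg _) zero_le_two,
      mul_le_mul (cf_le (mem_range.1 e2)) (hU.ps.bn v.1) (norm_nonneg _) zero_le_two,
      mul_le_mul_of_nonneg_right (c2_le_exp (by linarith : ℓ + 2 ≤ 10 * ℓ)) hK0.le,
      mul_nonneg (exp_pos ℓ).le hK0.le]
  · have hv' : V v ≠ 0 := right_ne_zero_of_mul hv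
    obtain ⟨-, r1, r2, r3⟩ := mem_fl.1 hr
    obtain ⟨z, z1, z2⟩ := hY2 e r _ (gv_ne hv').1 r2
    obtain ⟨z', z3, z4⟩ := hY2 e' r _ (gv_ne hv').2.1 r3
    refine ⟨z, mem_biUnion.2 ⟨(z, z'), mem_product.2 ⟨z1, z3⟩,
      mem_image.2 ⟨_, hA2 _ (dr K a b e v.1 - dr K a b e' v.2) ?_, rfl⟩⟩, z2.trans ?_⟩
    · have r4 : (K : ℝ) ≤ 2 * r := by exact_mod_cast r1
      have s1 : exp (- 1) ≤ |(r : ℝ) / K| := by
        rw [abs_of_nonneg (by positivity), le_div_iff₀ hK0]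
        have := two_le_exp (by norm_num : (- 1 : ℝ) + 1 ≤ 0)
        rw [exp_zero] at this
        nlinarith
      have s0 : (r : ℝ) / K ≠ 0 := abs_pos.1 ((exp_pos _).trans_le s1)
      have e0 : dr K a b e v.1 - dr K a b e' v.2 - ((r : ℝ) / K)⁻¹ • (z - z') =
          ((r : ℝ) / K)⁻¹ • ((pt K (pp K x a b p0) (dr K a b e) r v.1 - z) -
            (pt K (pp K x a b p0) (dr K a b e') r v.2 - z') +
            (pp K x a b p0 v.2 - pp K x a b p0 v.1)) := by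
        simp only [pt]
        generalize (r : ℝ) / K = s at s0
        match_scalars <;> field_simp
        all_goals ring
      rw [e0]
      refine (norm_inv_smul_le s1 ((norm_add_le _ _).trans (add_le_add ((norm_sub_le _ _).trans
        (add_le_add z2 z4)) (hU.close hv')))).trans ?_
      have := c3_le_exp (by linarith : 1 + ℓ + 3 ≤ 2 * ℓ)
      rw [exp_add] at this
      nlinarith [mul_pos (exp_pos 1) (exp_pos ℓ)]
    · linarith [c3_le_exp (by linarith : ℓ + 3 ≤ 10 * ℓ)]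
  · refine (sum_le_sum fun r _ => (?_ : _ ≤ exp (2 * n + ℓ + 3 * (m * ℓ)))).trans ?_
    · refine (Nat.cast_le.2 card_biUnion_le).trans ?_
      push_cast
      refine (sum_le_sum fun q _ => (Nat.cast_le.2 card_image_le).trans (hA1 _)).trans ?_
      rw [sum_const, nsmul_eq_mul, card_product, Nat.cast_mul]
      refine (mul_le_mul_of_nonneg_right (mul_le_mul (hY1 _ _) (hY1 _ _) (Nat.cast_nonneg _)
        (exp_pos _).le) (exp_pos _).le).trans ?_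
      rw [← exp_add]
      exact exp_mul_le (by linarith)
    · rw [sum_const, card_range, nsmul_eq_mul]
  · rw [ms_ind]
    exact light_le hV0 (LN K a b e e') (exp_pos _).le u fun v _ h2 =>
      ⟨h2.2, le_rfl, not_lt.1 h2.1.2.2.2⟩
  · rw [ms_ind]
    refine (ms_mono hV0 fun v _ h2 => ⟨h2.1.2.2.1, (hdd v u z h2.2.1 h2.2.2).trans ?_,
      h2.2.2.trans ?_⟩).trans ((light2 hV0 (fun v => dr K a b e' v.2) (fun v => dr K a b e v.1) gB
        le_rfl (z - u) z).trans (exp_le_exp.2 (by linarith)))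
    all_goals simp
  · rw [ms_ind]
    refine (ms2_le hμ hμ (exp_pos _).le (fun u1 u2 hv h2 =>
      ⟨⟨⟨h2.1.1, h2.2.2.2.trans (by linarith), h2.2.2.1.trans (by linarith)⟩, h2.1.2.1,
        (hdd _ u z' h2.2.1 h2.2.2.2).trans (by linarith), hU.close (v := (u1, u2)) hv⟩,
        vp_le hμ p0 u1 u2⟩)
      (light2 hμ (dr K a b e) (pp K x a b p0) gA (by linarith : 0 ≤ ℓ) z' z)
      (fun u1 => light2 hμ (dr K a b e') (pp K x a b p0) gA (by linarith : 0 ≤ ℓ) (z' - u)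
        (pp K x a b p0 u1))
      (exp_pos _).le).trans ?_
    simp only [← exp_add]
    exact exp_le_exp.2 (by linarith)
  · refine add_le_add ((mul_le_mul_of_nonneg_left ((ms_le_sum hV0 G).trans hVt)
      (exp_pos _).le).trans (exp_mul_le (by linarith))) (exp_le_exp.2 ?_)
    have f1 := mul_le_mul_of_nonneg_right (by linarith : 1 - β ≤ 1)
      (by linarith : 0 ≤ 10 * ℓ + 5 * (m * ℓ))
    have f2 := mul_le_mul_of_nonneg_right (by linarith : 2 * β - 1 ≤ 1)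
      (by linarith : 0 ≤ m * ℓ)
    linarith

end Pool.Agent.Work.MP_72ad00_an.H
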