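import Pool.Agent.Work.MP_72ad00_an.H.PK2

/-!
The iteration for planes.
-/

set_option autoImplicit false

open Finset Real

namespace Pool.Agent.Work.MP_72ad00_an.H

open Pool.Agent.Lib.PFR

variable {m : ℕ} {Ω : Type} [Fintype Ω]

theorem ms_or {μ : Ω → ℝ} (hμ : ∀ ω, 0 ≤ μ ω) {E F : Ω → Prop} {X Y : ℝ} (hX : ms μ E ≤ X)
    (hY : ms μ F ≤ Y) : ms μ (fun ω => E ω ∨ F ω) ≤ X + Y :=
  (ms_split hμ _ E).trans (add_le_add hX
    ((ms_mono hμ fun _ _ h => h.1.resolve_left h.2).trans hY))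

theorem ms_const {μ : Ω → ℝ} {T : ℝ} (h : ∑ ω, μ ω ≤ T) (P : Prop) :
    ms μ (fun _ => P) ≤ T * ind P := by
  rw [ms, ← mul_sum, mul_comm]
  exact mul_le_mul_of_nonneg_right h (ind_nonneg _)

theorem sum_split {μ s : Ω → ℝ} (hμ : ∀ ω, 0 ≤ μ ω) {N : ℝ} (hs : ∀ ω, s ω ≤ N) (G : Ω → Prop) :
    ∑ ω, μ ω * s ω ≤ ∑ ω, ind (G ω) * μ ω * s ω + N * ms μ fun ω => ¬ G ω := by
  rw [ms, mul_sum, ← sum_add_distrib]
  refine sum_le_sum fun ω _ => ?_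
  by_cases h : G ω
  · rw [ind_pos h, ind_neg (not_not.2 h)]
    linarith
  · rw [ind_neg h, ind_pos h]
    linarith [mul_le_mul_of_nonneg_left (hs ω) (hμ ω)]

theorem sum_bound {ι : Type} {R : Finset ι} {f : ι → ℝ} {N X : ℝ} (hN : (R.card : ℝ) = N)
    (h : ∀ i ∈ R, f i ≤ X) : ∑ i ∈ R, f i ≤ N * X := by
  rw [← hN, ← nsmul_eq_mul, ← sum_const]
  exact sum_le_sum h

variable {ℓ : ℝ} {K : ℕ} {μ : Ω → ℝ} {x a b : Ω → Fin m → ℝ}
  {S : Ω → Finset (ℕ × ℕ)} {w t n : ℝ} {Z : ℕ × ℕ → Finset (Fin m → ℝ)}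
  {c : ℕ × ℕ → Ω → Fin m → ℝ}

theorem core {β p q k r : ℝ} (h : RKp m β p) (h0 : 1 / 2 ≤ β) (h1 : β ≤ 1) (hq : RKp m (1 / 2) q)
    (hr : RPKp m k r) (k1 : k ≤ 1) (hU : PU ℓ K μ x a b S w t Z c n)
    (hK1 : exp (p * (10 * ℓ)) ≤ K) (hK2 : exp (q * (10 * ℓ)) ≤ K)
    (hK3 : exp (r * (2 * (10 * ℓ))) ≤ K) (hK4 : exp (8 * ℓ) ≤ K) {gA gB gN : ℝ}
    (hA : (10 * p + 12 + 60 * m) * ℓ + β * t - (3 * β - 1) * (m * log K) + (1 - β) * w ≤ gA)
    (hB : (10 * q + 16 + 28 * m) * ℓ + (t - 3 * (m * log K) + n + gA) / 2 ≤ gB)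
    (hN : (20 * r + 31 + 37 * m) * ℓ + (1 - k) * t - (1 - k) * (m * log K) + k * (n + gA) ≤ gN) :
    t - 6 * ℓ ≤ (10 * p + 11 + 9 * m) * ℓ + 2 * n + (1 - β) * gN +
      (2 * β - 1) * gB + (1 - β) * (n - t + 2 * gA) := by
  have hl := hU.ps.l1
  have hμ := hU.ps.pos
  have hK0 : (0 : ℝ) < K := (exp_pos _).trans_le hK4
  have hK5 : (2 : ℝ) ≤ K := le_trans (by
    linarith [two_le_exp (by linarith : 0 + 1 ≤ 8 * ℓ), exp_zero]) hK4
  have hK6 : (1 : ℝ) ≤ K := by linarith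
  have h3 : 1 ≤ K * exp (- (8 * ℓ)) := one_le_mul_exp hK4
  generalize hX : (10 * p + 11 + 9 * m) * ℓ + 2 * n + (1 - β) * gN +
      (2 * β - 1) * gB + (1 - β) * (n - t + 2 * gA) = X
  set R := range K ×ˢ range K with hR
  have cR : (R.card : ℝ) = K ^ 2 := card_sq K
  have cK : ((range K).card : ℝ) = K := by rw [card_range]
  set V := vp μ S c (exp (t - n - 10 * ℓ)) with hV
  have hV0 : ∀ z v, 0 ≤ V z v := fun z => gv_nonneg hμ (exp_pos _)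
  have hVt : ∀ z, ∑ v, V z v ≤ exp t := fun z => (gv_sum_le hμ (exp_pos _)).trans hU.tot.le
  obtain ⟨F1, hF1⟩ : ∃ F1 : ℕ × ℕ → ℕ × ℕ → ℝ, ∀ z e, F1 z e =
    ms μ (fun ω => sp K (8 * ℓ) e.1 ∧ Hv μ (LA K x a b z e) gA ω) := ⟨_, fun _ _ => rfl⟩
  obtain ⟨F2, hF2⟩ : ∃ F2 : ℕ × ℕ → ℕ × ℕ → ℕ × ℕ → ℝ, ∀ z e' e, F2 z e' e =
    ms (V z) (fun v => (sp K (8 * ℓ) e.2 ∧ sp K (8 * ℓ) e'.1) ∧ ¬ Hv μ (LA K x a b z e') gA v.2 ∧
      Hv (V z) (LB K a b e e') gB v) := ⟨_, fun _ _ _ => rfl⟩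
  obtain ⟨F3, hF3⟩ : ∃ F3 : ℕ × ℕ → ℕ × ℕ → ℕ × ℕ → ℝ, ∀ z e' e, F3 z e' e =
    ms (V z) (fun v => ¬ Hv μ (LA K x a b z e') gA v.2 ∧ Hv (V z) (LN K a b e e') gN v) :=
    ⟨_, fun _ _ _ => rfl⟩
  have s1 : ∀ e ∈ R, ∑ z ∈ R, F1 z e ≤ K ^ 2 * (2 * exp (t - 10 * ℓ)) := fun e he => by
    simp only [hF1, hR, sum_product]
    rw [sq, mul_assoc]
    exact sum_bound cK fun i hi => light_A h h0 h1 hU.ps hU.tot.le hK1 hK6 hA
      (mem_range.1 (mem_product.1 he).2) (mem_range.1 hi)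
  have s2 : ∀ z, ∀ e' ∈ R, ∑ e ∈ R, F2 z e' e ≤ K ^ 2 * (2 * exp (t - 10 * ℓ)) := fun z e' he => by
    simp only [hF2, hR, sum_product_right]
    rw [sq, mul_assoc]
    exact sum_bound cK fun j _ => light_B hq hU hK2 hK6 hB z (mem_range.1 (mem_product.1 he).2) j
  have s3 : ∀ z e', ∑ e ∈ R, F3 z e' e ≤ K ^ 2 * (2 * exp (t - 10 * ℓ)) := fun z e' => by
    simp only [hF3]
    exact light_N hr k1 hU hK3 hN z e'
  have s4 : ∑ e ∈ R, ind (¬ sp K (8 * ℓ) e.1) ≤ K * (3 * (K * exp (- (8 * ℓ)))) := by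
    rw [hR, sum_product_right]
    exact sum_bound cK fun j _ => (card_fl_eq _ _).ge.trans (card_close K _ _ h3)
  have s5 : ∑ e ∈ R, ind (¬ sp K (8 * ℓ) e.2) ≤ K * (3 * (K * exp (- (8 * ℓ)))) := by
    rw [hR, sum_product]
    exact sum_bound cK fun j _ => (card_fl_eq _ _).ge.trans (card_close K _ _ h3)
  have step : ∀ z, ∀ e', ∀ e ∈ R, ∑ v, V z v * ((gs K S z e e' v).card : ℝ) ≤
      K * (exp (t - 10 * ℓ) + exp X) + K * (exp t * ind (¬ sp K (8 * ℓ) e.1) +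
        (exp t * ind (¬ sp K (8 * ℓ) e.2) + (exp t * ind (¬ sp K (8 * ℓ) e'.1) +
        (F1 z e + (F1 z e' + (F2 z e' e + F3 z e' e)))))) := by
    intro z e' e he
    refine (sum_split (hV0 z) (fun v => (card_fl_le _ _).trans cK.le) _).trans (add_le_add
      (hX ▸ light_D h h0 h1 hU hK1 gA gB gN z he e') (mul_le_mul_of_nonneg_left ?_ hK0.le))
    rw [hF1, hF1, hF2, hF3]
    exact (ms_mono (hV0 z) fun v _ h2 => by tauto).trans (ms_or (hV0 z) (ms_const (hVt z) _)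
      (ms_or (hV0 z) (ms_const (hVt z) _) (ms_or (hV0 z) (ms_const (hVt z) _)
      (ms_or (hV0 z) (gv_fst hμ (exp_pos _) _) (ms_or (hV0 z) (gv_snd hμ (exp_pos _) _)
      (ms_or (hV0 z) le_rfl le_rfl))))))
  have up := sum_le_sum fun z (_ : z ∈ R) => sum_le_sum fun e' (_ : e' ∈ R) =>
    sum_le_sum (step z e')
  have lo : ∀ z ∈ R, K / 4 * (K ^ 2 * exp (- ℓ) / 81 * (K ^ 2 * exp (- ℓ) / 81)) *
      (ms μ (fun ω => z ∈ S ω) - exp (t - 10 * ℓ)) ≤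
      ∑ e' ∈ R, ∑ e ∈ R, ∑ v, V z v * ((gs K S z e e' v).card : ℝ) := by
    intro z hz
    have b1 := gv_sum_ge (E := fun ω => z ∈ S ω) hμ (exp_pos (t - n - 10 * ℓ)) _
      (hU.zc z) fun ω h1 h2 => (hU.cov ω h1 z h2).1
    rw [← exp_add, show n + (t - n - 10 * ℓ) = t - 10 * ℓ by ring] at b1
    refine (mul_le_mul_of_nonneg_left (sub_le_iff_le_add.2 b1) (by positivity)).trans ?_
    rw [sum_congr rfl fun e _ => sum_comm, sum_comm, mul_sum]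
    refine sum_le_sum fun v _ => ?_
    simp only [← mul_sum]
    rw [mul_comm]
    rcases (hV0 z v).eq_or_lt with h1 | h1
    · exact le_of_eq (by rw [← h1, zero_mul]; exact mul_eq_zero_of_left h1.symm _)
    obtain ⟨b3, b4, -⟩ := gv_ne h1.ne'
    exact mul_le_mul_of_nonneg_left (gs_count (by exact_mod_cast hK5) hU.ps.sub hz (by positivity)
      (mul_exp_le.2 (hU.ps.den _ b3)) (mul_exp_le.2 (hU.ps.den _ b4))) h1.le
  have k4 := sum_den hμ hU.ps.sub hU.ps.den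
  have k5 := (sum_le_sum lo).trans up
  rw [hU.tot] at k4
  simp only [← mul_sum, sum_sub_distrib, sum_add_distrib, sum_const, nsmul_eq_mul, cR] at k5
  have t1 : ∑ z ∈ R, ∑ e ∈ R, F1 z e ≤ K ^ 2 * (K ^ 2 * (2 * exp (t - 10 * ℓ))) := by
    rw [sum_comm]
    exact sum_bound cR s1
  have t2 := sum_bound cR fun z (_ : z ∈ R) => sum_bound cR (s2 z)
  have t3 := sum_bound cR fun z (_ : z ∈ R) => sum_bound cR fun e' (_ : e' ∈ R) => s3 z e'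
  have u1 := mul_le_mul_of_nonneg_left t1 (by positivity : (0 : ℝ) ≤ K ^ 3)
  have u2 := mul_le_mul_of_nonneg_left t2 hK0.le
  have u3 := mul_le_mul_of_nonneg_left t3 hK0.le
  have u4 := mul_le_mul_of_nonneg_left s4 (by positivity : (0 : ℝ) ≤ K ^ 5 * exp t)
  have u5 := mul_le_mul_of_nonneg_left s5 (by positivity : (0 : ℝ) ≤ K ^ 5 * exp t)
  have u6 := mul_le_mul_of_nonneg_left k4
    (by positivity : (0 : ℝ) ≤ K / 4 * (K ^ 2 * exp (- ℓ) / 81 * (K ^ 2 * exp (- ℓ) / 81)))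
  have u7 : exp (- ℓ) * exp (- ℓ) * (exp (- ℓ) * exp t - exp (t - 10 * ℓ)) / 26244 ≤
      exp X + 9 * (exp t * exp (- (8 * ℓ))) + 9 * exp (t - 10 * ℓ) := by
    refine le_of_mul_le_mul_left ?_ (pow_pos hK0 7)
    linarith
  have b1 : exp (- ℓ) * exp (- ℓ) * (exp (- ℓ) * exp t) = exp (t - 3 * ℓ) := by
    simp only [← exp_add]; congr 1; ring
  have b2 : exp (- ℓ) * exp (- ℓ) * exp (t - 10 * ℓ) ≤ exp (t - 8 * ℓ) := by
    rw [← exp_add]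
    exact exp_mul_le (by linarith)
  have b3 : exp t * exp (- (8 * ℓ)) = exp (t - 8 * ℓ) := by rw [← exp_add]; congr 1
  have b4 := exp_le_exp.2 (by linarith : t - 10 * ℓ ≤ t - 8 * ℓ)
  have b5 := c6_le_exp (by linarith : t - 5 * ℓ + 6 ≤ t - 4 * ℓ)
  have b6 := c6_le_exp (by linarith : t - 4 * ℓ + 6 ≤ t - 3 * ℓ)
  have b7 := c4_le_exp (by linarith : t - 8 * ℓ + 4 ≤ t - 6 * ℓ)
  have b8 := two_le_exp (by linarith : t - 6 * ℓ + 1 ≤ t - 5 * ℓ)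
  refine exp_le_exp.1 ?_
  linarith [exp_pos (t - 5 * ℓ), exp_pos (t - 8 * ℓ)]

theorem RPK.step {β k : ℝ} (h : RK m β) (h0 : 1 / 2 ≤ β) (h1 : β ≤ 1) (hr : RPK m k) (k0 : 0 ≤ k)
    (k1 : k ≤ 1) : RPK m ((1 - β) * (2 - 2 * β + ((1 - β) * k + β - 1 / 2)) /
      (3 - β + ((1 - β) * k + β - 1 / 2))) := by
  obtain ⟨p, p1, h⟩ := h
  obtain ⟨q, q1, hq⟩ := RK.half (m := m)
  obtain ⟨r, r1, hr⟩ := hr
  have m0 := Nat.cast_nonneg (α := ℝ) m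
  refine ⟨178 + 60 * p + 20 * q + 40 * r + 388 * m, by linarith,
    fun ℓ K Ω _ μ x a b S w t Z n hP hK hc hn ht => ?_⟩
  have hl := hP.l1
  have hμ := hP.pos
  have hK0 : (0 : ℝ) < K := (exp_pos _).trans_le hK
  have a1 : 0 ≤ p * ℓ := mul_nonneg (by linarith) (by linarith)
  have a2 : 0 ≤ q * ℓ := mul_nonneg (by linarith) (by linarith)
  have a3 : 0 ≤ r * ℓ := mul_nonneg (by linarith) (by linarith)
  have a4 : 0 ≤ m * ℓ := mul_nonneg m0 (by linarith)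
  have hT : 0 < ∑ ω, μ ω := (exp_pos t).trans_le ht
  obtain ⟨t', ht'⟩ : ∃ t', ∑ ω, μ ω = exp t' := ⟨_, (exp_log hT).symm⟩
  have htt : t ≤ t' := exp_le_exp.1 (ht' ▸ ht)
  choose! c hc1 hc2 using hc
  have hle : exp ℓ ≤ exp (2 * ℓ) := exp_le_exp.2 (by linarith)
  have hU : PU (2 * ℓ) K μ x a b (fun ω => fl (S ω) fun z => ((Z z).card : ℝ) ≤ exp (n + 2 * ℓ))
      w t' (fun z => fl (Z z) fun _ => ((Z z).card : ℝ) ≤ exp (n + 2 * ℓ)) (fun z ω => c ω z)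
      (n + 2 * ℓ) := by
    refine ⟨⟨by linarith, hμ, fun ω => (hP.an ω).trans (mul_le_mul_of_nonneg_right hle hK0.le),
      fun ω => (hP.bn ω).trans (mul_le_mul_of_nonneg_right hle hK0.le),
      fun ω => (fl_subset _ _).trans (hP.sub ω), fun ω hω => den_good (hP.sub ω) _
        (fun _ => Nat.cast_nonneg _) (by positivity) (by linarith) hn (hP.den ω hω),
      fun z z' => (hP.c2 z z').trans (exp_le_exp.2 (by linarith)), hP.c3⟩,
      fun r => ?_, fun ω hω r hr => ⟨mem_fl.2 ⟨hc1 ω hω r (mem_fl.1 hr).1, (mem_fl.1 hr).2⟩,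
        (hc2 ω hω r (mem_fl.1 hr).1).trans hle⟩, ht'⟩
    by_cases h1 : ((Z r).card : ℝ) ≤ exp (n + 2 * ℓ)
    · exact (card_fl_le _ _).trans h1
    · rw [eq_empty_of_forall_notMem fun z (hz : z ∈ fl (Z r) _) => h1 (mem_fl.1 hz).2, card_empty,
        Nat.cast_zero]
      exact (exp_pos _).le
  have key := core h h0 h1 hq hr k1 hU ((exp_le_exp.2 (by linarith)).trans hK)
    ((exp_le_exp.2 (by linarith)).trans hK) ((exp_le_exp.2 (by linarith)).trans hK)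
    ((exp_le_exp.2 (by linarith)).trans hK) le_rfl le_rfl le_rfl
  have b1 : 0 ≤ 1 - β := by linarith
  have b2 := mul_nonneg b1 k0
  have b3 := mul_le_mul_of_nonneg_left k1 b1
  generalize hj : (1 - β) * k + β - 1 / 2 = j
  have j0 : 0 ≤ j := by linarith
  have hW : 0 < 3 - β + j := by linarith
  refine le_of_mul_le_mul_left ?_ hW
  have e1 : (3 - β + j) * ((1 - β) * (2 - 2 * β + j) / (3 - β + j)) =
    (1 - β) * (2 - 2 * β + j) := mul_div_cancel₀ _ hW.ne'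
  generalize (1 - β) * (2 - 2 * β + j) / (3 - β + j) = u at e1 ⊢
  have f1 := mul_le_mul_of_nonneg_left htt (mul_nonneg b1 (by linarith : 0 ≤ 2 - 2 * β + j))
  have f2 := mul_le_mul_of_nonneg_right (by linarith : 1 - β ≤ 1)
    (by linarith : 0 ≤ (20 * r + 31 + 37 * m) * (2 * ℓ))
  have f3 := mul_le_mul_of_nonneg_right (by linarith : 2 * β - 1 ≤ 1)
    (by linarith : 0 ≤ (10 * q + 16 + 28 * m) * (2 * ℓ))
  have f4 := mul_le_mul_of_nonneg_right (by linarith : 2 - 2 * β + j ≤ 2)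
    (by linarith : 0 ≤ (10 * p + 12 + 60 * m) * (2 * ℓ))
  have f5 := mul_le_mul_of_nonneg_right (by linarith : 1 ≤ 3 - β + j)
    (by linarith : 0 ≤ (176 + 60 * p + 20 * q + 40 * r + 388 * m) * ℓ)
  have f6 : (3 - β + j) * ((1 - 3 * u) * (m * log K) + u * (t - w)) =
      (3 - β + j - 3 * ((1 - β) * (2 - 2 * β + j))) * (m * log K) +
        (1 - β) * (2 - 2 * β + j) * (t - w) := by
    rw [← e1]
    ring
  rw [f6]
  subst hj
  linarith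

theorem RPK.best : ∃ c : ℝ, 0 ≤ c ∧ c ≤ 0.1518 ∧ ∀ m : ℕ, RPK m c := by
  refine ⟨_, ?_, ?_, fun m => RPK.step RK.best (by norm_num) (by norm_num)
    (RPK.step RK.best (by norm_num) (by norm_num) (RPK.step RK.best (by norm_num) (by norm_num)
      (RPK.step RK.best (by norm_num) (by norm_num) RPK.one (by norm_num) (by norm_num))
      (by norm_num) (by norm_num)) (by norm_num) (by norm_num)) (by norm_num) (by norm_num)⟩ <;>
    norm_num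

end Pool.Agent.Work.MP_72ad00_an.H
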