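import Pool.Agent.Work.MP_72ad00_an.H.Cor
import Pool.Agent.Work.MP_72ad00_an.Adv

/-!
The robust advanced iteration.
-/

set_option autoImplicit false

open Finset Real

namespace Pool.Agent.Work.MP_72ad00_an.H

open Pool.Agent.Lib.PFR

variable {m : ℕ}

theorem exists_cells_of (Z : Finset (Fin m → ℝ)) {x n : ℝ} (hx : 0 ≤ x) (hn : (Z.card : ℝ) ≤ exp n) :
    ∃ A : Finset (Fin m → ℝ), (A.card : ℝ) ≤ exp (n + m * (x + 2)) ∧
      ∀ z ∈ Z, ∀ v, ‖v - z‖ ≤ 2 * exp x → cell v ∈ A := by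
  classical
  choose A hA1 hA2 using fun z : Fin m → ℝ => exists_cells z hx
  refine ⟨Z.biUnion A, (Nat.cast_le.2 card_biUnion_le).trans ?_,
    fun z hz v hv => mem_biUnion.2 ⟨z, hz, hA2 z v hv⟩⟩
  push_cast
  refine (sum_le_sum fun z _ => hA1 z).trans ?_
  rw [sum_const, nsmul_eq_mul, exp_add]
  exact mul_le_mul_of_nonneg_right hn (exp_pos _).le

theorem ms_split {Ω : Type} [Fintype Ω] {μ : Ω → ℝ} (hμ : ∀ ω, 0 ≤ μ ω) (E F : Ω → Prop) :
    ms μ E ≤ ms μ F + ms μ fun ω => E ω ∧ ¬ F ω := by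
  simp only [ms]
  rw [← sum_add_distrib]
  refine sum_le_sum fun ω _ => ?_
  rw [← add_mul]
  refine mul_le_mul_of_nonneg_right ?_ (hμ ω)
  by_cases h : F ω
  · rw [ind_pos h]
    linarith [ind_le_one (E ω), ind_nonneg (E ω ∧ ¬ F ω)]
  · rw [ind_neg h, zero_add]
    exact le_of_eq (ind_congr (by simp [h]))

theorem one_le_mul_exp {K x : ℝ} (h : exp x ≤ K) : 1 ≤ K * exp (- x) := by
  rw [exp_neg, ← div_eq_mul_inv, one_le_div (exp_pos _)]
  exact h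

theorem mul_exp_le {K N x : ℝ} : K * exp (- x) ≤ N ↔ K ≤ exp x * N := by
  rw [exp_neg, ← div_eq_mul_inv, div_le_iff₀ (exp_pos _), mul_comm]

/-- Few parameters have many cells. -/
theorem card_bad {α : Type} (R : Finset α) (f : α → ℝ) (h0 : ∀ r, 0 ≤ f r) {N n x : ℝ}
    (h : ∑ r ∈ R, f r ≤ N * exp n) : ((fl R fun r => ¬ f r ≤ exp (n + x)).card : ℝ) ≤
      N * exp (- x) := by
  refine le_of_mul_le_mul_right ?_ (exp_pos (n + x))
  rw [mul_assoc, ← exp_add, ← nsmul_eq_mul, ← sum_const, show - x + (n + x) = n by ring]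
  exact (sum_le_sum fun r hr => (not_le.1 (mem_fl.1 hr).2).le).trans
    ((sum_le_sum_of_subset_of_nonneg (fl_subset _ _) fun r _ _ => h0 r).trans h)

theorem den_good {α : Type} {R S : Finset α} (hS : S ⊆ R) (f : α → ℝ) (h0 : ∀ r, 0 ≤ f r)
    {N n ℓ : ℝ} (hN : 0 ≤ N) (hl : 1 ≤ ℓ) (h : ∑ r ∈ R, f r ≤ N * exp n)
    (hd : N ≤ exp ℓ * S.card) :
    N ≤ exp (2 * ℓ) * (fl S fun r => f r ≤ exp (n + 2 * ℓ)).card := by
  rw [← mul_exp_le] at hd ⊢
  have h1 := card_fl_add S fun r => f r ≤ exp (n + 2 * ℓ)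
  have h2 : ((fl S fun r => ¬ f r ≤ exp (n + 2 * ℓ)).card : ℝ) ≤ N * exp (- (2 * ℓ)) :=
    le_trans (Nat.cast_le.2 (card_le_card fun r hr =>
      mem_fl.2 ⟨hS (mem_fl.1 hr).1, (mem_fl.1 hr).2⟩)) (card_bad R f h0 h)
  have h3 := mul_le_mul_of_nonneg_left (two_le_exp (by linarith : - (2 * ℓ) + 1 ≤ - ℓ)) hN
  linarith

variable (m) in
/-- Most pairs of points are light. -/
def PL (A C : ℝ) : Prop :=
  ∃ p : ℝ, 1 ≤ p ∧ ∀ (ℓ : ℝ) (K : ℕ) (Ω : Type) [Fintype Ω] (μ : Ω → ℝ) (y d : Ω → Fin m → ℝ)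
    (S : Ω → Finset ℕ) (w1 w2 : ℝ) (Z : ℕ → Finset (Fin m → ℝ)) (c : ℕ → Ω → Fin m → ℝ)
    (n t : ℝ), US ℓ K μ y d S w1 w2 Z c n t → ∀ x g : ℝ, ℓ ≤ x → exp (p * x) ≤ K →
    p * x + (A - 1 - C) * t + A * w1 + (2 + C - 2 * A) * w2 + C * n ≤ g →
    ∑ r ∈ range K, ∑ z ∈ range K ×ˢ range K, ms (vr μ S c (exp (t - n - x)) r)
      (Hv (vr μ S c (exp (t - n - x)) r) (pl K y d z.1 z.2) g) ≤ K ^ 3 * exp (t - x)

theorem PL.init : PL m 2 2 := by
  have m0 := Nat.cast_nonneg (α := ℝ) m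
  refine ⟨2 + 14 * m, by linarith, fun ℓ K Ω _ μ y d S w1 w2 Z c n t hU x g hx hK hg => ?_⟩
  have hl := hU.ls.l1
  have hμ := hU.ls.pos
  have hK0 : (0 : ℝ) < K := (exp_pos _).trans_le hK
  have f0 : 10 * (m : ℝ) ≤ m * x := by nlinarith
  have h3 : 1 ≤ K * exp (- (2 * x)) := one_le_mul_exp ((exp_le_exp.2 (by linarith)).trans hK)
  set V := vr μ S c (exp (t - n - x)) with hV
  have hV0 : ∀ r v, 0 ≤ V r v := fun r => gv_nonneg hμ (exp_pos _)
  have step : ∀ r ∈ range K, ∀ z ∈ range K ×ˢ range K, ms (V r) (Hv (V r) (pl K y d z.1 z.2) g) ≤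
      exp t * (ind (¬ K * exp (- (2 * x)) ≤ |(z.1 : ℝ) - r|) +
        ind (¬ K * exp (- (2 * x)) ≤ |(z.2 : ℝ) - r|)) := by
    intro r hr z _
    have hr' := mem_range.1 hr
    have h4 : ms (V r) (Hv (V r) (pl K y d z.1 z.2) g) ≤ exp t :=
      (ms_le_sum (hV0 r) _).trans ((gv_sum_le hμ (exp_pos _)).trans hU.tot.le)
    have h5 := ind_nonneg (¬ K * exp (- (2 * x)) ≤ |(z.1 : ℝ) - r|)
    have h6 := ind_nonneg (¬ K * exp (- (2 * x)) ≤ |(z.2 : ℝ) - r|)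
    by_cases s1 : K * exp (- (2 * x)) ≤ |(z.1 : ℝ) - r|
    swap
    · rw [ind_pos s1]
      nlinarith [exp_pos t]
    by_cases s2 : K * exp (- (2 * x)) ≤ |(z.2 : ℝ) - r|
    swap
    · rw [ind_pos s2]
      nlinarith [exp_pos t]
    refine (ms_eq_zero fun v _ => not_lt.2 ?_).le.trans (by positivity)
    refine (ms_cover_le (G := exp (x + n - t) * exp (2 * (m * (x + 2 * x + 1 + 2)) + w1) *
      exp (2 * (m * (x + 2 * x + 1 + 2)) + w1)) (hV0 r) (Z r)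
      (fun u v' => (‖pt K y d r v'.1 - u‖ ≤ exp x ∧ ‖pt K y d r v'.2 - u‖ ≤ exp x) ∧
        pl K y d z.1 z.2 v' = pl K y d z.1 z.2 v) (fun v' h1 h2 => ?_) (fun u _ => ?_)
      (by positivity) (hU.zc r)).trans ?_
    · obtain ⟨a1, a2, a3, a4, a5⟩ := gv_ne h1
      exact ⟨_, (hU.cov _ a1 r a3).1, ⟨(hU.cov _ a1 r a3).2.trans (exp_le_exp.2 hx),
        a5 ▸ (hU.cov _ a2 r a4).2.trans (exp_le_exp.2 hx)⟩, h2⟩
    · have x1 : 1 ≤ exp x := one_le_exp (by linarith)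
      refine ms2_le hμ hμ (exp_pos _).le (fun a b _ h2 =>
        ⟨⟨⟨h2.1.1, (norm_of_cell (congrArg Prod.fst h2.2)).trans x1⟩, h2.1.2,
          (norm_of_cell (congrArg Prod.snd h2.2)).trans x1⟩,
          (gv_le hμ (exp_pos _) a b).trans (le_of_eq ?_)⟩)
        (pt2_le hμ hU.ls.c1 hr' (by linarith) (by linarith) (sep_div hK0 s1) u
          (pl K y d z.1 z.2 v).1) (fun _ => pt2_le hμ hU.ls.c1 hr' (by linarith) (by linarith)
          (sep_div hK0 s2) u (pl K y d z.1 z.2 v).2) (exp_pos _).le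
      rw [← exp_neg]
      congr 3
      ring
    · simp only [← exp_add]
      exact exp_le_exp.2 (by linarith)
  refine (sum_le_sum fun r hr => (sum_le_sum (step r hr)).trans
    (?_ : _ ≤ exp t * (6 * (K * exp (- (2 * x))) * K))).trans ?_
  · rw [← mul_sum, sum_add_distrib, sum_product, sum_product_right]
    simp only [sum_const, card_range, nsmul_eq_mul, ← mul_sum, ← card_fl_eq]
    refine mul_le_mul_of_nonneg_left ?_ (exp_pos _).le
    nlinarith [card_close K r _ h3]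
  · rw [sum_const, card_range, nsmul_eq_mul]
    have b1 : exp t * exp (- (2 * x)) = exp (t - 2 * x) := by rw [← exp_add]; congr 1
    have b2 := mul_le_mul_of_nonneg_left (c2_le_exp (by linarith : t - 2 * x + 2 ≤ t - x))
      (by positivity : (0 : ℝ) ≤ K ^ 3)
    have b3 : (K : ℝ) ^ 3 * (exp t * exp (- (2 * x))) = K ^ 3 * exp (t - 2 * x) := by rw [b1]
    linarith [mul_pos (pow_pos hK0 3) (exp_pos (t - 2 * x))]

theorem PL.step {β A C : ℝ} (h : RK m β) (h0 : 1 / 2 ≤ β) (h1 : β ≤ 1) (hp : PL m A C) :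
    PL m ((1 - β) ^ 2 * A + 2 - β) ((1 - β) ^ 2 * C + 3 - 2 * β) := by
  obtain ⟨p, p1, h⟩ := h
  obtain ⟨q, q1, hp⟩ := hp
  have m0 := Nat.cast_nonneg (α := ℝ) m
  refine ⟨576 * q + 600 * p + 1955 + 7112 * m, by linarith,
    fun ℓ K Ω _ μ y d S w1 w2 Z c n t hU x g hx hK hg => ?_⟩
  have hl := hU.ls.l1
  have a1 : 0 ≤ p * x := mul_nonneg (by linarith) (by linarith)
  have a2 : 0 ≤ q * x := mul_nonneg (by linarith) (by linarith)
  have a3 : 0 ≤ m * x := mul_nonneg m0 (by linarith)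
  refine basic h h0 h1 p1 hU hx ((exp_le_exp.2 (by linarith)).trans hK) (le_trans ?_ hg)
    (corner h h0 h1 p1 hU (by linarith) ((exp_le_exp.2 (by linarith)).trans hK) le_rfl
      (hp ℓ K Ω μ y d S w1 w2 Z c n t hU _ _ (by linarith)
        ((exp_le_exp.2 (by linarith)).trans hK) le_rfl))
  have f1 := mul_le_mul_of_nonneg_right (by linarith : 1 - β ≤ 1)
    (by linarith : 0 ≤ (24 * p + 80 + 280 * m) * (24 * x))
  have f2 := mul_le_mul_of_nonneg_right (by nlinarith : (1 - β) ^ 2 ≤ 1)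
    (by linarith : 0 ≤ q * (24 * (24 * x)))
  linarith

theorem PL.rk {A C : ℝ} (h : PL m A C) (hC : 0 ≤ C) (hA : A ≤ 2 + C) :
    RK m (1 - A / (2 + C)) := by
  classical
  obtain ⟨p, p1, h⟩ := h
  have m0 := Nat.cast_nonneg (α := ℝ) m
  refine ⟨10 * p + 9 + 5 * m, by linarith, fun ℓ K Ω _ μ y d S w1 w2 Z n t hL hK hc hn ht => ?_⟩
  have hl := hL.l1
  have hμ := hL.pos
  have hK0 : (0 : ℝ) < K := (exp_pos _).trans_le hK
  have a1 : 0 ≤ p * ℓ := mul_nonneg (by linarith) (by linarith)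
  have a3 : 10 * (m : ℝ) ≤ m * ℓ := by nlinarith
  have hT : 0 < ∑ ω, μ ω := (exp_pos t).trans_le ht
  obtain ⟨t', ht'⟩ : ∃ t', ∑ ω, μ ω = exp t' := ⟨_, (exp_log hT).symm⟩
  have htt : t ≤ t' := exp_le_exp.1 (ht' ▸ ht)
  choose! c hc1 hc2 using hc
  set S' : Ω → Finset ℕ := fun ω => fl (S ω) fun r => ((Z r).card : ℝ) ≤ exp (n + 2 * ℓ) with hS'
  have hle : exp ℓ ≤ exp (2 * ℓ) := exp_le_exp.2 (by linarith)
  have hU : US (2 * ℓ) K μ y d S' w1 w2
      (fun r => fl (Z r) fun _ => ((Z r).card : ℝ) ≤ exp (n + 2 * ℓ)) (fun r ω => c ω r)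
      (n + 2 * ℓ) t' := by
    refine ⟨⟨by linarith, hμ, fun ω => (hL.dn ω).trans (mul_le_mul_of_nonneg_right hle hK0.le),
      fun ω => (fl_subset _ _).trans (hL.sub ω), fun ω hω => den_good (hL.sub ω) _
        (fun _ => Nat.cast_nonneg _) hK0.le (by linarith) hn (hL.den ω hω), hL.c2, hL.c1⟩,
      fun r => ?_, fun ω hω r hr => ⟨mem_fl.2 ⟨hc1 ω hω r (mem_fl.1 hr).1, (mem_fl.1 hr).2⟩,
        (hc2 ω hω r (mem_fl.1 hr).1).trans hle⟩, ht'⟩
    by_cases h1 : ((Z r).card : ℝ) ≤ exp (n + 2 * ℓ)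
    · exact (card_fl_le _ _).trans h1
    · rw [eq_empty_of_forall_notMem fun z (hz : z ∈ fl (Z r) _) => h1 (mem_fl.1 hz).2, card_empty,
        Nat.cast_zero]
      exact (exp_pos _).le
  obtain ⟨g, hg⟩ : ∃ g, g = p * (10 * ℓ) + (A - 1 - C) * t' + A * w1 + (2 + C - 2 * A) * w2 +
    C * (n + 2 * ℓ) := ⟨_, rfl⟩
  have k1 := h _ K Ω μ y d S' w1 w2 _ _ _ t' hU (10 * ℓ) g (by linarith)
    ((exp_le_exp.2 (by linarith)).trans hK) hg.ge
  set V := vr μ S' (fun r ω => c ω r) (exp (t' - (n + 2 * ℓ) - 10 * ℓ)) with hV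
  have hV0 : ∀ r v, 0 ≤ V r v := fun r => gv_nonneg hμ (exp_pos _)
  choose B hB1 hB2 using fun r => exists_cells_of _ (by linarith : 0 ≤ 2 * ℓ) (hU.zc r)
  have k2 : ∀ r ∈ range K, ∀ z ∈ range K ×ˢ range K,
      ms (V r) (fun v => z ∈ S' v.1 ×ˢ S' v.2) ≤ ms (V r) (Hv (V r) (pl K y d z.1 z.2) g) +
        exp (n + 2 * ℓ + m * (2 * ℓ + 2)) * exp (n + 2 * ℓ + m * (2 * ℓ + 2)) * exp g := by
    intro r _ z _
    refine (ms_split (hV0 r) _ _).trans (add_le_add_right (ms_cover_le (hV0 r) (B z.1 ×ˢ B z.2)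
      (fun q v => pl K y d z.1 z.2 v = q ∧ ¬ Hv (V r) (pl K y d z.1 z.2) g v)
      (fun v hv h2 => ⟨_, ?_, rfl, h2.2⟩) (fun q _ => light_le (hV0 r) (pl K y d z.1 z.2)
        (exp_pos g).le q fun v _ h2 => ⟨h2.1, le_rfl, not_lt.1 h2.2⟩) (exp_pos g).le ?_) _)
    · obtain ⟨b1, b2⟩ := mem_product.1 h2.1
      obtain ⟨b3, b4, -⟩ := gv_ne hv
      exact mem_product.2 ⟨hB2 _ _ (hU.cov _ b3 _ b1).1 _
        ((hU.cov _ b3 _ b1).2.trans (by linarith [exp_pos (2 * ℓ)])),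
        hB2 _ _ (hU.cov _ b4 _ b2).1 _ ((hU.cov _ b4 _ b2).2.trans (by linarith [exp_pos (2 * ℓ)]))⟩
    · rw [card_product, Nat.cast_mul]
      exact mul_le_mul (hB1 _) (hB1 _) (Nat.cast_nonneg _) (exp_pos _).le
  have k3 : ∀ r ∈ range K, K * exp (- (2 * ℓ)) * (K * exp (- (2 * ℓ))) *
      (ms μ (fun ω => r ∈ S' ω) - exp (t' - 10 * ℓ)) ≤
      ∑ z ∈ range K ×ˢ range K, ms (V r) (fun v => z ∈ S' v.1 ×ˢ S' v.2) := by
    intro r _
    rw [← sum_card_eq (V r) (fun v => S' v.1 ×ˢ S' v.2) _ fun v =>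
      product_subset_product (hU.ls.sub _) (hU.ls.sub _)]
    have b1 := gv_sum_ge (E := fun ω => r ∈ S' ω) hμ (exp_pos (t' - (n + 2 * ℓ) - 10 * ℓ)) _
      (hU.zc r) fun ω h1 h2 => (hU.cov ω h1 r h2).1
    rw [← exp_add, show n + 2 * ℓ + (t' - (n + 2 * ℓ) - 10 * ℓ) = t' - 10 * ℓ by ring] at b1
    refine (mul_le_mul_of_nonneg_left (sub_le_iff_le_add.2 b1) (by positivity)).trans ?_
    rw [mul_sum]
    refine sum_le_sum fun v _ => ?_
    rw [mul_comm]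
    rcases (hV0 r v).eq_or_lt with h1 | h1
    · exact le_of_eq (by rw [← h1, zero_mul]; exact mul_eq_zero_of_left h1.symm _)
    obtain ⟨b3, b4, -⟩ := gv_ne h1.ne'
    rw [card_product, Nat.cast_mul]
    exact mul_le_mul_of_nonneg_left (mul_le_mul (mul_exp_le.2 (hU.ls.den _ b3))
      (mul_exp_le.2 (hU.ls.den _ b4)) (by positivity) (Nat.cast_nonneg _)) h1.le
  have k4 : K * exp (- (2 * ℓ)) * exp t' ≤ ∑ r ∈ range K, ms μ (fun ω => r ∈ S' ω) := by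
    rw [← sum_card_eq μ S' _ hU.ls.sub, ← ht', mul_sum]
    refine sum_le_sum fun ω _ => ?_
    rw [mul_comm]
    rcases (hμ ω).eq_or_lt with h1 | h1
    · rw [← h1, zero_mul, zero_mul]
    · exact mul_le_mul_of_nonneg_left (mul_exp_le.2 (hU.ls.den _ h1.ne')) h1.le
  have k5 := (sum_le_sum k3).trans (sum_le_sum fun r hr => sum_le_sum (k2 r hr))
  simp only [← mul_sum, sum_sub_distrib, sum_add_distrib, sum_const, card_product, card_range,
    nsmul_eq_mul, Nat.cast_mul] at k5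
  have k6 := (mul_le_mul_of_nonneg_left (sub_le_sub_right k4 _) (by positivity)).trans
    (k5.trans (add_le_add_left k1 _))
  have b1 : exp (- (2 * ℓ)) * exp (- (2 * ℓ)) * (exp (- (2 * ℓ)) * exp t') = exp (t' - 6 * ℓ) := by
    simp only [← exp_add]; congr 1; ring
  have b2 : exp (- (2 * ℓ)) * exp (- (2 * ℓ)) * exp (t' - 10 * ℓ) ≤ exp (t' - 10 * ℓ) := by
    rw [← exp_add]
    exact exp_mul_le (by linarith)
  have b3 := two_le_exp (by linarith : t' - 10 * ℓ + 1 ≤ t' - 7 * ℓ)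
  have b4 := two_le_exp (by linarith : t' - 7 * ℓ + 1 ≤ t' - 6 * ℓ)
  have b5 : exp (t' - 7 * ℓ) ≤ exp (n + 2 * ℓ + m * (2 * ℓ + 2)) *
      exp (n + 2 * ℓ + m * (2 * ℓ + 2)) * exp g := by
    refine le_of_mul_le_mul_left ?_ (pow_pos hK0 3)
    have hK3 := (pow_pos hK0 3).le
    have g1 : (K : ℝ) ^ 3 * (exp (- (2 * ℓ)) * exp (- (2 * ℓ)) * (exp (- (2 * ℓ)) * exp t')) =
      K ^ 3 * exp (t' - 6 * ℓ) := by rw [b1]
    linarith [mul_le_mul_of_nonneg_left b2 hK3, mul_le_mul_of_nonneg_left b3 hK3,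
      mul_le_mul_of_nonneg_left b4 hK3]
  rw [← exp_add, ← exp_add, exp_le_exp] at b5
  have hW : 0 < 2 + C := by linarith
  refine le_of_mul_le_mul_left ?_ hW
  have e1 : (2 + C) * (A / (2 + C)) = A := mul_div_cancel₀ _ hW.ne'
  have f1 := mul_le_mul_of_nonneg_left htt (sub_nonneg.2 hA)
  have f2 : 0 ≤ C * ((10 * p + 7 + 5 * m) * ℓ) := mul_nonneg hC (by linarith)
  generalize A / (2 + C) = a at e1 ⊢
  subst e1
  linarith

theorem RK.half : RK m (1 / 2) := by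
  have := (PL.init (m := m)).rk zero_le_two (by norm_num)
  norm_num at this ⊢
  exact this

theorem RK.adv {β γ : ℝ} (h : RK m β) (h0 : 1 / 2 ≤ β) (h1 : β ≤ 1) (h2 : 1 / 2 < γ)
    (h3 : γ ≤ 1 - pa β 6 / (2 + pc β 6)) : RK m γ := by
  have : ∀ k, PL m (pa β k) (pc β k) ∧ 0 ≤ pc β k ∧ pa β k ≤ 2 + pc β k := by
    intro k
    induction k with
    | zero => exact ⟨PL.init, zero_le_two, by norm_num [pa, pc]⟩
    | succ k ih =>
      refine ⟨ih.1.step h h0 h1, ?_⟩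
      have := mul_nonneg (sq_nonneg (1 - β)) ih.2.1
      have := mul_le_mul_of_nonneg_left ih.2.2 (sq_nonneg (1 - β))
      simp only [pa, pc]
      constructor <;> nlinarith
  exact ((this 6).1.rk (this 6).2.1 (this 6).2.2).mono RK.half h2 h3

theorem RK.best : RK m 0.5969 := by
  have h1 : RK m 0.5714 := RK.half.adv le_rfl (by norm_num) (by norm_num) (by norm_num [pa, pc])
  have h2 : RK m 0.5906 := h1.adv (by norm_num) (by norm_num) (by norm_num) (by norm_num [pa, pc])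
  have h3 : RK m 0.5954 := h2.adv (by norm_num) (by norm_num) (by norm_num) (by norm_num [pa, pc])
  have h4 : RK m 0.5965 := h3.adv (by norm_num) (by norm_num) (by norm_num) (by norm_num [pa, pc])
  have h5 : RK m 0.5968 := h4.adv (by norm_num) (by norm_num) (by norm_num) (by norm_num [pa, pc])
  exact h5.adv (by norm_num) (by norm_num) (by norm_num) (by norm_num [pa, pc])

end Pool.Agent.Work.MP_72ad00_an.H
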