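import Pool.Agent.Work.MP_72ad00_an.H.Base

/-!
The robust mixed Kakeya inequality at one scale and its conditional forms.
-/

set_option autoImplicit false

open Finset Real

namespace Pool.Agent.Work.MP_72ad00_an.H

open Pool.Agent.Lib.PFR

variable {m : ℕ}

/-- The point of slope `r / K`. -/
noncomputable def pt {Ω : Type} (K : ℕ) (y d : Ω → Fin m → ℝ) (r : ℕ) (ω : Ω) : Fin m → ℝ :=
  y ω + ((r : ℝ) / K) • d ω

/-- A weighted family of lines with sets of good slopes. -/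
structure LS {Ω : Type} [Fintype Ω] (ℓ : ℝ) (K : ℕ) (μ : Ω → ℝ) (y d : Ω → Fin m → ℝ)
    (S : Ω → Finset ℕ) (w1 w2 : ℝ) : Prop where
  l1 : 10 ≤ ℓ
  pos : ∀ ω, 0 ≤ μ ω
  dn : ∀ ω, ‖d ω‖ ≤ exp ℓ * K
  sub : ∀ ω, S ω ⊆ range K
  den : ∀ ω, μ ω ≠ 0 → (K : ℝ) ≤ exp ℓ * (S ω).card
  c2 : ∀ z, ms μ (fun ω => ‖d ω - z‖ ≤ 1) ≤ exp w2
  c1 : ∀ z z', ms μ (fun ω => ‖y ω - z‖ ≤ 1 ∧ ‖d ω - z'‖ ≤ 1) ≤ exp w1

variable (m) in
/-- The robust inequality with exponent `β` and loss `p`. -/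
def RKp (β p : ℝ) : Prop :=
  ∀ (ℓ : ℝ) (K : ℕ) (Ω : Type) [Fintype Ω] (μ : Ω → ℝ) (y d : Ω → Fin m → ℝ) (S : Ω → Finset ℕ)
    (w1 w2 : ℝ) (Z : ℕ → Finset (Fin m → ℝ)) (n t : ℝ), LS ℓ K μ y d S w1 w2 →
    exp (p * ℓ) ≤ K → (∀ ω, μ ω ≠ 0 → ∀ r ∈ S ω, ∃ z ∈ Z r, ‖pt K y d r ω - z‖ ≤ exp ℓ) →
    ∑ r ∈ range K, ((Z r).card : ℝ) ≤ K * exp n → exp t ≤ ∑ ω, μ ω →
    β * t ≤ p * ℓ + n + (2 * β - 1) * w2 + (1 - β) * w1

variable (m) in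
/-- The robust inequality with exponent `β`. -/
def RK (β : ℝ) : Prop := ∃ p : ℝ, 1 ≤ p ∧ RKp m β p

theorem RK.mono {β γ : ℝ} (h : RK m β) (h' : RK m (1 / 2)) (h0 : 1 / 2 < γ) (h1 : γ ≤ β) :
    RK m γ := by
  obtain ⟨p, hp, h⟩ := h
  obtain ⟨q, hq, h'⟩ := h'
  refine ⟨p + q, by linarith only [hp, hq], fun ℓ K Ω _ μ y d S w1 w2 Z n t hL hK hc hn ht => ?_⟩
  have hl := hL.l1
  have a1 : p * ℓ ≤ (p + q) * ℓ := by linarith only [hq, hl, mul_nonneg_of_nonpos_of_nonpos (Mathlib.Tactic.Linarith.sub_nonpos_of_le hq) (Mathlib.Tactic.Linarith.sub_nonpos_of_le hl)]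
  have a2 : q * ℓ ≤ (p + q) * ℓ := by linarith only [hp, hl, mul_nonneg_of_nonpos_of_nonpos (Mathlib.Tactic.Linarith.sub_nonpos_of_le hp) (Mathlib.Tactic.Linarith.sub_nonpos_of_le hl)]
  have k1 := h ℓ K Ω μ y d S w1 w2 Z n t hL ((exp_le_exp.2 a1).trans hK) hc hn ht
  have k2 := h' ℓ K Ω μ y d S w1 w2 Z n t hL ((exp_le_exp.2 a2).trans hK) hc hn ht
  refine le_of_mul_le_mul_left ?_ (by linarith only [h0, h1] : 0 < 2 * β - 1)
  have f1 := mul_le_mul_of_nonneg_left (k1.trans (by linarith only [a1] : _ ≤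
    (p + q) * ℓ + n + (2 * β - 1) * w2 + (1 - β) * w1)) (by linarith only [h0] : 0 ≤ 2 * γ - 1)
  have f2 := mul_le_mul_of_nonneg_left (k2.trans (by linarith only [a2] : _ ≤
    (p + q) * ℓ + n + (1 / 2) * w1)) (by linarith only [h1] : 0 ≤ 2 * (β - γ))
  linarith only [f1, f2, f1, f2]

variable {Ω ι : Type} [Fintype Ω]

theorem sum_le_thin {α : Type} {μ : Ω → ℝ} (hμ : ∀ ω, 0 ≤ μ ω) (S : Ω → Finset α) {N ℓ : ℝ}
    (hN : 0 ≤ N) (hS : ∀ ω, ((S ω).card : ℝ) ≤ N) :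
    ∑ ω, μ ω * (S ω).card ≤
      N * (exp (- ℓ) * ∑ ω, μ ω + ms μ fun ω => N ≤ exp ℓ * (S ω).card) := by
  rw [ms, mul_sum, ← sum_add_distrib, mul_sum]
  refine sum_le_sum fun ω _ => ?_
  have h1 := hμ ω
  have h2 := mul_nonneg (exp_pos (- ℓ)).le h1
  by_cases h : N ≤ exp ℓ * (S ω).card
  · rw [ind_pos h]
    linarith only [hS, h1, hN, h2, mul_le_mul_of_nonneg_left (hS ω) h1, mul_nonneg hN h2]
  · rw [ind_neg h]
    have h3 : ((S ω).card : ℝ) ≤ N * exp (- ℓ) := by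
      rw [exp_neg, ← div_eq_mul_inv, le_div_iff₀ (exp_pos ℓ)]
      linarith
    linarith [mul_le_mul_of_nonneg_left h3 h1]

/-- The conditional form. -/
theorem RKp.cond {β p : ℝ} (h : RKp m β p) (h1 : β ≤ 1) {ℓ : ℝ} {K : ℕ} {μ : Ω → ℝ}
    {y d : Ω → Fin m → ℝ} {S : Ω → Finset ℕ} (U : Ω → ι) (Z : ℕ → Finset (ι × (Fin m → ℝ)))
    {n w0 w1 w2 : ℝ} (hl : 10 ≤ ℓ) (hK : exp (p * ℓ) ≤ K) (hμ : ∀ ω, 0 ≤ μ ω)
    (hd : ∀ ω, ‖d ω‖ ≤ exp ℓ * K) (hS : ∀ ω, S ω ⊆ range K)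
    (hc : ∀ ω, μ ω ≠ 0 → ∀ r ∈ S ω, ∃ z, (U ω, z) ∈ Z r ∧ ‖pt K y d r ω - z‖ ≤ exp ℓ)
    (hn : ∑ r ∈ range K, ((Z r).card : ℝ) ≤ K * exp n)
    (h0 : ∀ u, ms μ (fun ω => U ω = u) ≤ exp w0)
    (h2 : ∀ u z, ms μ (fun ω => U ω = u ∧ ‖d ω - z‖ ≤ 1) ≤ exp w2)
    (h3 : ∀ u z z', ms μ (fun ω => U ω = u ∧ ‖y ω - z‖ ≤ 1 ∧ ‖d ω - z'‖ ≤ 1) ≤ exp w1) :
    ∑ ω, μ ω * (S ω).card ≤ K * (exp (- ℓ) * ∑ ω, μ ω +
      exp (p * ℓ + n + (1 - β) * w0 + (2 * β - 1) * w2 + (1 - β) * w1)) := by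
  classical
  have hK0 : (0 : ℝ) < K := (exp_pos _).trans_le hK
  refine (sum_le_thin hμ S (ℓ := ℓ) hK0.le fun ω => by
    exact_mod_cast (card_le_card (hS ω)).trans (card_range K).le).trans ?_
  refine mul_le_mul_of_nonneg_left (add_le_add_right ?_ _) hK0.le
  set X := exp (p * ℓ + (1 - β) * w0 + (2 * β - 1) * w2 + (1 - β) * w1) with hX
  have hX0 : 0 < X := exp_pos _
  obtain ⟨Zu, hZ1, hZ2⟩ : ∃ Zu : ι → ℕ → Finset (Fin m → ℝ), (∀ u r z, (u, z) ∈ Z r → z ∈ Zu u r) ∧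
      ∀ r (A : Finset ι), ∑ u ∈ A, ((Zu u r).card : ℝ) ≤ (Z r).card := by
    refine ⟨fun u r => ((Z r).filter fun z => z.1 = u).image Prod.snd,
      fun u r z hz => mem_image.2 ⟨_, mem_filter.2 ⟨hz, rfl⟩, rfl⟩, fun r A => ?_⟩
    rw [← Nat.cast_sum, Nat.cast_le]
    refine (sum_le_sum fun u _ => card_image_le).trans ?_
    exact (sum_card_fiberwise_eq_card_filter (Z r) A Prod.fst).le.trans (card_filter_le _ _)
  have key : ∀ u, ms μ (fun ω => U ω = u ∧ (K : ℝ) ≤ exp ℓ * (S ω).card) ≤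
      X / K * ∑ r ∈ range K, ((Zu u r).card : ℝ) := by
    intro u
    set E : Ω → Prop := fun ω => U ω = u ∧ (K : ℝ) ≤ exp ℓ * (S ω).card with hE
    rcases (ms_nonneg hμ E).eq_or_lt with h4 | h4
    · rw [← h4]
      exact mul_nonneg (div_pos hX0 hK0).le (sum_nonneg fun _ _ => Nat.cast_nonneg _)
    have hE1 : ∀ ω, ind (E ω) * μ ω ≠ 0 → E ω ∧ μ ω ≠ 0 := fun ω h5 =>
      ⟨by_contra fun h6 => h5 (by rw [ind_neg h6, zero_mul]), right_ne_zero_of_mul h5⟩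
    have hE2 : ∀ ω, ind (E ω) * μ ω ≤ μ ω := fun ω => mul_le_of_le_one_left (hμ ω) (ind_le_one _)
    have hcov : ∀ ω, ind (E ω) * μ ω ≠ 0 → ∀ r ∈ S ω, ∃ z ∈ Zu u r,
        ‖pt K y d r ω - z‖ ≤ exp ℓ := fun ω h5 r hr => by
      obtain ⟨z, h6, h7⟩ := hc ω (hE1 ω h5).2 r hr
      exact ⟨z, hZ1 _ _ _ ((hE1 ω h5).1.1 ▸ h6), h7⟩
    have h5 : 0 < ∑ r ∈ range K, ((Zu u r).card : ℝ) := by
      obtain ⟨ω, -, h6⟩ := exists_ne_zero_of_sum_ne_zero h4.ne'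
      have h7 : 0 < (S ω).card := by
        by_contra h8
        have h9 := (hE1 ω h6).1.2
        rw [Nat.eq_zero_of_not_pos h8, Nat.cast_zero, mul_zero] at h9
        linarith only [hK0, h9]
      obtain ⟨r, hr⟩ := card_pos.1 h7
      obtain ⟨z, hz, -⟩ := hcov ω h6 r hr
      exact sum_pos' (fun _ _ => Nat.cast_nonneg _)
        ⟨r, hS ω hr, by exact_mod_cast card_pos.2 ⟨z, hz⟩⟩
    have h6 := h ℓ K Ω (fun ω => ind (E ω) * μ ω) y d S w1 w2 (Zu u)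
      (log ((∑ r ∈ range K, ((Zu u r).card : ℝ)) / K)) (log (ms μ E))
      ⟨hl, fun ω => mul_nonneg (ind_nonneg _) (hμ ω), hd, hS, fun ω h5 => (hE1 ω h5).1.2,
        fun z => (ms_le hμ fun ω h5 h6 => ⟨⟨(hE1 ω h5).1.1, h6⟩, hE2 ω⟩).trans (h2 u z),
        fun z z' => (ms_le hμ fun ω h5 h6 => ⟨⟨(hE1 ω h5).1.1, h6⟩, hE2 ω⟩).trans (h3 u z z')⟩
      hK hcov (by rw [exp_log (div_pos h5 hK0), mul_div_cancel₀ _ hK0.ne']) (exp_log h4).le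
    have h7 : log (ms μ E) ≤ w0 :=
      (log_le_iff_le_exp h4).2 ((ms_mono hμ fun _ _ h => h.1).trans (h0 u))
    have h8 := mul_le_mul_of_nonneg_left h7 (sub_nonneg.2 h1)
    rw [← exp_log h4, div_mul_comm, ← exp_log (div_pos h5 hK0), hX, ← exp_add]
    exact exp_le_exp.2 (by linarith only [h6, h8])
  refine (ms_cover hμ (univ.image U) (fun u ω => U ω = u ∧ (K : ℝ) ≤ exp ℓ * (S ω).card)
    fun ω _ h4 => ⟨_, mem_image_of_mem _ (mem_univ ω), rfl, h4⟩).trans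
    ((sum_le_sum fun u _ => key u).trans ?_)
  rw [← mul_sum, sum_comm]
  have h4 : ∑ r ∈ range K, ∑ u ∈ univ.image U, ((Zu u r).card : ℝ) ≤ K * exp n :=
    le_trans (sum_le_sum fun r _ => hZ2 r _) hn
  refine (mul_le_mul_of_nonneg_left h4 (div_pos hX0 hK0).le).trans (le_of_eq ?_)
  rw [← mul_assoc, div_mul_cancel₀ _ hK0.ne', hX, ← exp_add]
  congr 1
  ring

theorem exp_mul_le {a b c : ℝ} (h : a + b ≤ c) : exp a * exp b ≤ exp c := by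
  rw [← exp_add]
  exact exp_le_exp.2 h

/-- Projection of two lines from a point of their plane. -/
theorem RKp.two {β p : ℝ} (h : RKp m β p) (h1 : β ≤ 1) {ℓ : ℝ} {K : ℕ} {ν : Ω → ℝ}
    {y d e : Ω → Fin m → ℝ} {S : Ω → Finset ℕ} {r0 : ℕ} {σ τ : ℝ}
    (Y : ℕ → Finset ((Fin m → ℝ) × (Fin m → ℝ))) {n w0 w1 w2 : ℝ} (hl : 10 ≤ ℓ)
    (hK : exp (p * ℓ) ≤ K) (hν : ∀ ω, 0 ≤ ν ω) (hd : ∀ ω, ‖d ω‖ ≤ exp ℓ * K)
    (he : ∀ ω, ‖e ω‖ ≤ exp ℓ * K) (hS : ∀ ω, S ω ⊆ range K) (hr : r0 ≤ K) (hτ : |τ| ≤ exp ℓ)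
    (hσ : exp (- ℓ) ≤ |σ|)
    (hc : ∀ ω, ν ω ≠ 0 → ∀ j ∈ S ω, exp (- ℓ) ≤ |((j : ℝ) - r0) / K| ∧ ∃ s' : ℝ,
      |σ - (1 - τ / (((j : ℝ) - r0) / K)) * s'| * K ≤ exp ℓ ∧ ∃ q ∈ Y j,
        ‖pt K y d j ω - q.1‖ ≤ exp ℓ ∧ ‖pt K y d r0 ω + s' • e ω - q.2‖ ≤ exp ℓ)
    (hn : ∑ r ∈ range K, ((Y r).card : ℝ) ≤ K * exp n)
    (h0 : ∀ u, ms ν (fun ω => cell (pt K y d r0 ω + σ • e ω + τ • d ω) = u) ≤ exp w0)
    (h2 : ∀ a b, ms ν (fun ω => ‖pt K y d r0 ω + σ • e ω - a‖ ≤ 2 * exp ℓ ∧ ‖d ω - b‖ ≤ 1) ≤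
      exp w2)
    (h3 : ∀ a b c, ms ν (fun ω => (‖y ω - a‖ ≤ 1 ∧ ‖d ω - b‖ ≤ 1) ∧ ‖e ω - c‖ ≤ exp (3 * ℓ)) ≤
      exp w1) :
    ∑ ω, ν ω * (S ω).card ≤ K * (exp (- ℓ) * ∑ ω, ν ω +
      exp (p * ℓ + (6 * m * ℓ + n) + (1 - β) * w0 + (2 * β - 1) * w2 + (1 - β) * w1)) := by
  classical
  have hK0 : (0 : ℝ) < K := (exp_pos _).trans_le hK
  have hX : (2.7 : ℝ) ≤ exp ℓ := e1.trans (exp_le_exp.2 (by linarith only [hl]))
  have hXi : exp (- ℓ) * exp ℓ = 1 := by rw [← exp_add]; simp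
  have hσ0 : σ ≠ 0 := abs_pos.1 ((exp_pos _).trans_le hσ)
  have hσ1 : |σ⁻¹| ≤ exp ℓ := by
    rw [abs_inv, inv_le_comm₀ (abs_pos.2 hσ0) (exp_pos _), ← exp_neg]
    exact hσ
  have hr1 : |(r0 : ℝ) / K| ≤ 1 := by
    rw [abs_of_nonneg (by positivity), div_le_one hK0]
    exact_mod_cast hr
  choose A hA1 hA2 using fun z : Fin m → ℝ => exists_cells z (x := 4 * ℓ) (by linarith only [hl])
  refine h.cond h1 (y := y) (fun ω => cell (pt K y d r0 ω + σ • e ω + τ • d ω))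
    (fun j => (Y j).biUnion fun q => (A ((τ / (((j : ℝ) - r0) / K)) • q.1 +
      (1 - τ / (((j : ℝ) - r0) / K)) • q.2)).image fun u => (u, q.1)) hl hK hν hd hS
    (fun ω hω j hj => ?_) ?_ h0 (fun u b => ?_) fun u a b => ?_
  · obtain ⟨s1, s', s2, q, hq, q1, q2⟩ := hc ω hω j hj
    refine ⟨q.1, mem_biUnion.2 ⟨q, hq, mem_image.2 ⟨_, hA2 _ _ ?_, rfl⟩⟩, q1⟩
    set s := ((j : ℝ) - r0) / K with hs
    have s0 : s ≠ 0 := abs_pos.1 ((exp_pos _).trans_le s1)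
    have e0 : pt K y d r0 ω + σ • e ω + τ • d ω - ((τ / s) • q.1 + (1 - τ / s) • q.2) =
        (τ / s) • (pt K y d j ω - q.1) + (1 - τ / s) • (pt K y d r0 ω + s' • e ω - q.2) +
          (σ - (1 - τ / s) * s') • e ω := by
      have e3 : (j : ℝ) / K = r0 / K + s := by rw [hs]; ring
      simp only [pt, e3]
      match_scalars <;> field_simp <;> ring
    have t1 : |τ / s| ≤ exp ℓ * exp ℓ := by
      rw [abs_div, div_le_iff₀ (abs_pos.2 s0)]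
      have := mul_le_mul_of_nonneg_left s1 (mul_pos (exp_pos ℓ) (exp_pos ℓ)).le
      linarith only [hτ, hXi, this, hX, Mathlib.Tactic.Linarith.mul_zero_eq (Mathlib.Tactic.Linarith.sub_nonpos_of_le hX) (sub_eq_zero_of_eq hXi)]
    have t2 : |1 - τ / s| ≤ 1 + exp ℓ * exp ℓ :=
      (abs_sub _ _).trans (by rw [abs_one]; linarith only [t1])
    have t3 := mul_le_mul t1 q1 (norm_nonneg _) (by positivity)
    have t4 := mul_le_mul t2 q2 (norm_nonneg _) (by positivity)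
    have t5 := mul_le_mul_of_nonneg_left (he ω) (abs_nonneg (σ - (1 - τ / s) * s'))
    have t6 := mul_le_mul_of_nonneg_left s2 (exp_pos ℓ).le
    have t7 : exp (4 * ℓ) = exp ℓ * exp ℓ * exp ℓ * exp ℓ := by
      simp only [← exp_add]
      congr 1
      ring
    rw [e0, t7]
    refine (norm_add₃_le).trans ?_
    simp only [norm_smul, Real.norm_eq_abs]
    have t8 : 1 ≤ exp ℓ * exp ℓ := by linarith only [hX, mul_nonneg_of_nonpos_of_nonpos (Mathlib.Tactic.Linarith.sub_nonpos_of_le hX) (Mathlib.Tactic.Linarith.sub_nonpos_of_le hX)]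
    have t9 : exp ℓ ≤ exp ℓ * exp ℓ * exp ℓ := by linarith only [t8, hX, mul_nonneg_of_nonpos_of_nonpos (Mathlib.Tactic.Linarith.sub_nonpos_of_le (mul_self_nonneg (rexp ℓ))) (Mathlib.Tactic.Linarith.sub_nonpos_of_le hX), mul_nonneg_of_nonpos_of_nonpos (Mathlib.Tactic.Linarith.sub_nonpos_of_le hX) (Mathlib.Tactic.Linarith.sub_nonpos_of_le hX)]
    have t10 : exp ℓ * exp ℓ ≤ exp ℓ * exp ℓ * exp ℓ := by linarith only [hX, t9, mul_nonneg_of_nonpos_of_nonpos (Mathlib.Tactic.Linarith.sub_nonpos_of_le (mul_self_nonneg (rexp ℓ))) (Mathlib.Tactic.Linarith.sub_nonpos_of_le hX)]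
    linarith only [hX, t3, t4, t5, t6, t9, mul_nonneg_of_nonpos_of_nonpos (Mathlib.Tactic.Linarith.sub_nonpos_of_le (mul_self_nonneg ((1 : ℝ) * rexp ℓ))) (Mathlib.Tactic.Linarith.sub_nonpos_of_le hX), mul_nonneg_of_nonpos_of_nonpos (Mathlib.Tactic.Linarith.sub_nonpos_of_le hX) (Mathlib.Tactic.Linarith.sub_nonpos_of_le hX), mul_nonneg_of_nonpos_of_nonpos (Mathlib.Tactic.Linarith.sub_nonpos_of_le hX) (Mathlib.Tactic.Linarith.sub_nonpos_of_le t9)]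
  · refine (sum_le_sum fun j _ => (?_ : _ ≤ exp (6 * m * ℓ) * ((Y j).card : ℝ))).trans ?_
    · refine (Nat.cast_le.2 card_biUnion_le).trans ?_
      push_cast
      refine (sum_le_sum fun q _ => (Nat.cast_le.2 card_image_le).trans (hA1 _)).trans ?_
      rw [sum_const, nsmul_eq_mul, mul_comm]
      refine mul_le_mul_of_nonneg_right (exp_le_exp.2 ?_) (Nat.cast_nonneg _)
      linarith only [hl, Nat.cast_nonneg (α := ℝ) m, mul_nonneg_of_nonpos_of_nonpos (Mathlib.Tactic.Linarith.sub_nonpos_of_le (Mathlib.Tactic.Linarith.natCast_nonneg ℝ m)) (Mathlib.Tactic.Linarith.sub_nonpos_of_le hl)]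
    · rw [← mul_sum, exp_add, mul_left_comm]
      exact mul_le_mul_of_nonneg_left hn (exp_pos _).le
  · refine (ms_mono hν fun ω _ h4 => ⟨?_, h4.2⟩).trans (h2 (u - τ • b) b)
    have e0 : pt K y d r0 ω + σ • e ω - (u - τ • b) =
        (pt K y d r0 ω + σ • e ω + τ • d ω - u) - τ • (d ω - b) := by module
    rw [e0]
    refine (norm_sub_le _ _).trans ?_
    rw [norm_smul, Real.norm_eq_abs]
    have t1 := norm_of_cell h4.1
    have t2 := mul_le_mul hτ h4.2 (norm_nonneg _) (exp_pos _).le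
    linarith only [hX, t1, t2]
  · refine (ms_mono hν fun ω _ h4 => ⟨h4.2, ?_⟩).trans
      (h3 a b (σ⁻¹ • (u - a - ((r0 : ℝ) / K) • b - τ • b)))
    have e0 : e ω - σ⁻¹ • (u - a - ((r0 : ℝ) / K) • b - τ • b) =
        σ⁻¹ • ((pt K y d r0 ω + σ • e ω + τ • d ω - u) - (y ω - a) -
          ((r0 : ℝ) / K) • (d ω - b) - τ • (d ω - b)) := by
      simp only [pt]
      match_scalars <;> field_simp <;> ring
    have t1 := norm_of_cell h4.1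
    have t2 := mul_le_mul hτ h4.2.2 (norm_nonneg _) (exp_pos _).le
    have t3 := mul_le_mul hr1 h4.2.2 (norm_nonneg _) zero_le_one
    have t4 : ‖(pt K y d r0 ω + σ • e ω + τ • d ω - u) - (y ω - a) -
        ((r0 : ℝ) / K) • (d ω - b) - τ • (d ω - b)‖ ≤ 3 + exp ℓ := by
      refine (norm_sub_le _ _).trans ((add_le_add_left ((norm_sub_le _ _).trans
        (add_le_add_left (norm_sub_le _ _) _)) _).trans ?_)
      simp only [norm_smul, Real.norm_eq_abs]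
      linarith only [h4, t1, t2, t3, h4.2.1]
    have t7 : exp (3 * ℓ) = exp ℓ * (exp ℓ * exp ℓ) := by
      simp only [← exp_add]
      congr 1
      ring
    rw [e0, norm_smul, Real.norm_eq_abs, t7]
    exact mul_le_mul hσ1 (t4.trans (by linarith only [hX, mul_nonneg_of_nonpos_of_nonpos (Mathlib.Tactic.Linarith.sub_nonpos_of_le hX) (Mathlib.Tactic.Linarith.sub_nonpos_of_le hX)])) (norm_nonneg _) (exp_pos _).le

end Pool.Agent.Work.MP_72ad00_an.H
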